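import Pool.Agent.Run7.h661.U.Lens

/-!
# The width of the cell at all times close to the singular time
-/

open Set Filter Topology
open scoped Real ContDiff

namespace Run7.h661u

open Run7.h661x Run7.h661z Run7.h661v
open Run7.h661y (cang cang0 cang1 cang2 QF HypE SecAt xa ya yM rr rr_pos rr_sq tendsto_rr Jq
  mono_of_deriv hasDerivAt_rr sqrt3_bounds polar0 zero_mem_I one_mem_I rr_anti)

lemma rr_tendsto_gt : Tendsto (rr (1 / 2)) (𝓝[<] (1 / 2 : ℝ)) (𝓝[>] 0) :=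
  tendsto_nhdsWithin_iff.2 ⟨tendsto_rr (1 / 2), by
    filter_upwards [self_mem_nhdsWithin] with s hs
    exact rr_pos hs⟩

lemma small_ev {C s2 η : ℝ} (hη : 0 < η) : ∀ᶠ t in 𝓝[<] (1 / 2 : ℝ),
    C * (Real.exp (Real.log (rr (1 / 2) t) / 5000) * Real.exp (s2 ^ 2)) < η := by
  have h2 : Tendsto (fun t => Real.log (rr (1 / 2) t)) (𝓝[<] (1 / 2)) atBot :=
    Real.tendsto_log_nhdsGT_zero.comp rr_tendsto_gt
  have h3 : Tendsto (fun t => Real.log (rr (1 / 2) t) / 5000) (𝓝[<] (1 / 2)) atBot :=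
    h2.atBot_div_const (by norm_num)
  have h4 := ((Real.tendsto_exp_atBot.comp h3).mul_const (Real.exp (s2 ^ 2))).const_mul C
  rw [zero_mul, mul_zero] at h4
  exact h4.eventually (gt_mem_nhds hη)

lemma rr_small {c η : ℝ} (hη : 0 < η) : ∀ᶠ t in 𝓝[<] (1 / 2 : ℝ), c * rr (1 / 2) t < η := by
  have h1 := (tendsto_rr (1 / 2)).const_mul c
  rw [mul_zero] at h1
  exact h1.eventually (gt_mem_nhds hη)

section
variable {g : Fin 3 → ℝ → ℝ → ℂ} {a : AFd} (S : St (1 / 2) a g)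
include S

/-- the limit lens has half width less than 1.53 -/
lemma good_width {M : ℝ} (hM : 0 < M) (hMt : ∀ t ∈ Ico (3 / 8 : ℝ) (1 / 2), xa g t < M * rr (1 / 2) t) :
    ∃ δ > 0, ∃ t1 ∈ Ico (3 / 8 : ℝ) (1 / 2), ∀ t ∈ Ico t1 (1 / 2),
      rr (1 / 2) t ^ 2 * Gt a t ≤ δ → xa g t ≤ 153 / 100 * rr (1 / 2) t := by
  have H := hE S
  have hpi := Real.pi_pos
  by_contra hcon
  push Not at hcon
  have hTn : ∀ n : ℕ, max (3 / 8 : ℝ) (1 / 2 - 1 / (n + 1)) ∈ Ico (3 / 8 : ℝ) (1 / 2) := by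
    intro n
    refine ⟨le_max_left _ _, max_lt (by norm_num) ?_⟩
    have : (0:ℝ) < 1 / (n + 1) := by positivity
    linarith
  choose t ht hG hxt using fun n : ℕ => hcon ((1 / ((n : ℝ) + 1)) ^ 2 / Real.exp (13 * M ^ 2))
    (by positivity) (max (3 / 8 : ℝ) (1 / 2 - 1 / (n + 1))) (hTn n)
  have ht38 : ∀ n, t n ∈ Ico (3 / 8 : ℝ) (1 / 2) := fun n => ⟨(hTn n).1.trans (ht n).1, (ht n).2⟩
  have ht4 : ∀ n, t n ∈ Ico (1 / 4 : ℝ) (1 / 2) := fun n =>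
    ⟨le_trans (by norm_num) (ht38 n).1, (ht n).2⟩
  have hlim : Tendsto t atTop (𝓝 (1 / 2)) := by
    refine tendsto_of_tendsto_of_tendsto_of_le_of_le
      (g := fun n : ℕ => (1 / 2 : ℝ) - 1 / ((n:ℝ) + 1)) (h := fun _ => (1 / 2 : ℝ)) ?_
      tendsto_const_nhds ?_ ?_
    · have := (tendsto_one_div_add_atTop_nhds_zero_nat (𝕜 := ℝ)).const_sub (1 / 2 : ℝ)
      simpa using this
    · intro n
      exact (le_max_right _ _).trans (ht n).1
    · intro n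
      exact (ht n).2.le
  obtain ⟨φ, b, l, X, Y, Θ, hφ, hb, hl, hxa, hya, hlh, hX, hY, hΘ, dX, dY, dΘ, hΘ0⟩ :=
    caps_lim_seq S hM ht4 hlim (fun n => hMt _ (ht38 n)) hG
  have htI : ∀ n, t n ∈ Ioo 0 (1 / 2 : ℝ) := fun n => H.mem (ht4 n)
  have z0 : (0:ℝ) ∈ Icc (0:ℝ) 1 := ⟨le_refl _, zero_le_one⟩
  have z1 : (1:ℝ) ∈ Icc (0:ℝ) 1 := ⟨zero_le_one, le_refl _⟩
  have hl0 : 0 < l := by linarith
  have hX0 : X 0 = b := by
    refine tendsto_nhds_unique (UT.at hX z0) (hxa.congr (fun n => ?_))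
    rw [xh, AFd.pp, Pf_zero, (S.junc_eq (htI _) 1).1]
  have hY0 : Y 0 = 0 := by
    refine tendsto_nhds_unique (UT.at hY z0) (hya.congr (fun n => ?_))
    rw [yh, AFd.pp, Pf_zero, (S.junc_eq (htI _) 1).2]
  have hX1 : X 1 = 0 := by
    refine tendsto_nhds_unique (UT.at hX z1) (tendsto_const_nhds.congr (fun n => ?_))
    have : a.X 1 (t (φ n)) 1 = 0 := by rw [AFd.X]; ring
    rw [xh, S.A.pp_one (htI _), this, zero_div]
  have hΘ1 : Θ 1 = π := by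
    refine tendsto_nhds_unique (UT.at hΘ z1) (tendsto_const_nhds.congr (fun n => ?_))
    rw [th, S.A.al_pp_one (htI _)]
  have hY1 : Y 1 ≤ √3 / 2 := by
    refine le_of_tendsto (UT.at hY z1) (Eventually.of_forall (fun n => ?_))
    have h1 := H.yM_le (ht4 (φ n))
    have hr := rr_pos (ht4 (φ n)).2
    rw [yh, S.A.pp_one (htI _), div_le_iff₀ hr, ← (S.C.re_eq S.A 1 (htI (φ n)) z1).2]
    exact h1
  have hs : ∀ p ∈ Icc (0:ℝ) 1, 2 * π / 3 ≤ Θ p ∧ Θ p ≤ π := by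
    intro p hp
    have key : ∀ n, 2 * π / 3 ≤ th a (t (φ n)) p ∧ th a (t (φ n)) p ≤ π := by
      intro n
      have := S.sec 1 (t (φ n)) (htI (φ n)) _ (S.A.pp_mem (htI (φ n)) hp)
      rw [th, AFd.al, cang1]
      constructor <;> linarith
    exact ⟨ge_of_tendsto (UT.at hΘ hp) (Eventually.of_forall (fun n => (key n).1)),
      le_of_tendsto (UT.at hΘ hp) (Eventually.of_forall (fun n => (key n).2))⟩
  have h1 := lens_width hl0 dX dY dΘ hX0 hY0 hΘ0 hX1 hΘ1 hs hY1 (by linarith)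
  have h2 : 153 / 100 ≤ b := by
    refine ge_of_tendsto hxa (Eventually.of_forall (fun n => ?_))
    rw [le_div_iff₀ (rr_pos (ht4 (φ n)).2)]
    exact (hxt (φ n)).le
  linarith

/-- bounds at all times close to the singular time -/
theorem all_times {η : ℝ} (hη : 0 < η) : ∀ᶠ t in 𝓝[<] (1 / 2 : ℝ), t ∈ Ico (3 / 8 : ℝ) (1 / 2) ∧
    xa g t ≤ 155 / 100 * rr (1 / 2) t ∧ ya g t ≤ η * rr (1 / 2) t ∧
    (∀ q ∈ Icc (0:ℝ) 1, a.X 2 t q ≤ 5 * rr (1 / 2) t → a.th 2 t q ≤ η) ∧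
    ∀ q ∈ Icc (0:ℝ) 1, a.th 0 t q ≤ η := by
  have H := hE S
  have hpi := Real.pi_pos
  have s2 := sqrt3_bounds.2
  have z0 : (0:ℝ) ∈ Icc (0:ℝ) 1 := ⟨le_refl _, zero_le_one⟩
  obtain ⟨M, hM, hMt⟩ := width_bound H
  have hMt' : ∀ t ∈ Ico (3 / 8 : ℝ) (1 / 2), xa g t < M * rr (1 / 2) t := fun t ht =>
    hMt t ⟨by linarith [ht.1], ht.2⟩ ⟨by linarith [ht.1], by linarith [ht.2]⟩
  obtain ⟨δ, hδ, t1, ht1, hgw⟩ := good_width S hM hMt'
  have hI : ∀ᶠ t in 𝓝[<] (1 / 2 : ℝ), t ∈ Ico (3 / 8 : ℝ) (1 / 2) := Ico_mem_nhdsLT (by norm_num)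
  -- smallness of the height of the junction
  have hya : ∀ η' > 0, ∀ᶠ t in 𝓝[<] (1 / 2 : ℝ), ya g t ≤ η' * rr (1 / 2) t := by
    intro η' hη'
    filter_upwards [hI, small_ev (C := 1) (s2 := M + 1) hη', rr_small (c := M + 1)
      (by rw [RR]; norm_num : (0:ℝ) < RR)] with t ht hs hR
    have ht4 : t ∈ Ico (1 / 4 : ℝ) (1 / 2) := ⟨by linarith [ht.1], ht.2⟩
    have hr := rr_pos ht.2
    have h1 := arm_small S ht4 (hMt' t ht) (s2 := M + 1) le_rfl hR.le z0 (by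
      rw [(S.junc_eq (H.mem ht4) 2).1]
      have := hMt' t ht
      nlinarith)
    rw [(S.junc_eq (H.mem ht4) 2).2] at h1
    have h2 := h1.2.1
    rw [div_le_iff₀ hr] at h2
    have h3 : Real.exp (Real.log (rr (1 / 2) t) / 5000) * Real.exp ((M + 1) ^ 2) *
      rr (1 / 2) t ≤ η' * rr (1 / 2) t := mul_le_mul_of_nonneg_right (by linarith) hr.le
    exact h2.trans h3
  -- the width
  have hxb : ∀ᶠ t in 𝓝[<] (1 / 2 : ℝ), xb g t ≤ 154 / 100 * rr (1 / 2) t := by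
    -- times after which ya ≤ r / 1000
    obtain ⟨t2, ht2, hy2⟩ : ∃ t2 < (1 / 2 : ℝ), ∀ t ∈ Ioo t2 (1 / 2), ya g t ≤ 1 / 1000 *
        rr (1 / 2) t := by
      have h1 := hya (1 / 1000) (by norm_num)
      obtain ⟨t2, ht2, hsub⟩ := (mem_nhdsLT_iff_exists_Ioo_subset).1 h1
      exact ⟨t2, ht2, fun t ht => hsub ht⟩
    set t3 := max t1 t2 with ht3
    have ht3' : t3 < 1 / 2 := max_lt ht1.2 ht2
    have hev : ∀ᶠ t in 𝓝[<] (1 / 2 : ℝ), (101 / 100 : ℝ) * (1 / 2 - t) < 1 / 2 - t3 := by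
      have h1 : Tendsto (fun t : ℝ => (101 / 100 : ℝ) * (1 / 2 - t)) (𝓝[<] (1 / 2 : ℝ))
          (𝓝 (101 / 100 * (1 / 2 - 1 / 2))) :=
        ((continuous_const.mul (continuous_const.sub continuous_id)).tendsto
          (1 / 2)).mono_left nhdsWithin_le_nhds
      rw [sub_self, mul_zero] at h1
      exact h1.eventually (gt_mem_nhds (by linarith))
    filter_upwards [hI, dense_good S (ε := 1 / 100) (by norm_num) hδ, hev] with t ht hd hev'
    obtain ⟨t', ht', htt', hc, hG⟩ := hd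
    have ht3t : t3 < t' := by linarith
    have h1 : xa g t' ≤ 153 / 100 * rr (1 / 2) t' :=
      hgw t' ⟨(le_max_left _ _).trans ht3t.le, ht'.2⟩ hG.le
    have h2 := hy2 t' ⟨(le_max_right _ _).trans_lt ht3t, ht'.2⟩
    have h3 := (xb_near H.qf (H.mem ht') (H.secAt ht')).1
    have h4 := xb_anti H.qf (fun τ hτ => H.base.sec τ hτ) (H.mem ht').1 htt' ht.2
    have hr' := rr_pos ht'.2
    have hr := rr_pos ht.2
    have h5 := H.qf.ya_pos (H.mem ht') (H.secAt ht')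
    have h6 : √3 / 3 * ya g t' ≤ 0.58 * (1 / 1000 * rr (1 / 2) t') :=
      mul_le_mul (by linarith) h2 h5.le (by norm_num)
    have h7 : rr (1 / 2) t' ≤ 1005 / 1000 * rr (1 / 2) t := by
      by_contra hcon
      push Not at hcon
      have h8 : (1005 / 1000 * rr (1 / 2) t) ^ 2 < rr (1 / 2) t' ^ 2 :=
        pow_lt_pow_left₀ hcon (by positivity) two_ne_zero
      rw [mul_pow, rr_sq ht.2.le, rr_sq ht'.2.le] at h8
      nlinarith [ht.2]
    nlinarith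
  filter_upwards [hI, hxb, hya (1 / 1000) (by norm_num), hya η hη,
    small_ev (C := KQ * (12 * 2 / π)) (s2 := 5) hη, rr_small (c := 5)
      (by rw [RR]; norm_num : (0:ℝ) < RR)] with t ht hxb hy1 hy2 hsm hR
  have ht4 : t ∈ Ico (1 / 4 : ℝ) (1 / 2) := ⟨by linarith [ht.1], ht.2⟩
  have hr := rr_pos ht.2
  have h3 := (xb_near H.qf (H.mem ht4) (H.secAt ht4)).2
  have h5 := H.qf.ya_pos (H.mem ht4) (H.secAt ht4)
  have h6 : √3 / 3 * ya g t ≤ 0.58 * (1 / 1000 * rr (1 / 2) t) :=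
    mul_le_mul (by linarith) hy1 h5.le (by norm_num)
  have hxa : xa g t ≤ 155 / 100 * rr (1 / 2) t := by nlinarith
  have hxa2 : xa g t < 2 * rr (1 / 2) t := by nlinarith
  have harm : ∀ q ∈ Icc (0:ℝ) 1, a.X 2 t q ≤ 5 * rr (1 / 2) t → a.th 2 t q ≤ η := by
    intro q hq hX
    have h1 := arm_small S ht4 hxa2 (s2 := 5) (by norm_num) hR.le hq hX
    exact h1.2.2.2.trans hsm.le
  refine ⟨ht, hxa, hy2, harm, fun q hq => ?_⟩
  have hW := H.hW t ht4 0 q hq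
  rw [S.th_eq 0 (H.mem ht4) hq] at hW
  refine hW.trans ?_
  have h1 := arm_small S ht4 hxa2 (s2 := 5) (by norm_num) hR.le z0 (by
    rw [(S.junc_eq (H.mem ht4) 2).1]; nlinarith)
  rw [(S.junc_eq (H.mem ht4) 2).2] at h1
  have hyM := H.yM_lower ht4 hxa2
  have hyMpos := H.qf.yM_pos (H.mem ht4) (H.secAt ht4)
  have hK := H.Kpos
  have hy0 : (g 0 t q).im ≤ ya g t := by
    have := H.qf.y0_anti (H.mem ht4) (H.secAt ht4) z0 hq hq.1
    rwa [H.qf.im_zero (H.mem ht4)] at this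
  have a3 : 1 / yM g t ≤ 12 * 2 / π / rr (1 / 2) t := by
    rw [div_div, div_le_div_iff₀ hyMpos (by positivity)]
    nlinarith
  have h7 := h1.2.1
  have hk2 : a.Y 0 t 0 = ya g t := by
    rw [← (S.C.re_eq S.A 0 (H.mem ht4) z0).2]; rfl
  calc KQ / yM g t * (g 0 t q).im ≤ KQ / yM g t * ya g t :=
        mul_le_mul_of_nonneg_left hy0 (by positivity)
    _ = KQ * ya g t * (1 / yM g t) := by ring
    _ ≤ KQ * ya g t * (12 * 2 / π / rr (1 / 2) t) :=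
        mul_le_mul_of_nonneg_left a3 (mul_nonneg hK.le h5.le)
    _ = KQ * (12 * 2 / π) * (ya g t / rr (1 / 2) t) := by ring
    _ ≤ KQ * (12 * 2 / π) * (Real.exp (Real.log (rr (1 / 2) t) / 5000) * Real.exp (5 ^ 2)) := by
        apply mul_le_mul_of_nonneg_left h7 (by positivity)
    _ ≤ η := hsm.le

end

end Run7.h661u
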