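import Pool.Agent.Run7.h661.U.Grow

/-!
# Cut-off functions and the effect of a curvature bound
-/

open Set Filter Topology MeasureTheory
open scoped Real ContDiff

namespace Run7.h661u

open Run7.h661y (cang cang0 cang1 cang2 QF HypE SecAt xa ya yM rr rr_pos rr_sq tendsto_rr Jq
  mono_of_deriv hasDerivAt_rr sqrt3_bounds polar0 polar2 zero_mem_I one_mem_I rr_anti FF Test
  func_deriv dt dp thp int_mono int_le_primitive primitive_le_int int_ftc mul_cos_le_sin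
  sin_nonneg3 cos_ge_half sin_ge_half_sqrt hasDerivAt_th_p)

/-- the cut-off function: `1` for `x ≤ x0`, `0` for `x ≥ 2 x0` -/
noncomputable def Cv (x0 x : ℝ) : ℝ := max ((x - x0) / x0) 0
noncomputable def Cu (x0 x : ℝ) : ℝ := max (1 - Cv x0 x ^ 3) 0
noncomputable def Cf (x0 x : ℝ) : ℝ := Cu x0 x ^ 3
noncomputable def Cx (x0 x : ℝ) : ℝ := 3 * Cu x0 x ^ 2 * (-(3 * Cv x0 x ^ 2 * (1 / x0)))
noncomputable def Cxx (x0 x : ℝ) : ℝ :=
  3 * (2 * Cu x0 x * (-(3 * Cv x0 x ^ 2 * (1 / x0)))) * (-(3 * Cv x0 x ^ 2 * (1 / x0))) +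
    3 * Cu x0 x ^ 2 * (-(3 * (2 * Cv x0 x * (1 / x0)) * (1 / x0)))

lemma Cv3_deriv (x0 x : ℝ) : HasDerivAt (fun x => Cv x0 x ^ 3) (3 * Cv x0 x ^ 2 * (1 / x0)) x := by
  have h1 : HasDerivAt (fun x : ℝ => (x - x0) / x0) (1 / x0) x :=
    ((hasDerivAt_id' x).sub_const x0).div_const x0
  refine ((hasDerivAt_mpow 1 ((x - x0) / x0)).comp x h1).congr_deriv ?_
  simp only [Cv]; push_cast; ring

lemma Cv2_deriv (x0 x : ℝ) : HasDerivAt (fun x => Cv x0 x ^ 2) (2 * Cv x0 x * (1 / x0)) x := by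
  have h1 : HasDerivAt (fun x : ℝ => (x - x0) / x0) (1 / x0) x :=
    ((hasDerivAt_id' x).sub_const x0).div_const x0
  refine ((hasDerivAt_mpow 0 ((x - x0) / x0)).comp x h1).congr_deriv ?_
  simp only [Cv]; push_cast; ring

lemma Cf_deriv (x0 x : ℝ) : HasDerivAt (Cf x0) (Cx x0 x) x := by
  refine ((hasDerivAt_mpow 1 (1 - Cv x0 x ^ 3)).comp x ((Cv3_deriv x0 x).const_sub 1)).congr_deriv ?_
  simp only [Cx, Cu]; push_cast; ring

lemma Cu2_deriv (x0 x : ℝ) : HasDerivAt (fun x => Cu x0 x ^ 2)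
    (2 * Cu x0 x * (-(3 * Cv x0 x ^ 2 * (1 / x0)))) x := by
  refine ((hasDerivAt_mpow 0 (1 - Cv x0 x ^ 3)).comp x ((Cv3_deriv x0 x).const_sub 1)).congr_deriv ?_
  simp only [Cu]; push_cast; ring

lemma Cx_deriv (x0 x : ℝ) : HasDerivAt (Cx x0) (Cxx x0 x) x := by
  have h1 := ((Cu2_deriv x0 x).const_mul 3).mul
    ((((Cv2_deriv x0 x).const_mul 3).mul_const (1 / x0)).neg)
  exact h1

lemma Cv_cont (x0 : ℝ) : Continuous (Cv x0) := by unfold Cv; fun_prop
lemma Cu_cont (x0 : ℝ) : Continuous (Cu x0) := by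
  have := Cv_cont x0
  unfold Cu; fun_prop

lemma test_cut (T x0 : ℝ) : Test T (fun _ => Cf x0) (fun _ _ => 0) (fun _ => Cx x0)
    (fun _ => Cxx x0) := by
  have h1 := Cv_cont x0
  have h2 := Cu_cont x0
  have e : ∀ {f : ℝ → ℝ}, Continuous f → ContinuousOn (fun q : ℝ × ℝ => f q.2)
      (Ioo 0 T ×ˢ univ) := fun hf => (hf.comp continuous_snd).continuousOn
  refine ⟨e (f := Cf x0) (by unfold Cf; fun_prop), continuousOn_const,
    e (f := Cx x0) (by unfold Cx; fun_prop), e (f := Cxx x0) (by unfold Cxx; fun_prop), ?_, ?_, ?_⟩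
  · intro t ht x x' hx
    exact ((Cf_deriv x0 (x t)).comp t hx).congr_deriv (by ring)
  · exact fun t ht x => Cf_deriv x0 x
  · exact fun t ht x => Cx_deriv x0 x

lemma cut_left {x0 x : ℝ} (h0 : 0 < x0) (hx : x ≤ x0) : Cf x0 x = 1 ∧ Cx x0 x = 0 ∧ Cxx x0 x = 0 := by
  have h1 : Cv x0 x = 0 := max_eq_right (div_nonpos_of_nonpos_of_nonneg (by linarith) h0.le)
  have h2 : Cu x0 x = 1 := by rw [Cu, h1]; norm_num
  refine ⟨?_, ?_, ?_⟩
  · rw [Cf, h2]; norm_num
  · rw [Cx, h1, h2]; ring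
  · rw [Cxx, h1, h2]; ring

lemma cut_right {x0 x : ℝ} (h0 : 0 < x0) (hx : 2 * x0 ≤ x) : Cf x0 x = 0 ∧ Cx x0 x = 0 := by
  have h1 : 1 ≤ Cv x0 x := by
    refine le_trans ?_ (le_max_left _ _)
    rw [le_div_iff₀ h0]; linarith
  have h2 : Cu x0 x = 0 := by
    rw [Cu]
    apply max_eq_right
    have := one_le_pow₀ h1 (n := 3)
    linarith
  refine ⟨?_, ?_⟩
  · rw [Cf, h2]; norm_num
  · rw [Cx, h2]; ring

lemma Cv_nonneg (x0 x : ℝ) : 0 ≤ Cv x0 x := le_max_right _ _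
lemma Cu_nonneg (x0 x : ℝ) : 0 ≤ Cu x0 x := le_max_right _ _
lemma Cu_le (x0 x : ℝ) : Cu x0 x ≤ 1 := by
  rw [Cu]
  apply max_le _ zero_le_one
  have := pow_nonneg (Cv_nonneg x0 x) 3
  linarith

lemma Cf_mem (x0 x : ℝ) : 0 ≤ Cf x0 x ∧ Cf x0 x ≤ 1 :=
  ⟨pow_nonneg (Cu_nonneg x0 x) 3, pow_le_one₀ (Cu_nonneg x0 x) (Cu_le x0 x)⟩

lemma Cx_nonpos {x0 : ℝ} (h0 : 0 < x0) (x : ℝ) : Cx x0 x ≤ 0 := by
  have h1 := Cv_nonneg x0 x
  have h2 := Cu_nonneg x0 x
  have : 0 ≤ 3 * Cu x0 x ^ 2 * (3 * Cv x0 x ^ 2 * (1 / x0)) := by positivity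
  rw [Cx]; linarith

section
variable {T R h : ℝ} {g : Fin 3 → ℝ → ℝ → ℂ}

/-- the arm is not steep -/
lemma y2_le (H : QF T R h g) {t : ℝ} (ht : t ∈ Ioo 0 T) (hs : SecAt g t) {p : ℝ}
    (hp : p ∈ Icc (0:ℝ) 1) : (g 2 t p).im ≤ ya g t + √3 * ((g 2 t p).re - xa g t) := by
  have := mono_of_deriv (f := fun q => √3 * (g 2 t q).re - (g 2 t q).im)
    (f' := fun q => √3 * (dp (g 2) t q).re - (dp (g 2) t q).im)
    (a := 0) (b := 1) (fun p _ => ((H.dre ht 2 p).const_mul _).sub (H.dim ht 2 p))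
    (fun q hq => by
      obtain ⟨p1, p2⟩ := polar2 (g := g) t q
      have hth := H.th_mem ht hs 2 hq
      have hv := H.norm_pos ht 2 hq
      have hc := cos_ge_half hth.1 hth.2
      have hsn := Run7.h661y.sin_le_half_sqrt hth.1 hth.2
      rw [p1, p2]
      have : 0 ≤ √3 * Real.cos (Run7.h661y.th (cang 2) (g 2) t q) -
          Real.sin (Run7.h661y.th (cang 2) (g 2) t q) := by
        have : √3 * (1 / 2) ≤ √3 * Real.cos (Run7.h661y.th (cang 2) (g 2) t q) :=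
          mul_le_mul_of_nonneg_left hc (Real.sqrt_nonneg 3)
        linarith
      have := mul_nonneg hv.le this
      linarith) zero_mem_I hp hp.1
  simp only [H.re_zero ht, H.im_zero ht] at this
  linarith

/-- the speed of the arm is controlled by the abscissa -/
lemma norm_le2 (H : QF T R h g) {t : ℝ} (ht : t ∈ Ioo 0 T) (hs : SecAt g t) {p : ℝ}
    (hp : p ∈ Icc (0:ℝ) 1) : ‖dp (g 2) t p‖ ≤ 2 * (dp (g 2) t p).re := by
  have hth := H.th_mem ht hs 2 hp
  have hv := H.norm_pos ht 2 hp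
  have hc := cos_ge_half hth.1 hth.2
  rw [(polar2 (g := g) t p).1]
  have := mul_le_mul_of_nonneg_left hc hv.le
  linarith

/-- the hypothesis: curvature bound near the origin -/
def CB (g : Fin 3 → ℝ → ℝ → ℂ) (K δ t : ℝ) : Prop :=
  ∀ p ∈ Icc (0:ℝ) 1, ‖g 2 t p‖ < δ → |thp (g 2) t p| ≤ K * ‖dp (g 2) t p‖

lemma CB.le (H : QF T R h g) {t : ℝ} (ht : t ∈ Ioo 0 T) (hs : SecAt g t) {K δ x0 : ℝ}
    (hK : 0 ≤ K) (hcb : CB g K δ t) (hx0 : 0 < x0) (hy : ya g t ≤ x0) (hxa : 0 ≤ xa g t)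
    (hδ : 7 * x0 < δ) {p : ℝ} (hp : p ∈ Icc (0:ℝ) 1) (hx : (g 2 t p).re ≤ 2 * x0) :
    |thp (g 2) t p| ≤ 2 * K * (dp (g 2) t p).re := by
  have h2 := norm_le2 H ht hs hp
  have h3 := y2_le H ht hs hp
  have s2 := sqrt3_bounds.2
  have hxp := (H.x2_strict ht hs).monotoneOn zero_mem_I hp hp.1
  simp only [H.re_zero ht] at hxp
  have hyp := H.y2_mono ht hs zero_mem_I hp hp.1
  rw [H.im_zero ht] at hyp
  have hya := H.ya_pos ht hs
  have hn : ‖g 2 t p‖ < δ := by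
    refine (Complex.norm_le_abs_re_add_abs_im _).trans_lt ?_
    rw [abs_of_nonneg (hxa.trans hxp), abs_of_nonneg (hya.le.trans hyp)]
    have : √3 * ((g 2 t p).re - xa g t) ≤ 1.73206 * (2 * x0) :=
      mul_le_mul s2.le (by linarith) (by linarith) (by norm_num)
    linarith
  have h1 := hcb p hp hn
  have := mul_le_mul_of_nonneg_left h2 hK
  linarith

/-- the angle is small where the curvature is bounded -/
lemma CB.ang (H : QF T R h g) {t : ℝ} (ht : t ∈ Ioo 0 T) (hs : SecAt g t) {K δ x0 : ℝ}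
    (hK : 0 ≤ K) (hcb : CB g K δ t) (hx0 : 0 < x0) (hy : ya g t ≤ x0) (hxa : 0 ≤ xa g t)
    (hδ : 7 * x0 < δ) {p : ℝ} (hp : p ∈ Icc (0:ℝ) 1) (hx : (g 2 t p).re ≤ 2 * x0) :
    ta g 2 t p ≤ ta g 2 t 0 + 4 * K * x0 := by
  have hpos := SecAt.posAt H ht hs
  have hsub : ∀ q ∈ Icc (0:ℝ) p, q ∈ Icc (0:ℝ) 1 := fun q hq => ⟨hq.1, hq.2.trans hp.2⟩
  have := mono_of_deriv (f := fun q => 2 * K * (g 2 t q).re - ta g 2 t q)
    (f' := fun q => 2 * K * (dp (g 2) t q).re - thp (g 2) t q)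
    (a := 0) (b := p) (fun q hq => ((H.dre ht 2 q).const_mul _).sub
      (hasDerivAt_th_p (H.edge 2).sm ht (hpos 2 q (hsub q hq))))
    (fun q hq => by
      have hxq : (g 2 t q).re ≤ 2 * x0 := by
        have := (H.x2_strict ht hs).monotoneOn (hsub q hq) hp hq.2
        exact this.trans hx
      have h1 := CB.le H ht hs hK hcb hx0 hy hxa hδ (hsub q hq) hxq
      have := (abs_le.1 h1).2
      linarith) ⟨le_refl _, hp.1⟩ ⟨hp.1, le_refl _⟩ hp.1
  simp only [H.re_zero ht] at this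
  have h2 : 2 * K * (g 2 t p).re ≤ 2 * K * (2 * x0) := mul_le_mul_of_nonneg_left hx (by positivity)
  have h3 : 0 ≤ 2 * K * xa g t := by positivity
  linarith

/-- the time derivative of the cut-off functional -/
lemma cut_deriv (H : QF T R h g) {t : ℝ} (ht : t ∈ Ioo 0 T) (hs : SecAt g t) {K δ x0 : ℝ}
    (hK : 0 ≤ K) (hcb : CB g K δ t) (hx0 : 0 < x0) (hy : ya g t ≤ x0) (hxa : 0 ≤ xa g t)
    (hδ : 7 * x0 < δ) (hxs : ∀ p ∈ Icc (0:ℝ) 1, (g 0 t p).re ≤ x0) (hR : 2 * x0 ≤ R) :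
    ∃ N', HasDerivAt (PF (fun _ => Cf x0) g) N' t ∧ -(2 * K) ≤ N' := by
  refine ⟨_, path_deriv H ht hs (test_cut T x0), ?_⟩
  have hpos := SecAt.posAt H ht hs
  have hxa0 : xa g t ≤ x0 := by
    have := hxs 0 zero_mem_I
    rwa [H.re_zero ht] at this
  have e0 : ∫ p in (0:ℝ)..1, AI (fun _ _ => 0) (fun _ => Cxx x0) g 0 t p = 0 := by
    have : ∀ p ∈ Icc (0:ℝ) 1, AI (fun _ _ => 0) (fun _ => Cxx x0) g 0 t p = (fun _ => (0:ℝ)) p := by
      intro p hp
      simp only [AI, (cut_left hx0 (hxs p hp)).2.2]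
      ring
    rw [intervalIntegral.integral_congr (by rw [uIcc_of_le zero_le_one]; exact this)]
    simp
  have cthp : ContinuousOn (thp (g 2) t) (Icc 0 1) := fun p hp =>
    (Run7.h661y.hasDerivAt_thp (H.edge 2).sm ht ((H.edge 2).reg t ht p hp)).continuousAt.continuousWithinAt
  have cx := H.cx ht 2
  have cr := H.cZr ht 2
  have ct := H.cth ht hs 2
  have c1 := Cv_cont x0
  have c2 := Cu_cont x0
  have cCx : Continuous (Cx x0) := by unfold Cx; fun_prop
  have cCxx : Continuous (Cxx x0) := by unfold Cxx; fun_prop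
  have hdG : ∀ p ∈ Icc (0:ℝ) 1, HasDerivAt (fun p => Cx x0 (g 2 t p).re * ta g 2 t p +
      2 * K * Cf x0 (g 2 t p).re)
      ((Cxx x0 (g 2 t p).re * (dp (g 2) t p).re) * ta g 2 t p + Cx x0 (g 2 t p).re * thp (g 2) t p +
        2 * K * (Cx x0 (g 2 t p).re * (dp (g 2) t p).re)) p := by
    intro p hp
    have d1 := (Cx_deriv x0 (g 2 t p).re).comp p (H.dre ht 2 p)
    have d2 := (Cf_deriv x0 (g 2 t p).re).comp p (H.dre ht 2 p)
    have d3 := hasDerivAt_th_p (c := cang 2) (H.edge 2).sm ht (hpos 2 p hp)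
    exact (d1.mul d3).add (d2.const_mul (2 * K))
  have k2 := primitive_le_int (f := AI (fun _ _ => 0) (fun _ => Cxx x0) g 2 t)
    (F' := fun p => (Cxx x0 (g 2 t p).re * (dp (g 2) t p).re) * ta g 2 t p +
      Cx x0 (g 2 t p).re * thp (g 2) t p +
        2 * K * (Cx x0 (g 2 t p).re * (dp (g 2) t p).re)) zero_le_one
    (AI_cont H ht hs (test_cut T x0) 2).1
    ((((cCxx.comp cx).mul cr).continuousOn.mul ct).add ((cCx.comp cx).continuousOn.mul cthp) |>.add
      (continuousOn_const.mul ((cCx.comp cx).mul cr).continuousOn)) hdG (fun p hp => by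
      have hneg := Cx_nonpos hx0 (g 2 t p).re
      have key : Cx x0 (g 2 t p).re * thp (g 2) t p +
          2 * K * (Cx x0 (g 2 t p).re * (dp (g 2) t p).re) ≤ 0 := by
        rcases le_or_gt (g 2 t p).re (2 * x0) with hx | hx
        · have h1 := CB.le H ht hs hK hcb hx0 hy hxa hδ hp hx
          have h2 := (abs_le.1 h1).1
          have h3 : 0 ≤ thp (g 2) t p + 2 * K * (dp (g 2) t p).re := by linarith
          have := mul_nonpos_of_nonpos_of_nonneg hneg h3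
          linarith
        · rw [(cut_right hx0 hx.le).2]; simp
      have e1 : AI (fun _ _ => 0) (fun _ => Cxx x0) g 2 t p =
          Cxx x0 (g 2 t p).re * (dp (g 2) t p).re * ta g 2 t p := by
        simp only [AI]; ring
      rw [e1]
      linarith)
  have hPre : (g 2 t 1).re = R := by rw [H.pEnd t ht]; simp
  simp only [H.re_zero ht, hPre, (cut_left hx0 hxa0).1, (cut_left hx0 hxa0).2.1,
    (cut_right hx0 hR).1, (cut_right hx0 hR).2] at k2
  rw [e0, (cut_right hx0 hR).2]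
  linarith

/-- bound of the cut-off functional -/
lemma cut_le (H : QF T R h g) {t : ℝ} (ht : t ∈ Ioo 0 T) (hs : SecAt g t) {K δ x0 : ℝ}
    (hK : 0 ≤ K) (hcb : CB g K δ t) (hx0 : 0 < x0) (hy : ya g t ≤ x0) (hxa : 0 ≤ xa g t)
    (hδ : 7 * x0 < δ) :
    PF (fun _ => Cf x0) g t ≤ ya g t + 16 * x0 * (ta g 2 t 0 + 4 * K * x0) := by
  have hpos := SecAt.posAt H ht hs
  obtain ⟨-, cB2⟩ := AI_cont H ht hs (test_cut T x0) 2
  obtain ⟨-, cB0⟩ := AI_cont H ht hs (test_cut T x0) 0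
  have cx := H.cx ht 2
  have cr := H.cZr ht 2
  have hxp : ∀ p ∈ Icc (0:ℝ) 1, 0 ≤ (g 2 t p).re := by
    intro p hp
    have := (H.x2_strict ht hs).monotoneOn zero_mem_I hp hp.1
    simp only [H.re_zero ht] at this
    linarith
  have hth0 := (H.th_mem ht hs 2 zero_mem_I).1
  set B := ta g 2 t 0 + 4 * K * x0 with hB
  have hB0 : 0 ≤ B := add_nonneg hth0 (by positivity)
  have a0 : -(∫ p in (0:ℝ)..1, Cf x0 (g 0 t p).re * (dp (g 0) t p).im) ≤ ya g t := by
    have h1 := int_mono zero_le_one (H.cZi ht 0).continuousOn cB0 (fun p hp => by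
      have h2 := (Cf_mem x0 (g 0 t p).re).2
      have h3 := H.dp0_im_neg ht hs hp
      nlinarith)
    have e : ∫ p in (0:ℝ)..1, (dp (g 0) t p).im = (g 0 t 1).im - (g 0 t 0).im :=
      int_ftc zero_le_one (H.cZi ht 0).continuousOn (fun p _ => H.dim ht 0 p)
    rw [e, H.bIm t ht, H.im_zero ht] at h1
    linarith
  have a2 := int_le_primitive (f := fun p => Cf x0 (g 2 t p).re * (dp (g 2) t p).im)
    (F := fun p => 2 * B * (-(16 * x0 ^ 2 / ((g 2 t p).re + 2 * x0))))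
    (F' := fun p => 2 * B * (16 * x0 ^ 2 * (dp (g 2) t p).re / ((g 2 t p).re + 2 * x0) ^ 2))
    zero_le_one cB2 (by
      refine continuousOn_const.mul (((continuous_const.mul cr).continuousOn).div
        ((cx.add continuous_const).pow 2).continuousOn (fun p hp => ?_))
      have := hxp p hp
      positivity) (fun p hp => by
      have hx := hxp p hp
      have d1 := ((H.dre ht 2 p).add_const (2 * x0))
      have d2 := ((hasDerivAt_const p (16 * x0 ^ 2)).div d1 (by positivity)).neg.const_mul (2 * B)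
      refine d2.congr_deriv ?_
      field_simp
      ring) (fun p hp => by
      have hx := hxp p hp
      have hre := H.dp2_re_pos ht hs hp
      rcases le_or_gt (g 2 t p).re (2 * x0) with hx2 | hx2
      · have h1 := CB.ang H ht hs hK hcb hx0 hy hxa hδ hp hx2
        have hth := H.th_mem ht hs 2 hp
        have hv := H.norm_pos ht 2 hp
        have h2 := norm_le2 H ht hs hp
        have h3 : (dp (g 2) t p).im ≤ 2 * B * (dp (g 2) t p).re := by
          rw [(polar2 (g := g) t p).2]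
          have h4 := Real.sin_le hth.1
          calc ‖dp (g 2) t p‖ * Real.sin (Run7.h661y.th (cang 2) (g 2) t p)
              ≤ ‖dp (g 2) t p‖ * B := mul_le_mul_of_nonneg_left (h4.trans h1) hv.le
            _ ≤ 2 * (dp (g 2) t p).re * B := mul_le_mul_of_nonneg_right h2 hB0
            _ = _ := by ring
        have h5 : Cf x0 (g 2 t p).re * (dp (g 2) t p).im ≤ 2 * B * (dp (g 2) t p).re := by
          have h6 := Cf_mem x0 (g 2 t p).re
          have h7 := H.dp2_im_nonneg ht hs hp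
          calc _ ≤ 1 * (dp (g 2) t p).im := mul_le_mul_of_nonneg_right h6.2 h7
            _ ≤ _ := by linarith
        refine h5.trans ?_
        have h8 : (dp (g 2) t p).re ≤ 16 * x0 ^ 2 * (dp (g 2) t p).re /
            ((g 2 t p).re + 2 * x0) ^ 2 := by
          rw [le_div_iff₀ (by positivity)]
          have h9 : ((g 2 t p).re + 2 * x0) ^ 2 ≤ (4 * x0) ^ 2 :=
            pow_le_pow_left₀ (by positivity) (by linarith) 2
          nlinarith
        exact mul_le_mul_of_nonneg_left h8 (by positivity)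
      · rw [(cut_right hx0 hx2.le).1, zero_mul]
        positivity)
  have hPre : (g 2 t 1).re = R := by rw [H.pEnd t ht]; simp
  have hR0 := hxp 1 one_mem_I
  rw [hPre] at hR0
  simp only [hPre, H.re_zero ht] at a2
  have e1 : 16 * x0 ^ 2 / (xa g t + 2 * x0) ≤ 8 * x0 := by
    rw [div_le_iff₀ (by positivity)]
    nlinarith
  have e2 : 0 ≤ 16 * x0 ^ 2 / (R + 2 * x0) := by positivity
  have e3 : 2 * B * (16 * x0 ^ 2 / (xa g t + 2 * x0)) ≤ 2 * B * (8 * x0) :=
    mul_le_mul_of_nonneg_left e1 (by positivity)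
  have e4 : 0 ≤ 2 * B * (16 * x0 ^ 2 / (R + 2 * x0)) := by positivity
  rw [PF, FF, FF]
  linarith

end

end Run7.h661u
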