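import Pool.Agent.Run7.h661.Z.Defs

/-!
# Regions of a network
-/

open Set Filter Topology

namespace Run7.h661u

open Run7.h661z

/-- `U` is a region of the network with the curves `σ i`: a bounded connected component of the
complement of the network. -/
def IsRegion {ι : Type*} (σ : ι → ℝ → ℂ) (U : Set ℂ) : Prop :=
  Bornology.IsBounded U ∧ ∃ z ∈ (⋃ i, σ i '' Icc 0 1)ᶜ,
    U = connectedComponentIn (⋃ i, σ i '' Icc 0 1)ᶜ z

/-- the length of a curve parametrised by `[0,1]` -/
noncomputable def len (c : ℝ → ℂ) : ℝ := ∫ p in (0:ℝ)..1, ‖D1 c p‖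

/-- The region `U t` of the network with the curves `γ i t`, bounded by the curves `γ i t` with
`i ∈ B`, collapses to the point `z` at the time `T`: its area tends to `0`, it is eventually
contained in every disc around `z`, and the curves bounding it lose their length. -/
structure Collapses {ι : Type*} (T : ℝ) (γ : ι → ℝ → ℝ → ℂ) (U : ℝ → Set ℂ) (B : Set ι) (z : ℂ) :
    Prop where
  region : ∀ t ∈ Ico 0 T, IsRegion (fun i => γ i t) (U t)
  boundary : ∀ t ∈ Ico 0 T, frontier (U t) = ⋃ i ∈ B, γ i t '' Icc 0 1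
  area : Tendsto (fun t => MeasureTheory.volume (U t)) (𝓝[<] T) (𝓝 0)
  point : ∀ ε > 0, ∀ᶠ t in 𝓝[<] T, U t ⊆ Metric.ball z ε
  length : ∀ i ∈ B, Tendsto (fun t => len (γ i t)) (𝓝[<] T) (𝓝 0)

end Run7.h661u
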