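import Pool.Agent.Run7.h661.U.Wt
import Pool.Agent.Run7.h661.U.AllT

/-!
# A lower bound for the height of the arm
-/

open Set Filter Topology MeasureTheory
open scoped Real ContDiff

namespace Run7.h661u

open Run7.h661x Run7.h661v
open Run7.h661y (cang cang0 cang1 cang2 QF HypE SecAt xa ya yM rr rr_pos rr_sq tendsto_rr Jq
  mono_of_deriv hasDerivAt_rr sqrt3_bounds polar0 polar2 zero_mem_I one_mem_I rr_anti FF Test
  func_deriv dt dp thp int_mono int_le_primitive primitive_le_int mul_cos_le_sin sin_nonneg3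
  cos_ge_half sin_ge_half_sqrt)

/-- integral of `Φ(t,x) dy` from the end of the bar along the short edge and the arm -/
noncomputable def PF (Φ : ℝ → ℝ → ℝ) (g : Fin 3 → ℝ → ℝ → ℂ) (t : ℝ) : ℝ :=
  FF Φ g 2 t - FF Φ g 0 t


/-- tangent angle -/
noncomputable abbrev ta (g : Fin 3 → ℝ → ℝ → ℂ) (i : Fin 3) (t p : ℝ) : ℝ :=
  Run7.h661y.th (cang i) (g i) t p

/-- integrand of the derivative of a functional -/
noncomputable def AI (Φt Φxx : ℝ → ℝ → ℝ) (g : Fin 3 → ℝ → ℝ → ℂ) (i : Fin 3) (t p : ℝ) : ℝ :=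
  Φt t (g i t p).re * (dp (g i) t p).im + Φxx t (g i t p).re * (ta g i t p * (dp (g i) t p).re)

section
variable {T R h : ℝ} {g : Fin 3 → ℝ → ℝ → ℂ}

lemma path_deriv (H : QF T R h g) {t : ℝ} (ht : t ∈ Ioo 0 T) (hs : SecAt g t)
    {Φ Φt Φx Φxx : ℝ → ℝ → ℝ} (hΦ : Test T Φ Φt Φx Φxx) :
    HasDerivAt (PF Φ g) (-(Φx t R * ta g 2 t 1) + (∫ p in (0:ℝ)..1, AI Φt Φxx g 2 t p) -
      ∫ p in (0:ℝ)..1, AI Φt Φxx g 0 t p) t := by
  have hpos := SecAt.posAt H ht hs
  have h2 := func_deriv (H.edge 2) ht (hpos 2) hΦ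
  have h0 := func_deriv (H.edge 0) ht (hpos 0) hΦ
  refine (h2.sub h0).congr_deriv ?_
  have hPre : (g 2 t 1).re = R := by rw [H.pEnd t ht]; simp
  simp only [H.th_b ht hpos, H.dt0_im ht, H.re_zero ht 2, hPre, H.vel_P ht,
    H.re_zero ht 0, H.vel_junc ht 2 0, H.th_junc ht hpos 2 0, mul_zero, Complex.zero_im,
    zero_sub, sub_zero, AI, ta]
  ring

lemma AI_cont (H : QF T R h g) {t : ℝ} (ht : t ∈ Ioo 0 T) (hs : SecAt g t)
    {Φ Φt Φx Φxx : ℝ → ℝ → ℝ} (hΦ : Test T Φ Φt Φx Φxx) (i : Fin 3) :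
    ContinuousOn (AI Φt Φxx g i t) (Icc 0 1) ∧
    ContinuousOn (fun p => Φ t (g i t p).re * (dp (g i) t p).im) (Icc 0 1) := by
  obtain ⟨c1, c2, c3, c4⟩ := hΦ.cslice ht
  have cx := H.cx ht i
  have cy := H.cZi ht i
  have cr := H.cZr ht i
  have ct := H.cth ht hs i
  constructor
  · exact ((c2.comp cx).mul cy).continuousOn.add ((c4.comp cx).continuousOn.mul
      (ct.mul cr.continuousOn))
  · exact ((c1.comp cx).mul cy).continuousOn

/-- comparison of functionals -/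
lemma PF_mono (H : QF T R h g) {t : ℝ} (ht : t ∈ Ioo 0 T) (hs : SecAt g t)
    {Φ Φt Φx Φxx Ψ Ψt Ψx Ψxx : ℝ → ℝ → ℝ} (hΦ : Test T Φ Φt Φx Φxx) (hΨ : Test T Ψ Ψt Ψx Ψxx)
    (h2 : ∀ p ∈ Icc (0:ℝ) 1, Φ t (g 2 t p).re ≤ Ψ t (g 2 t p).re)
    (h0 : ∀ p ∈ Icc (0:ℝ) 1, Φ t (g 0 t p).re ≤ Ψ t (g 0 t p).re) :
    PF Φ g t ≤ PF Ψ g t := by
  have a2 := int_mono zero_le_one (AI_cont H ht hs hΦ 2).2 (AI_cont H ht hs hΨ 2).2 (fun p hp =>
    mul_le_mul_of_nonneg_right (h2 p hp) (H.dp2_im_nonneg ht hs hp))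
  have a0 := int_mono zero_le_one (AI_cont H ht hs hΨ 0).2 (AI_cont H ht hs hΦ 0).2 (fun p hp => by
    have h3 := mul_le_mul_of_nonneg_right (h0 p hp) (by
      have := H.dp0_im_neg ht hs hp; linarith : 0 ≤ -(dp (g 0) t p).im)
    linarith)
  rw [PF, PF, FF, FF, FF, FF]
  linarith

/-- the differential inequality -/
theorem grow_ineq (H : QF T R h g) {t : ℝ} (ht : t ∈ Ioo 0 T) (hs : SecAt g t)
    (hR : 5 * rr T t ≤ R)
    (hx0 : ∀ p ∈ Icc (0:ℝ) 1, 0 ≤ (g 0 t p).re ∧ (g 0 t p).re ≤ 156 / 100 * rr T t)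
    (hx2 : ∀ p ∈ Icc (0:ℝ) 1, 0 ≤ (g 2 t p).re)
    (ht2 : ∀ p ∈ Icc (0:ℝ) 1, (g 2 t p).re ≤ 5 * rr T t → ta g 2 t p ≤ 1 / 100)
    (ht0 : ∀ p ∈ Icc (0:ℝ) 1, ta g 0 t p ≤ 1 / 100) :
    ∃ N', HasDerivAt (PF (Wt T) g) N' t ∧
      0 ≤ N' + 99 / 100 / (T - t) * PF (Wt T) g t := by
  have hT : 0 < T - t := by linarith [ht.2]
  have hr := rr_pos ht.2
  have hr2 := rr_sq ht.2.le
  refine ⟨_, path_deriv H ht hs (test_wt T), ?_⟩
  obtain ⟨cA2, cB2⟩ := AI_cont H ht hs (test_wt T) 2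
  obtain ⟨cA0, cB0⟩ := AI_cont H ht hs (test_wt T) 0
  set c := 99 / 100 / (T - t) with hc
  -- the arm
  have k2 : 0 ≤ ∫ p in (0:ℝ)..1, (AI (Wtt T) (Wtxx T) g 2 t p +
      c * (Wt T t (g 2 t p).re * (dp (g 2) t p).im)) := by
    apply intervalIntegral.integral_nonneg zero_le_one
    intro p hp
    obtain ⟨p1, p2⟩ := polar2 (g := g) t p
    have hv := H.norm_pos ht 2 hp
    have hth := H.th_mem ht hs 2 hp
    set x := (g 2 t p).re with hx
    set ϑ := Run7.h661y.th (cang 2) (g 2) t p with hϑ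
    set q := qz T t x with hq
    have hz : x ^ 2 / (2 * (T - t)) = 45 / 2 - q := by rw [hq, qz]; ring
    rcases le_or_gt q 0 with hq0 | hq0
    · simp only [AI, Wtt, Wtxx, Wt, ← hx, ← hq, max_eq_right hq0]
      norm_num
    · have hx5 : x ≤ 5 * rr T t := by
        by_contra hcon
        push Not at hcon
        have h3 : (5 * rr T t) ^ 2 < x ^ 2 := pow_lt_pow_left₀ hcon (by positivity) two_ne_zero
        rw [mul_pow, hr2] at h3
        have h4 : 25 < x ^ 2 / (2 * (T - t)) := by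
          rw [lt_div_iff₀ (by positivity)]; linarith
        linarith
      have hs1 : ϑ ≤ 1 / 100 := ht2 p hp hx5
      have hsn := sin_nonneg3 hth.1 hth.2
      have w2 := mul_cos_le_sin hth.1 (by linarith [Real.pi_pos])
      have w1 : 99 / 100 * Real.sin ϑ ≤ ϑ * Real.cos ϑ := by
        have e1 := Real.sin_le hth.1
        have e2 := Real.one_sub_sq_div_two_le_cos (x := ϑ)
        have e3 : 99 / 100 ≤ Real.cos ϑ := by nlinarith [hth.1]
        have e4 : ϑ * (99 / 100) ≤ ϑ * Real.cos ϑ := mul_le_mul_of_nonneg_left e3 hth.1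
        linarith
      have key := arm_ineq (q := q) (z := x ^ 2 / (2 * (T - t))) hsn w1 w2 hz
      have e : AI (Wtt T) (Wtxx T) g 2 t p + c * (Wt T t x * (dp (g 2) t p).im) =
          ‖dp (g 2) t p‖ * q ^ 6 / (2 * (T - t)) *
          ((198 / 100 * q ^ 2 - 16 * (x ^ 2 / (2 * (T - t))) * q) * Real.sin ϑ +
            (224 * (x ^ 2 / (2 * (T - t))) - 16 * q) * (ϑ * Real.cos ϑ)) := by
        simp only [AI, Wtt, Wtxx, Wt, ← hx, ← hq, max_eq_left hq0.le, p1, p2, ta, ← hϑ, hc]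
        field_simp
        ring
      rw [e]
      exact mul_nonneg (by positivity) key
  have k0 : ∫ p in (0:ℝ)..1, (AI (Wtt T) (Wtxx T) g 0 t p +
      c * (Wt T t (g 0 t p).re * (dp (g 0) t p).im)) ≤ 0 := by
    have k0' : ∀ p ∈ Icc (0:ℝ) 1, AI (Wtt T) (Wtxx T) g 0 t p +
        c * (Wt T t (g 0 t p).re * (dp (g 0) t p).im) ≤ 0 := by
      intro p hp
      obtain ⟨p1, p2⟩ := polar0 (g := g) t p
      have hv := H.norm_pos ht 0 hp
      have hth := H.th_mem ht hs 0 hp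
      obtain ⟨x0, x1⟩ := hx0 p hp
      set x := (g 0 t p).re with hx
      set ϑ := Run7.h661y.th (cang 0) (g 0) t p with hϑ
      set q := qz T t x with hq
      have hz : x ^ 2 / (2 * (T - t)) = 45 / 2 - q := by rw [hq, qz]; ring
      have hz2 : x ^ 2 / (2 * (T - t)) ≤ 2434 / 1000 := by
        rw [div_le_iff₀ (by positivity), ← hr2]
        have h3 : x ^ 2 ≤ (156 / 100 * rr T t) ^ 2 := pow_le_pow_left₀ x0 x1 2
        nlinarith [sq_nonneg (rr T t)]
      have hq0 : 0 < q := by linarith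
      have hs1 : ϑ ≤ 1 / 100 := ht0 p hp
      have hS : 866 / 1000 ≤ Real.sin (π / 3 + ϑ) := by
        have := sin_ge_half_sqrt hth.1 hth.2
        have := sqrt3_bounds.1
        linarith
      have hw : |ϑ * Real.cos (π / 3 + ϑ)| ≤ 1 / 100 := by
        rw [abs_mul, abs_of_nonneg hth.1]
        have := Real.abs_cos_le_one (π / 3 + ϑ)
        calc ϑ * |Real.cos (π / 3 + ϑ)| ≤ ϑ * 1 := mul_le_mul_of_nonneg_left this hth.1
          _ ≤ _ := by linarith
      have key := short_ineq (q := q) (z := x ^ 2 / (2 * (T - t))) hS hw hz (by positivity) hz2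
      have e : AI (Wtt T) (Wtxx T) g 0 t p + c * (Wt T t x * (dp (g 0) t p).im) =
          -(‖dp (g 0) t p‖ * q ^ 6 / (2 * (T - t)) *
          ((198 / 100 * q ^ 2 - 16 * (x ^ 2 / (2 * (T - t))) * q) * Real.sin (π / 3 + ϑ) +
            (224 * (x ^ 2 / (2 * (T - t))) - 16 * q) * (ϑ * Real.cos (π / 3 + ϑ)))) := by
        simp only [AI, Wtt, Wtxx, Wt, ← hx, ← hq, max_eq_left hq0.le, p1, p2, ta, ← hϑ, hc]
        field_simp
        ring
      rw [e, neg_nonpos]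
      exact mul_nonneg (by positivity) key
    have := int_mono (f' := fun _ => (0:ℝ)) zero_le_one (cA0.add (continuousOn_const.mul cB0))
      continuousOn_const k0'
    simpa using this
  have iA2 : IntervalIntegrable (AI (Wtt T) (Wtxx T) g 2 t) volume 0 1 :=
    cA2.intervalIntegrable_of_Icc zero_le_one
  have iB2 : IntervalIntegrable (fun p => c * (Wt T t (g 2 t p).re * (dp (g 2) t p).im))
      volume 0 1 := (continuousOn_const.mul cB2).intervalIntegrable_of_Icc zero_le_one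
  have iA0 : IntervalIntegrable (AI (Wtt T) (Wtxx T) g 0 t) volume 0 1 :=
    cA0.intervalIntegrable_of_Icc zero_le_one
  have iB0 : IntervalIntegrable (fun p => c * (Wt T t (g 0 t p).re * (dp (g 0) t p).im))
      volume 0 1 := (continuousOn_const.mul cB0).intervalIntegrable_of_Icc zero_le_one
  have i2 := intervalIntegral.integral_add iA2 iB2
  have i0 := intervalIntegral.integral_add iA0 iB0
  rw [i2, intervalIntegral.integral_const_mul] at k2
  rw [i0, intervalIntegral.integral_const_mul] at k0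
  have hRz : Wtx T t R = 0 := by
    have h3 : qz T t R ≤ 0 := by
      have h4 : (5 * rr T t) ^ 2 ≤ R ^ 2 := pow_le_pow_left₀ (by positivity) hR 2
      rw [mul_pow, hr2] at h4
      have h5 : 25 ≤ R ^ 2 / (2 * (T - t)) := by
        rw [le_div_iff₀ (by positivity)]; linarith
      rw [qz]; linarith
    rw [Wtx, max_eq_right h3]; norm_num
  rw [hRz, PF, FF, FF]
  linarith

end

end Run7.h661u
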