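import Pool.Agent.Run7.h661.U.Grow

/-!
# Growth of the height functional
-/

open Set Filter Topology MeasureTheory
open scoped Real ContDiff

namespace Run7.h661u

open Run7.h661x Run7.h661v
open Run7.h661y (cang cang0 cang1 cang2 QF HypE SecAt xa ya yM rr rr_pos rr_sq tendsto_rr Jq
  mono_of_deriv hasDerivAt_rr sqrt3_bounds polar0 polar2 zero_mem_I one_mem_I rr_anti FF Test
  func_deriv dt dp thp int_mono int_le_primitive primitive_le_int int_ftc mul_cos_le_sin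
  sin_nonneg3 cos_ge_half sin_ge_half_sqrt)

section
variable {g : Fin 3 → ℝ → ℝ → ℂ} {a : AFd} (S : St (1 / 2) a g)
include S

/-- what holds at all times close to the singular time -/
structure Late (g : Fin 3 → ℝ → ℝ → ℂ) (t : ℝ) : Prop where
  mem : t ∈ Ico (3 / 8 : ℝ) (1 / 2)
  R5 : 10 * rr (1 / 2) t ≤ RR
  xa_le : xa g t ≤ 155 / 100 * rr (1 / 2) t
  ya_le : ya g t ≤ 1 / 100 * rr (1 / 2) t
  ta2 : ∀ p ∈ Icc (0:ℝ) 1, (g 2 t p).re ≤ 5 * rr (1 / 2) t → ta g 2 t p ≤ 1 / 100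
  ta0 : ∀ p ∈ Icc (0:ℝ) 1, ta g 0 t p ≤ 1 / 100

theorem late : ∀ᶠ t in 𝓝[<] (1 / 2 : ℝ), Late g t := by
  have H := hE S
  filter_upwards [all_times S (η := 1 / 100) (by norm_num), rr_small (c := 10)
    (by rw [RR]; norm_num : (0:ℝ) < RR)] with t h hR
  obtain ⟨h1, h2, h3, h4, h5⟩ := h
  have ht4 : t ∈ Ico (1 / 4 : ℝ) (1 / 2) := ⟨by linarith [h1.1], h1.2⟩
  have htI := H.mem ht4
  refine ⟨h1, hR.le, h2, h3, fun p hp hx => ?_, fun p hp => ?_⟩
  · rw [ta, S.th_eq 2 htI hp]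
    exact h4 p hp (by rw [← (S.C.re_eq S.A 2 htI hp).1]; exact hx)
  · rw [ta, S.th_eq 0 htI hp]
    exact h5 p hp

lemma Late.x0 {t : ℝ} (h : Late g t) : ∀ p ∈ Icc (0:ℝ) 1, 0 ≤ (g 0 t p).re ∧
    (g 0 t p).re ≤ 156 / 100 * rr (1 / 2) t := by
  intro p hp
  have H := hE S
  have ht4 : t ∈ Ico (1 / 4 : ℝ) (1 / 2) := ⟨by linarith [h.mem.1], h.mem.2⟩
  have htI := H.mem ht4
  have hr := rr_pos h.mem.2
  have s2 := sqrt3_bounds.2
  have h1 := (H.concl_all ht4).x0 p hp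
  have h2 := (H.qf.xbound htI (H.secAt ht4) hp).1
  have h5 := H.qf.ya_pos htI (H.secAt ht4)
  have h6 : √3 / 3 * ya g t ≤ 0.58 * (1 / 100 * rr (1 / 2) t) :=
    mul_le_mul (by linarith) h.ya_le h5.le (by norm_num)
  have h7 := h.xa_le
  constructor
  · linarith
  · linarith

lemma Late.x2 {t : ℝ} (h : Late g t) : ∀ p ∈ Icc (0:ℝ) 1, xa g t ≤ (g 2 t p).re ∧
    0 ≤ (g 2 t p).re := by
  intro p hp
  have H := hE S
  have ht4 : t ∈ Ico (1 / 4 : ℝ) (1 / 2) := ⟨by linarith [h.mem.1], h.mem.2⟩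
  have htI := H.mem ht4
  have h1 := (H.qf.x2_strict htI (H.secAt ht4)).monotoneOn zero_mem_I hp hp.1
  simp only [H.qf.re_zero htI] at h1
  exact ⟨h1, (H.qf.xa_nonneg htI (H.secAt ht4)).trans h1⟩

lemma PF_pos {t : ℝ} (h : Late g t) : 0 < PF (Wt (1 / 2)) g t := by
  have H := hE S
  have ht4 : t ∈ Ico (1 / 4 : ℝ) (1 / 2) := ⟨by linarith [h.mem.1], h.mem.2⟩
  have htI := H.mem ht4
  have hs := H.secAt ht4
  have hT : 0 < 1 / 2 - t := by linarith [h.mem.2]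
  have hr := rr_pos h.mem.2
  have hr2 := rr_sq h.mem.2.le
  have a2 : 0 ≤ FF (Wt (1 / 2)) g 2 t := by
    apply intervalIntegral.integral_nonneg zero_le_one
    intro p hp
    exact mul_nonneg (pow_nonneg (le_max_right _ _) 8) (H.qf.dp2_im_nonneg htI hs hp)
  have a0 : FF (Wt (1 / 2)) g 0 t ≤ ∫ p in (0:ℝ)..1, (dp (g 0) t p).im := by
    refine int_mono zero_le_one (AI_cont H.qf htI hs (test_wt (1 / 2)) 0).2
      (H.qf.cZi htI 0).continuousOn (fun p hp => ?_)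
    obtain ⟨x0, x1⟩ := Late.x0 S h p hp
    have hz2 : (g 0 t p).re ^ 2 / (2 * (1 / 2 - t)) ≤ 2434 / 1000 := by
      rw [div_le_iff₀ (by positivity), ← hr2]
      have h3 : (g 0 t p).re ^ 2 ≤ (156 / 100 * rr (1 / 2) t) ^ 2 := pow_le_pow_left₀ x0 x1 2
      nlinarith [sq_nonneg (rr (1 / 2) t)]
    have hq : 1 ≤ qz (1 / 2) t (g 0 t p).re := by rw [qz]; linarith
    have hW : 1 ≤ Wt (1 / 2) t (g 0 t p).re := by
      rw [Wt]
      exact one_le_pow₀ (hq.trans (le_max_left _ _))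
    have hneg := H.qf.dp0_im_neg htI hs hp
    nlinarith
  have e : ∫ p in (0:ℝ)..1, (dp (g 0) t p).im = (g 0 t 1).im - (g 0 t 0).im :=
    int_ftc zero_le_one (H.qf.cZi htI 0).continuousOn (fun p _ => H.qf.dim htI 0 p)
  rw [e, H.qf.bIm t htI, H.qf.im_zero htI] at a0
  have hya := H.qf.ya_pos htI hs
  rw [PF]
  linarith

theorem lower_bound : ∃ c > 0, ∀ᶠ t in 𝓝[<] (1 / 2 : ℝ),
    c * Real.exp (99 / 100 * Real.log (1 / 2 - t)) ≤ PF (Wt (1 / 2)) g t := by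
  have H := hE S
  obtain ⟨t1, ht1, hsub⟩ := (mem_nhdsLT_iff_exists_Ioo_subset).1 (late S)
  have ht1' : t1 < 1 / 2 := ht1
  set t2 := (t1 + 1 / 2) / 2 with ht2
  have h12 : t1 < t2 := by rw [ht2]; linarith
  have h2h : t2 < 1 / 2 := by rw [ht2]; linarith
  have hL : ∀ t ∈ Ico t2 (1 / 2), Late g t := fun t ht => hsub ⟨h12.trans_le ht.1, ht.2⟩
  have h4 : ∀ t ∈ Ico t2 (1 / 2), t ∈ Ico (1 / 4 : ℝ) (1 / 2) := fun t ht =>
    ⟨by linarith [(hL t ht).mem.1], ht.2⟩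
  have hd : ∀ t ∈ Ico t2 (1 / 2), ∃ N', HasDerivAt (PF (Wt (1 / 2)) g) N' t ∧
      0 ≤ N' + 99 / 100 / (1 / 2 - t) * PF (Wt (1 / 2)) g t := by
    intro t ht
    have h := hL t ht
    have hr := rr_pos ht.2
    exact grow_ineq H.qf (H.mem (h4 t ht)) (H.secAt (h4 t ht)) (by linarith [h.R5])
      (Late.x0 S h) (fun p hp => (Late.x2 S h p hp).2) h.ta2 h.ta0
  choose! N' hN' hN'0 using hd
  set E : ℝ → ℝ := fun t => Real.exp (-(99 / 100 * Real.log (1 / 2 - t))) with hE'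
  have hEd : ∀ t ∈ Ico t2 (1 / 2), HasDerivAt E (E t * (99 / 100 / (1 / 2 - t))) t := by
    intro t ht
    have hT : 0 < 1 / 2 - t := by linarith [ht.2]
    have d0 : HasDerivAt (fun s : ℝ => 1 / 2 - s) (-1) t :=
      (hasDerivAt_id' t).const_sub (1 / 2)
    have d1 := (((d0.log hT.ne').const_mul (99 / 100)).neg).exp
    refine HasDerivAt.congr_deriv (f := E) d1 ?_
    simp only [hE', Pi.neg_apply]
    ring
  have hmono : ∀ t ∈ Ico t2 (1 / 2), E t2 * PF (Wt (1 / 2)) g t2 ≤ E t * PF (Wt (1 / 2)) g t := by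
    intro t ht
    have hmem : ∀ x ∈ Icc t2 t, x ∈ Ico t2 (1 / 2) := fun x hx => ⟨hx.1, hx.2.trans_lt ht.2⟩
    exact mono_of_deriv (f := fun x => E x * PF (Wt (1 / 2)) g x)
      (f' := fun x => E x * (99 / 100 / (1 / 2 - x)) * PF (Wt (1 / 2)) g x + E x * N' x)
      (a := t2) (b := t) (fun x hx => (hEd x (hmem x hx)).mul (hN' x (hmem x hx)))
      (fun x hx => by
        have h1 := hN'0 x (hmem x hx)
        have h2 : 0 < E x := Real.exp_pos _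
        have h3 := mul_nonneg h2.le h1
        nlinarith) ⟨le_refl _, ht.1⟩ ⟨ht.1, le_refl _⟩ ht.1
  have hp2 := PF_pos S (hL t2 ⟨le_refl _, h2h⟩)
  refine ⟨E t2 * PF (Wt (1 / 2)) g t2, mul_pos (Real.exp_pos _) hp2, ?_⟩
  filter_upwards [Ico_mem_nhdsLT h2h] with t ht
  have h1 := hmono t ht
  have h2 : E t * Real.exp (99 / 100 * Real.log (1 / 2 - t)) = 1 := by
    simp only [hE']
    rw [← Real.exp_add, neg_add_cancel, Real.exp_zero]
  have h3 := mul_le_mul_of_nonneg_right h1 (Real.exp_pos (99 / 100 * Real.log (1 / 2 - t))).le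
  calc _ ≤ E t * PF (Wt (1 / 2)) g t * Real.exp (99 / 100 * Real.log (1 / 2 - t)) := h3
    _ = (E t * Real.exp (99 / 100 * Real.log (1 / 2 - t))) * PF (Wt (1 / 2)) g t := by ring
    _ = _ := by rw [h2, one_mul]

end

end Run7.h661u
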