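import Mathlib

/-!
# Continuous inverses of strictly monotone functions, and separation by the sign of a function
-/

open Set Filter Topology

namespace Run7.h661u

/-- projection to `[0,1]` -/
noncomputable def cl (p : ℝ) : ℝ := max 0 (min p 1)

lemma cl_mem (p : ℝ) : cl p ∈ Icc (0:ℝ) 1 := ⟨le_max_left _ _, max_le zero_le_one (min_le_right _ _)⟩
lemma cl_mono : Monotone cl := fun _ _ h => max_le_max_left _ (min_le_min_right _ h)
lemma cl_cont : Continuous cl := by unfold cl; fun_prop
lemma cl_eq {p : ℝ} (hp : p ∈ Icc (0:ℝ) 1) : cl p = p := by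
  rw [cl, min_eq_left hp.2, max_eq_right hp.1]
lemma cl_neg {p : ℝ} (hp : p ≤ 0) : cl p = 0 := by
  rw [cl, max_eq_left]; exact (min_le_left _ _).trans hp
lemma cl_big {p : ℝ} (hp : 1 ≤ p) : cl p = 1 := by
  rw [cl, min_eq_right hp, max_eq_right zero_le_one]

theorem inv_cont {f : ℝ → ℝ} (hc : ContinuousOn f (Icc 0 1)) (hm : StrictMonoOn f (Icc 0 1)) :
    ∃ φ : ℝ → ℝ, Continuous φ ∧ (∀ v, φ v ∈ Icc (0:ℝ) 1) ∧ (∀ v ∈ Icc (f 0) (f 1), f (φ v) = v) ∧
      (∀ v ≤ f 0, φ v = 0) ∧ (∀ v, f 1 ≤ v → φ v = 1) := by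
  have z0 : (0:ℝ) ∈ Icc (0:ℝ) 1 := ⟨le_refl _, zero_le_one⟩
  have z1 : (1:ℝ) ∈ Icc (0:ℝ) 1 := ⟨zero_le_one, le_refl _⟩
  set F : ℝ → ℝ := fun p => f (cl p) + (p - cl p) with hF
  have hFc : Continuous F := (hc.comp_continuous cl_cont cl_mem).add (continuous_id.sub cl_cont)
  have hlip : ∀ p q : ℝ, p ≤ q → p - cl p ≤ q - cl q := by
    intro p q hpq
    rcases le_total q 0 with h | h
    · rw [cl_neg h, cl_neg (hpq.trans h)]; linarith
    · rcases le_total p 0 with h' | h'
      · rw [cl_neg h']
        rcases le_total q 1 with h1 | h1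
        · rw [cl_eq ⟨h, h1⟩]; linarith
        · rw [cl_big h1]; linarith
      · rcases le_total q 1 with h1 | h1
        · rw [cl_eq ⟨h, h1⟩, cl_eq ⟨h', hpq.trans h1⟩]; linarith
        · rw [cl_big h1]
          rcases le_total p 1 with h2 | h2
          · rw [cl_eq ⟨h', h2⟩]; linarith
          · rw [cl_big h2]; linarith
  have hFm : StrictMono F := by
    intro p q hpq
    rcases eq_or_lt_of_le (cl_mono hpq.le) with h | h
    · simp only [hF, h]; linarith
    · have h1 := hm (cl_mem p) (cl_mem q) h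
      have h2 := hlip p q hpq.le
      simp only [hF]; linarith
  have hF0 : F 0 = f 0 := by simp only [hF, cl_eq z0]; ring
  have hF1 : F 1 = f 1 := by simp only [hF, cl_eq z1]; ring
  have hsurj : Function.Surjective F := by
    refine hFc.surjective ?_ ?_
    · refine tendsto_atTop_mono (f := fun p => f 0 - 1 + p) (fun p => ?_)
        (tendsto_atTop_add_const_left _ _ tendsto_id)
      have h1 := hm.monotoneOn z0 (cl_mem p) (cl_mem p).1
      have h2 := (cl_mem p).2
      simp only [hF]; linarith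
    · refine tendsto_atBot_mono (f := fun p => f 1 + p) (fun p => ?_)
        (tendsto_atBot_add_const_left _ _ tendsto_id)
      have h1 := hm.monotoneOn (cl_mem p) z1 (cl_mem p).2
      have h2 := (cl_mem p).1
      simp only [hF]; linarith
  set e := StrictMono.orderIsoOfSurjective F hFm hsurj with he
  have hes : ∀ v, F (e.symm v) = v := fun v => e.apply_symm_apply v
  refine ⟨fun v => cl (e.symm v), cl_cont.comp e.symm.continuous, fun v => cl_mem _,
    fun v hv => ?_, fun v hv => ?_, fun v hv => ?_⟩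
  · have h0 : 0 ≤ e.symm v := by
      rw [← hFm.le_iff_le, hes, hF0]; exact hv.1
    have h1 : e.symm v ≤ 1 := by
      rw [← hFm.le_iff_le, hes, hF1]; exact hv.2
    have h2 := hes v
    simp only [hF, cl_eq (⟨h0, h1⟩ : e.symm v ∈ Icc (0:ℝ) 1)] at h2
    simp only [cl_eq (⟨h0, h1⟩ : e.symm v ∈ Icc (0:ℝ) 1)]
    linarith
  · apply cl_neg
    rw [← hFm.le_iff_le, hes, hF0]; exact hv
  · apply cl_big
    rw [← hFm.le_iff_le, hes, hF1]; exact hv

/-- If `{G > 0}` is connected and `{G = 0}` is disjoint from the open set `O` which contains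
`{G > 0}`, then `{G > 0}` is a connected component of `O`. -/
theorem comp_of_sign {G : ℂ → ℝ} (hG : Continuous G) {O : Set ℂ} (hO : {z | 0 < G z} ⊆ O)
    (h0 : ∀ z ∈ O, G z ≠ 0) (hconn : IsPreconnected {z | 0 < G z}) {z0 : ℂ} (hz0 : 0 < G z0) :
    connectedComponentIn O z0 = {z | 0 < G z} := by
  apply Subset.antisymm
  · have h1 : IsPreconnected (connectedComponentIn O z0) := isPreconnected_connectedComponentIn
    refine h1.subset_left_of_subset_union (u := {z | 0 < G z}) (v := {z | G z < 0})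
      (isOpen_lt continuous_const hG) (isOpen_lt hG continuous_const) ?_ ?_ ?_
    · rw [Set.disjoint_left]
      intro z hz hz'
      simp only [mem_ofPred_eq] at hz hz'
      linarith
    · intro z hz
      have h2 := connectedComponentIn_subset O z0 hz
      rcases lt_or_gt_of_ne (h0 z h2) with h | h
      · exact Or.inr h
      · exact Or.inl h
    · exact ⟨z0, mem_connectedComponentIn (hO hz0), hz0⟩
  · exact hconn.subset_connectedComponentIn hz0 hO

end Run7.h661u
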