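import Pool.Agent.Run7.h661.U.Lim

/-!
# The width of the shrinking lens
-/

open Set Filter Topology
open scoped Real ContDiff

namespace Run7.h661u

open Run7.h661x Run7.h661v
open Run7.h661y (sqrt3_bounds)

lemma mono_w {f f' : ℝ → ℝ} (hf : ∀ p ∈ Icc (0:ℝ) 1, HasDerivWithinAt f (f' p) (Icc 0 1) p)
    (hn : ∀ p ∈ Icc (0:ℝ) 1, 0 ≤ f' p) {p q : ℝ} (hp : p ∈ Icc (0:ℝ) 1) (hq : q ∈ Icc (0:ℝ) 1)
    (hpq : p ≤ q) : f p ≤ f q := by
  have : MonotoneOn f (Icc 0 1) := by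
    refine monotoneOn_of_hasDerivWithinAt_nonneg (f' := f') (convex_Icc 0 1)
      (fun x hx => (hf x hx).continuousWithinAt) (fun x hx => ?_) (fun x hx => ?_)
    · exact (hf x (interior_subset hx)).mono interior_subset
    · exact hn x (interior_subset hx)
  exact this hp hq hpq

/-- `s exp(-s²/2)` is increasing on `[0,1]` -/
lemma phi_lt {s u : ℝ} (hs : 0 < s) (hsu : s < u) (hu : u ≤ 1) :
    s * Real.exp (-(s ^ 2 / 2)) < u * Real.exp (-(u ^ 2 / 2)) := by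
  have hv : (u ^ 2 - s ^ 2) / 2 < 1 := by nlinarith
  have h1 : 1 - (u ^ 2 - s ^ 2) / 2 ≤ Real.exp (-((u ^ 2 - s ^ 2) / 2)) := by
    have := Real.add_one_le_exp (-((u ^ 2 - s ^ 2) / 2))
    linarith
  have h2 : Real.exp (-(u ^ 2 / 2)) = Real.exp (-((u ^ 2 - s ^ 2) / 2)) *
      Real.exp (-(s ^ 2 / 2)) := by
    rw [← Real.exp_add]; congr 1; ring
  rw [h2, ← mul_assoc]
  apply mul_lt_mul_of_pos_right _ (Real.exp_pos _)
  have h3 : u * (1 - (u ^ 2 - s ^ 2) / 2) ≤ u * Real.exp (-((u ^ 2 - s ^ 2) / 2)) :=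
    mul_le_mul_of_nonneg_left h1 (by linarith)
  have h4 : s < u * (1 - (u ^ 2 - s ^ 2) / 2) := by
    have h5 : u * (u + s) / 2 < 1 := by nlinarith
    have h6 : 0 < (u - s) * (1 - u * (u + s) / 2) := mul_pos (by linarith) (by linarith)
    nlinarith
  linarith

/-- `s exp(-s²/2)` is decreasing on `[1,∞)` -/
lemma phi_anti {s u : ℝ} (hs : 1 ≤ s) (hsu : s ≤ u) :
    u * Real.exp (-(u ^ 2 / 2)) ≤ s * Real.exp (-(s ^ 2 / 2)) := by
  have h1 : 1 + (u ^ 2 - s ^ 2) / 2 ≤ Real.exp ((u ^ 2 - s ^ 2) / 2) := by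
    have := Real.add_one_le_exp ((u ^ 2 - s ^ 2) / 2)
    linarith
  have h2 : Real.exp (-(s ^ 2 / 2)) = Real.exp ((u ^ 2 - s ^ 2) / 2) *
      Real.exp (-(u ^ 2 / 2)) := by
    rw [← Real.exp_add]; congr 1; ring
  rw [h2, ← mul_assoc]
  apply mul_le_mul_of_nonneg_right _ (Real.exp_pos _).le
  have h3 : s * (1 + (u ^ 2 - s ^ 2) / 2) ≤ s * Real.exp ((u ^ 2 - s ^ 2) / 2) :=
    mul_le_mul_of_nonneg_left h1 (by linarith)
  have h4 : 0 ≤ (u - s) * (s * (u + s) / 2 - 1) := by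
    apply mul_nonneg (by linarith)
    nlinarith
  nlinarith

lemma sin_conc {x : ℝ} (h0 : 0 ≤ x) (h1 : x ≤ π / 3) : 3 * √3 / (2 * π) * x ≤ Real.sin x := by
  have hpi := Real.pi_pos
  have hc := strictConcaveOn_sin_Icc.concaveOn
  have h2 := hc.2 (⟨le_refl _, hpi.le⟩ : (0:ℝ) ∈ Icc 0 π)
    (⟨by positivity, by linarith⟩ : π / 3 ∈ Icc 0 π)
    (by rw [sub_nonneg, div_le_one (by positivity)]; exact h1 : 0 ≤ 1 - x / (π / 3))
    (by positivity : 0 ≤ x / (π / 3)) (by ring)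
  simp only [smul_eq_mul, Real.sin_zero, mul_zero, zero_add, Real.sin_pi_div_three] at h2
  have e1 : x / (π / 3) * (π / 3) = x := by field_simp
  rw [e1] at h2
  refine le_trans (le_of_eq ?_) h2
  field_simp

/-- numerical facts -/
lemma num_log {m : ℝ} (hm : 0 < m)
    (h : 3 * √3 / (2 * π) * m * Real.log (1 + (π / 3) ^ 2 / (2 * m ^ 2)) ≤ m) : 0.47 < m := by
  have s1 := sqrt3_bounds.1
  have s2 := sqrt3_bounds.2
  have p1 := Real.pi_gt_d4
  have p2 := Real.pi_lt_d4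
  have hpi := Real.pi_pos
  by_contra hcon
  push Not at hcon
  have h1 : 3 * √3 / (2 * π) * Real.log (1 + (π / 3) ^ 2 / (2 * m ^ 2)) ≤ 1 := by
    have : m * (3 * √3 / (2 * π) * Real.log (1 + (π / 3) ^ 2 / (2 * m ^ 2))) ≤ m * 1 := by
      linarith
    exact le_of_mul_le_mul_left this hm
  have h2 : 0.8269 ≤ 3 * √3 / (2 * π) := by
    rw [le_div_iff₀ (by positivity)]
    nlinarith
  have h3 : 1 + (0.548:ℝ) / (0.47) ^ 2 ≤ 1 + (π / 3) ^ 2 / (2 * m ^ 2) := by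
    have : (0.548:ℝ) / (0.47) ^ 2 ≤ (π / 3) ^ 2 / (2 * m ^ 2) := by
      rw [div_le_div_iff₀ (by positivity) (by positivity)]
      have a1 : m ^ 2 ≤ (0.47:ℝ) ^ 2 := pow_le_pow_left₀ hm.le hcon 2
      have a2 : (3.1415:ℝ) ^ 2 ≤ π ^ 2 := pow_le_pow_left₀ (by norm_num) p1.le 2
      nlinarith
    linarith
  have h4 : Real.log (1 + (0.548:ℝ) / (0.47) ^ 2) ≤ Real.log (1 + (π / 3) ^ 2 / (2 * m ^ 2)) :=
    Real.log_le_log (by norm_num) h3
  have h5 : (1.21:ℝ) < Real.log (1 + (0.548:ℝ) / (0.47) ^ 2) := by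
    rw [Real.lt_log_iff_exp_lt (by norm_num)]
    have e1 : Real.exp (1.21:ℝ) = Real.exp 1 * Real.exp 0.21 := by
      rw [← Real.exp_add]; norm_num
    have e2 : Real.exp (0.21:ℝ) ≤ 1 / (1 - 0.21) := by
      have := Real.add_one_le_exp (-(0.21:ℝ))
      rw [Real.exp_neg] at this
      rw [le_div_iff₀ (by norm_num)]
      have h6 := Real.exp_pos (0.21:ℝ)
      have h7 : (1 - 0.21) * Real.exp (0.21:ℝ) ≤ (Real.exp (0.21:ℝ))⁻¹ * Real.exp 0.21 :=
        mul_le_mul_of_nonneg_right (by linarith) h6.le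
      rw [inv_mul_cancel₀ h6.ne'] at h7
      linarith
    rw [e1]
    have e3 := Real.exp_one_lt_d9
    calc Real.exp 1 * Real.exp 0.21 ≤ 2.7182818286 * (1 / (1 - 0.21)) :=
          mul_le_mul e3.le e2 (Real.exp_pos _).le (by norm_num)
      _ < _ := by norm_num
  have h6 : 0.8269 * 1.21 ≤ 3 * √3 / (2 * π) * Real.log (1 + (π / 3) ^ 2 / (2 * m ^ 2)) :=
    mul_le_mul h2 (by linarith) (by norm_num) (by linarith)
  norm_num at h6
  linarith

lemma num_phi {m b : ℝ} (hm : 0.47 < m) (hm1 : m ≤ 1) (hb : 1 ≤ b)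
    (h : √3 / 2 * b * Real.exp (-(b ^ 2 / 2)) = m * Real.exp (-(m ^ 2 / 2))) : b < 153 / 100 := by
  have s2 := sqrt3_bounds.2
  by_contra hcon
  push Not at hcon
  have h1 := phi_lt (s := 0.47) (u := m) (by norm_num) hm hm1
  have h2 := phi_anti (s := 153 / 100) (u := b) (by norm_num) hcon
  have h3 : √3 / 2 * b * Real.exp (-(b ^ 2 / 2)) ≤ √3 / 2 * (153 / 100 *
      Real.exp (-((153 / 100) ^ 2 / 2))) := by
    rw [mul_assoc]
    exact mul_le_mul_of_nonneg_left h2 (by positivity)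
  have h4 : (0.889:ℝ) ≤ Real.exp (-((0.47:ℝ) ^ 2 / 2)) := by
    have := Real.add_one_le_exp (-((0.47:ℝ) ^ 2 / 2))
    norm_num at this ⊢
    linarith
  have h5 : Real.exp (-((153 / 100 : ℝ) ^ 2 / 2)) ≤ 0.3105 := by
    have e1 : Real.exp (-((153 / 100 : ℝ) ^ 2 / 2)) = (Real.exp 1)⁻¹ * (Real.exp 0.17045)⁻¹ := by
      rw [← Real.exp_neg, ← Real.exp_neg, ← Real.exp_add]; congr 1; norm_num
    have e2 : (1 + 0.17045 + 0.17045 ^ 2 / 2 : ℝ) ≤ Real.exp 0.17045 :=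
      Real.quadratic_le_exp_of_nonneg (by norm_num)
    have e3 := Real.exp_one_gt_d9
    have e4 : (Real.exp 1)⁻¹ ≤ (2.7182818283 : ℝ)⁻¹ := inv_anti₀ (by norm_num) e3.le
    have e5 : (Real.exp 0.17045)⁻¹ ≤ (1 + 0.17045 + 0.17045 ^ 2 / 2 : ℝ)⁻¹ :=
      inv_anti₀ (by norm_num) e2
    rw [e1]
    calc (Real.exp 1)⁻¹ * (Real.exp 0.17045)⁻¹ ≤ (2.7182818283 : ℝ)⁻¹ *
          (1 + 0.17045 + 0.17045 ^ 2 / 2 : ℝ)⁻¹ :=
          mul_le_mul e4 e5 (by positivity) (by norm_num)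
      _ ≤ 0.3105 := by norm_num
  have h6 : √3 / 2 * (153 / 100 * Real.exp (-((153 / 100) ^ 2 / 2))) ≤
      0.86603 * (153 / 100 * 0.3105) :=
    mul_le_mul (by linarith) (mul_le_mul_of_nonneg_left h5 (by norm_num)) (by positivity)
      (by norm_num)
  have h7 : (0.47:ℝ) * 0.889 ≤ 0.47 * Real.exp (-((0.47:ℝ) ^ 2 / 2)) :=
    mul_le_mul_of_nonneg_left h4 (by norm_num)
  norm_num at h6 h7
  linarith

section
variable {l b : ℝ} {X Y Θ : ℝ → ℝ}

/-- the half width of a shrinking lens -/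
theorem lens_width (hl : 0 < l)
    (dX : ∀ p ∈ Icc (0:ℝ) 1, HasDerivWithinAt X (l * Real.cos (Θ p)) (Icc 0 1) p)
    (dY : ∀ p ∈ Icc (0:ℝ) 1, HasDerivWithinAt Y (l * Real.sin (Θ p)) (Icc 0 1) p)
    (dΘ : ∀ p ∈ Icc (0:ℝ) 1, HasDerivWithinAt Θ (-(l * nn X Y Θ p)) (Icc 0 1) p)
    (hX0 : X 0 = b) (hY0 : Y 0 = 0) (hΘ0 : Θ 0 = 2 * π / 3) (hX1 : X 1 = 0) (hΘ1 : Θ 1 = π)
    (hs : ∀ p ∈ Icc (0:ℝ) 1, 2 * π / 3 ≤ Θ p ∧ Θ p ≤ π) (hm : Y 1 ≤ √3 / 2) (hb : 1 ≤ b) :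
    b < 153 / 100 := by
  have hpi := Real.pi_pos
  have s2 := sqrt3_bounds.2
  have z0 : (0:ℝ) ∈ Icc (0:ℝ) 1 := ⟨le_refl _, zero_le_one⟩
  have z1 : (1:ℝ) ∈ Icc (0:ℝ) 1 := ⟨zero_le_one, le_refl _⟩
  set κ : ℝ → ℝ := fun p => X p * Real.sin (Θ p) - Y p * Real.cos (Θ p) with hκ
  set q : ℝ → ℝ := fun p => X p * Real.cos (Θ p) + Y p * Real.sin (Θ p) with hq
  have hnn : ∀ p, nn X Y Θ p = -κ p := fun p => by simp only [nn, hκ]; ring
  have dΘ' : ∀ p ∈ Icc (0:ℝ) 1, HasDerivWithinAt Θ (l * κ p) (Icc 0 1) p := fun p hp =>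
    (dΘ p hp).congr_deriv (by rw [hnn]; ring)
  have dκ : ∀ p ∈ Icc (0:ℝ) 1, HasDerivWithinAt κ (l * κ p * q p) (Icc 0 1) p := fun p hp => by
    refine (((dX p hp).mul (dΘ' p hp).sin).sub ((dY p hp).mul (dΘ' p hp).cos)).congr_deriv ?_
    simp only [hκ, hq]; ring
  have dq : ∀ p ∈ Icc (0:ℝ) 1, HasDerivWithinAt q (l * (1 - κ p ^ 2)) (Icc 0 1) p := fun p hp => by
    refine (((dX p hp).mul (dΘ' p hp).cos).add ((dY p hp).mul (dΘ' p hp).sin)).congr_deriv ?_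
    have e := Real.sin_sq_add_cos_sq (Θ p)
    simp only [hκ]
    linear_combination (l) * e
  have hsq : ∀ p, q p ^ 2 + κ p ^ 2 = X p ^ 2 + Y p ^ 2 := fun p => by
    have e := Real.sin_sq_add_cos_sq (Θ p)
    simp only [hκ, hq]
    linear_combination (X p ^ 2 + Y p ^ 2) * e
  set E : ℝ → ℝ := fun p => κ p * Real.exp (-((X p ^ 2 + Y p ^ 2) / 2)) with hE
  have dE : ∀ p ∈ Icc (0:ℝ) 1, HasDerivWithinAt E 0 (Icc 0 1) p := fun p hp => by
    have d1 := (((dX p hp).pow 2).add ((dY p hp).pow 2)).div_const 2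
    refine ((dκ p hp).mul d1.neg.exp).congr_deriv ?_
    simp only [hq, Pi.neg_apply]
    push_cast
    ring
  have hEc : ∀ p ∈ Icc (0:ℝ) 1, E p = E 0 := fun p hp => le_antisymm (by
    have := mono_w (f := fun p => -E p) (f' := fun _ => -0) (fun p hp => (dE p hp).neg)
      (fun p _ => by simp) z0 hp hp.1
    linarith) (mono_w (f' := fun _ => 0) dE (fun p _ => le_refl _) z0 hp hp.1)
  have hκ0 : κ 0 = √3 / 2 * b := by
    simp only [hκ, hX0, hY0, hΘ0]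
    have h3 : Real.sin (2 * π / 3) = √3 / 2 := by
      rw [show 2 * π / 3 = π - π / 3 by ring, Real.sin_pi_sub, Real.sin_pi_div_three]
    rw [h3]; ring
  have hκ1 : κ 1 = Y 1 := by simp only [hκ, hX1, hΘ1, Real.cos_pi]; ring
  have hE0 : E 0 = √3 / 2 * b * Real.exp (-(b ^ 2 / 2)) := by
    simp only [hE, hκ0, hX0, hY0]; ring_nf
  have hE1 : E 1 = Y 1 * Real.exp (-(Y 1 ^ 2 / 2)) := by
    simp only [hE, hκ1, hX1]; ring_nf
  have hc : √3 / 2 * b * Real.exp (-(b ^ 2 / 2)) = Y 1 * Real.exp (-(Y 1 ^ 2 / 2)) := by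
    rw [← hE0, ← hE1, hEc 1 z1]
  have hc0 : 0 < √3 / 2 * b * Real.exp (-(b ^ 2 / 2)) := by positivity
  have hm0 : 0 < Y 1 := by
    by_contra hcon
    push Not at hcon
    have := mul_nonpos_of_nonpos_of_nonneg hcon (Real.exp_pos (-(Y 1 ^ 2 / 2))).le
    linarith
  have hm1 : Y 1 ≤ 1 := by linarith
  set m := Y 1 with hmdef
  have hκpos : ∀ p ∈ Icc (0:ℝ) 1, 0 < κ p := fun p hp => by
    by_contra hcon
    push Not at hcon
    have h1 := hEc p hp
    rw [hE0] at h1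
    have := mul_nonpos_of_nonpos_of_nonneg hcon
      (Real.exp_pos (-((X p ^ 2 + Y p ^ 2) / 2))).le
    simp only [hE] at h1
    linarith
  have hκm : ∀ p ∈ Icc (0:ℝ) 1, m ≤ κ p := fun p hp => by
    by_contra hcon
    push Not at hcon
    have h1 := phi_lt (hκpos p hp) hcon hm1
    have h2 := hEc p hp
    rw [hE0, hc] at h2
    simp only [hE] at h2
    have h3 : Real.exp (-((X p ^ 2 + Y p ^ 2) / 2)) ≤ Real.exp (-(κ p ^ 2 / 2)) := by
      rw [Real.exp_le_exp, ← hsq p]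
      have := sq_nonneg (q p)
      linarith
    have h4 := mul_le_mul_of_nonneg_left h3 (hκpos p hp).le
    linarith
  have hφ : ∀ p ∈ Icc (0:ℝ) 1, 0 ≤ π - Θ p ∧ π - Θ p ≤ π / 3 := fun p hp => by
    obtain ⟨h1, h2⟩ := hs p hp
    constructor <;> linarith
  have hD1 : ∀ p ∈ Icc (0:ℝ) 1, 0 ≤ q p + (π - Θ p) / m := fun p hp => by
    have h1 := mono_w (f := fun p => -(q p + (π - Θ p) / m))
      (f' := fun p => -(l * (1 - κ p ^ 2) + (-(l * κ p)) / m))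
      (fun p hp => (((dq p hp).add (((dΘ' p hp).const_sub π).div_const m)).neg)) (fun p hp => by
        have h2 := hκm p hp
        have h3 : 1 ≤ κ p / m := by rw [one_le_div hm0]; exact h2
        have h4 : -(l * κ p) / m = -(l * (κ p / m)) := by ring
        rw [h4]
        have h5 := sq_nonneg (κ p)
        nlinarith) hp z1 hp.2
    have h2 : q 1 = 0 := by simp only [hq, hX1, hΘ1, Real.sin_pi]; ring
    simp only [h2, hΘ1, sub_self, zero_div, add_zero, neg_zero] at h1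
    linarith
  have hD2 : ∀ p ∈ Icc (0:ℝ) 1, κ p ≤ m + (π - Θ p) ^ 2 / (2 * m) := fun p hp => by
    have h1 := mono_w (f := fun p => -(m + (π - Θ p) ^ 2 / (2 * m) - κ p))
      (f' := fun p => -((2 * (π - Θ p) * (-(l * κ p))) / (2 * m) - l * κ p * q p))
      (fun p hp => by
        have d1 := ((dΘ' p hp).const_sub π).pow 2
        refine ((((d1.div_const (2 * m)).const_add m).sub (dκ p hp)).neg).congr_deriv ?_
        simp) (fun p hp => by
        have h2 := hD1 p hp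
        have h3 := mul_pos hl (hκpos p hp)
        have e : -((2 * (π - Θ p) * (-(l * κ p))) / (2 * m) - l * κ p * q p) =
          l * κ p * (q p + (π - Θ p) / m) := by field_simp; ring
        rw [e]
        positivity) hp z1 hp.2
    simp only [hΘ1, sub_self, hκ1] at h1
    have h2 : m + (0:ℝ) ^ 2 / (2 * m) - m = 0 := by simp
    rw [h2] at h1
    linarith
  set c0 := 3 * √3 / (2 * π) with hc0'
  have hc0p : 0 < c0 := by positivity
  have hD3 := mono_w (f := fun p => c0 * m * Real.log (1 + (π - Θ p) ^ 2 / (2 * m ^ 2)) + Y p)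
    (f' := fun p => c0 * m * ((2 * (π - Θ p) * (-(l * κ p))) / (2 * m ^ 2) /
      (1 + (π - Θ p) ^ 2 / (2 * m ^ 2))) + l * Real.sin (Θ p))
    (fun p hp => by
      have d1 := ((dΘ' p hp).const_sub π).pow 2
      have d2 := (d1.div_const (2 * m ^ 2)).const_add 1
      have hne : 1 + (π - Θ p) ^ 2 / (2 * m ^ 2) ≠ 0 := by positivity
      have d3 := d2.log hne
      refine ((d3.const_mul (c0 * m)).add (dY p hp)).congr_deriv ?_
      simp) (fun p hp => by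
      obtain ⟨f0, f1⟩ := hφ p hp
      have h2 := hD2 p hp
      have h3 := sin_conc f0 f1
      rw [Real.sin_pi_sub, ← hc0'] at h3
      have h4 : 0 < m + (π - Θ p) ^ 2 / (2 * m) := by positivity
      have e : c0 * m * ((2 * (π - Θ p) * (-(l * κ p))) / (2 * m ^ 2) /
          (1 + (π - Θ p) ^ 2 / (2 * m ^ 2))) =
          -(l * (c0 * (π - Θ p)) * (κ p / (m + (π - Θ p) ^ 2 / (2 * m)))) := by
        have h5 : (m + (π - Θ p) ^ 2 / (2 * m)) = m * (1 + (π - Θ p) ^ 2 / (2 * m ^ 2)) := by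
          field_simp
        rw [h5]
        have h6 : 0 < 1 + (π - Θ p) ^ 2 / (2 * m ^ 2) := by positivity
        field_simp
      rw [e]
      have h7 : κ p / (m + (π - Θ p) ^ 2 / (2 * m)) ≤ 1 := by rw [div_le_one h4]; exact h2
      have h8 : 0 ≤ l * (c0 * (π - Θ p)) := by positivity
      have h9 := mul_le_mul_of_nonneg_left h7 h8
      have h10 := mul_le_mul_of_nonneg_left h3 hl.le
      linarith) z0 z1 zero_le_one
  simp only [hΘ0, hΘ1, hY0, sub_self] at hD3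
  have e1 : π - 2 * π / 3 = π / 3 := by ring
  have e2 : (1 : ℝ) + 0 ^ 2 / (2 * m ^ 2) = 1 := by simp
  rw [e1, e2, Real.log_one, mul_zero, zero_add, add_zero] at hD3
  have h47 := num_log hm0 hD3
  exact num_phi h47 hm1 hb hc

end

end Run7.h661u
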