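import Pool.Agent.Run7.h661.U.Sel2

/-!
# Limits of the rescaled caps along arbitrary sequences of good times
-/

open Set Filter Topology
open scoped Real ContDiff

namespace Run7.h661u

open Run7.h661x Run7.h661z Run7.h661v
open Run7.h661y (cang cang0 cang1 cang2 HypE xa ya yM rr rr_pos tendsto_rr rr_sq)

section
variable {g : Fin 3 → ℝ → ℝ → ℂ} {a : AFd} (S : St (1 / 2) a g)
include S

/-- The rescaled half caps converge, along a subsequence of good times, to a shrinker. -/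
theorem caps_lim_seq {M : ℝ} {t : ℕ → ℝ} (hM : 0 < M)
    (ht : ∀ n, t n ∈ Ico (1 / 4 : ℝ) (1 / 2)) (hlim : Tendsto t atTop (𝓝 (1 / 2)))
    (hxt : ∀ n, xa g (t n) < M * rr (1 / 2) (t n))
    (hG : ∀ n : ℕ, rr (1 / 2) (t n) ^ 2 * Gt a (t n) ≤
      (1 / ((n : ℝ) + 1)) ^ 2 / Real.exp (13 * M ^ 2)) :
    ∃ (φ : ℕ → ℕ) (b l : ℝ) (X Y Θ : ℝ → ℝ), Tendsto φ atTop atTop ∧
    41 / 40 ≤ b ∧ 41 / 40 ≤ l ∧
    Tendsto (fun n => xa g (t (φ n)) / rr (1 / 2) (t (φ n))) atTop (𝓝 b) ∧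
    Tendsto (fun n => ya g (t (φ n)) / rr (1 / 2) (t (φ n))) atTop (𝓝 0) ∧
    Tendsto (fun n => lh a (t (φ n))) atTop (𝓝 l) ∧ UT atTop (fun n => xh a (t (φ n))) X ∧
    UT atTop (fun n => yh a (t (φ n))) Y ∧ UT atTop (fun n => th a (t (φ n))) Θ ∧
    (∀ p ∈ Icc (0:ℝ) 1, HasDerivWithinAt X (l * Real.cos (Θ p)) (Icc 0 1) p) ∧
    (∀ p ∈ Icc (0:ℝ) 1, HasDerivWithinAt Y (l * Real.sin (Θ p)) (Icc 0 1) p) ∧
    (∀ p ∈ Icc (0:ℝ) 1, HasDerivWithinAt Θ (-(l * nn X Y Θ p)) (Icc 0 1) p) ∧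
    Θ 0 = 2 * π / 3 := by
  have H := hE S
  have hpi := Real.pi_pos
  have z0 : (0:ℝ) ∈ Icc (0:ℝ) 1 := ⟨le_refl _, zero_le_one⟩
  have z1 : (1:ℝ) ∈ Icc (0:ℝ) 1 := ⟨zero_le_one, le_refl _⟩
  have htI : ∀ n, t n ∈ Ioo 0 (1 / 2 : ℝ) := fun n => H.mem (ht n)
  have hr : ∀ n, 0 < rr (1 / 2) (t n) := fun n => rr_pos (ht n).2
  obtain ⟨hr0, hE0⟩ := exp_tendsto ht hlim (M + 1)
  set 𝒰 : Ultrafilter ℕ := hyperfilter ℕ with h𝒰'
  have h𝒰 : (𝒰 : Filter ℕ) ≤ atTop := Nat.hyperfilter_le_atTop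
  -- heights and angles at the junction
  have hRev : ∀ᶠ n in atTop, (M + 1) * rr (1 / 2) (t n) ≤ RR := by
    have h1 : Tendsto (fun n => (M + 1) * rr (1 / 2) (t n)) atTop (𝓝 0) := by
      simpa using hr0.const_mul (M + 1)
    filter_upwards [h1.eventually (gt_mem_nhds (by rw [RR]; norm_num : (0:ℝ) < RR))] with n hn
    exact hn.le
  have hsm : ∀ᶠ n in atTop, ya g (t n) / rr (1 / 2) (t n) ≤
      Real.exp (Real.log (rr (1 / 2) (t n)) / 5000) * Real.exp ((M + 1) ^ 2) ∧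
      a.th 2 (t n) 0 ≤ KQ * (12 * M / π) *
        (Real.exp (Real.log (rr (1 / 2) (t n)) / 5000) * Real.exp ((M + 1) ^ 2)) := by
    filter_upwards [hRev] with n hn
    have h1 := arm_small S (ht n) (hxt n) (s2 := M + 1) le_rfl hn z0 (by
      rw [(S.junc_eq (htI n) 2).1]
      have := hxt n
      have := hr n
      nlinarith)
    rw [(S.junc_eq (htI n) 2).2] at h1
    exact ⟨h1.2.1, h1.2.2.2⟩
  have hya0 : Tendsto (fun n => ya g (t n) / rr (1 / 2) (t n)) atTop (𝓝 0) := by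
    refine tendsto_of_tendsto_of_tendsto_of_le_of_le' tendsto_const_nhds hE0
      (Eventually.of_forall (fun n => ?_)) ?_
    · exact div_nonneg (H.qf.ya_pos (htI n) (H.secAt (ht n))).le (hr n).le
    · filter_upwards [hsm] with n hn
      exact hn.1
  have hth0 : Tendsto (fun n => a.th 2 (t n) 0) atTop (𝓝 0) := by
    have h1 : Tendsto (fun n => KQ * (12 * M / π) *
        (Real.exp (Real.log (rr (1 / 2) (t n)) / 5000) * Real.exp ((M + 1) ^ 2))) atTop (𝓝 0) := by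
      simpa using hE0.const_mul (KQ * (12 * M / π))
    refine tendsto_of_tendsto_of_tendsto_of_le_of_le' tendsto_const_nhds h1
      (Eventually.of_forall (fun n => (S.sec 2 (t n) (htI n) 0 z0).1)) ?_
    filter_upwards [hsm] with n hn
    exact hn.2
  have hΘ0 : Tendsto (fun n => th a (t n) 0) atTop (𝓝 (2 * π / 3)) := by
    have h1 := hth0.const_add (2 * π / 3)
    rw [add_zero] at h1
    refine h1.congr (fun n => ?_)
    rw [th, AFd.pp, Pf_zero, AFd.al, cang1, S.A.jth (t n) (htI n) 1 2]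
  -- bounds
  have hlh : ∀ n, lh a (t n) ∈ Icc 0 (5 * M) := by
    intro n
    have h1 := (S.len (htI n)).2.1
    have h2 := hxt n
    have h3 := hr n
    have h4 := H.qf.xa_nonneg (htI n) (H.secAt (ht n))
    refine ⟨div_nonneg (by linarith) h3.le, ?_⟩
    rw [lh, div_le_iff₀ h3]
    nlinarith
  have hlh2 : ∀ n, 41 / 40 ≤ lh a (t n) := by
    intro n
    have h1 := (S.len (htI n)).2.1.2
    have h2 := (H.concl_all (ht n)).big
    have h3 := hr n
    rw [lh, le_div_iff₀ h3]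
    linarith
  have hxb : ∀ n, ∀ p ∈ Icc (0:ℝ) 1, |xh a (t n) p| ≤ 5 * M := by
    intro n p hp
    have h1 := (half_bds S (htI n) hp).1
    rw [xh, abs_div, abs_of_pos (hr n), div_le_iff₀ (hr n)]
    have h2 := hxt n
    have h3 := H.qf.xa_nonneg (htI n) (H.secAt (ht n))
    linarith
  have hyb : ∀ n, ∀ p ∈ Icc (0:ℝ) 1, |yh a (t n) p| ≤ 5 * M := by
    intro n p hp
    have h1 := (half_bds S (htI n) hp).2
    rw [yh, abs_div, abs_of_pos (hr n), div_le_iff₀ (hr n)]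
    have h2 := hxt n
    linarith
  have he : Tendsto (fun n : ℕ => 1 / ((n:ℝ) + 1) * (1 / 2 + M)) 𝒰 (𝓝 0) := by
    have h1 := (tendsto_one_div_add_atTop_nhds_zero_nat (𝕜 := ℝ)).mul_const (1 / 2 + M)
    rw [zero_mul] at h1
    exact h1.mono_left h𝒰
  obtain ⟨l, X, Y, Θ, hl, hll, hX, hY, hΘ, dX, dY, dΘ⟩ := abs_lim (𝒰 := 𝒰) (C := 5 * M)
    (lam := fun n => lh a (t n)) (x := fun n => xh a (t n)) (y := fun n => yh a (t n))
    (θ := fun n => th a (t n)) (θ0 := 2 * π / 3) (e := fun n : ℕ => 1 / ((n:ℝ) + 1) * (1 / 2 + M))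
    (by positivity) hlh
    (fun n q hq => (half_derivs S (htI n) hq).2.2.continuousWithinAt)
    (fun n p hp => (half_derivs S (htI n) hp).1) (fun n p hp => (half_derivs S (htI n) hp).2.1)
    hxb hyb he (hΘ0.mono_left h𝒰)
    (fun n p hp => half_approx S (ht n) (hxt n) (by positivity) (hG n) hp)
  obtain ⟨b, hb, hbl⟩ := real_lim 𝒰 (a := fun n => xa g (t n) / rr (1 / 2) (t n)) (m := 41 / 40)
    (M := M) (fun n => by
      have h2 := (H.concl_all (ht n)).big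
      have h3 := hr n
      constructor
      · rw [le_div_iff₀ h3]; exact h2.le
      · rw [div_le_iff₀ h3]; exact (hxt n).le)
  -- extraction of a subsequence
  obtain ⟨φ, hφ, hφP⟩ := subseq h𝒰 (P := fun ε n =>
      |xa g (t n) / rr (1 / 2) (t n) - b| < ε ∧ |lh a (t n) - l| < ε ∧
      (∀ p ∈ Icc (0:ℝ) 1, |xh a (t n) p - X p| < ε) ∧
      (∀ p ∈ Icc (0:ℝ) 1, |yh a (t n) p - Y p| < ε) ∧
      (∀ p ∈ Icc (0:ℝ) 1, |th a (t n) p - Θ p| < ε)) (fun ε hε => by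
    have h1 := (Metric.tendsto_nhds.1 hbl) ε hε
    have h2 := (Metric.tendsto_nhds.1 hll) ε hε
    filter_upwards [h1, h2, hX ε hε, hY ε hε, hΘ ε hε] with n a1 a2 a3 a4 a5
    rw [Real.dist_eq] at a1 a2
    exact ⟨a1, a2, a3, a4, a5⟩)
  have hev : ∀ ε > 0, ∀ᶠ k : ℕ in atTop, 1 / ((k:ℝ) + 1) < ε := by
    intro ε hε
    exact (tendsto_one_div_add_atTop_nhds_zero_nat (𝕜 := ℝ)).eventually (gt_mem_nhds hε)
  have hΘe : Θ 0 = 2 * π / 3 :=
    tendsto_nhds_unique (UT.at hΘ z0) (hΘ0.mono_left h𝒰)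
  refine ⟨φ, b, l, X, Y, Θ, hφ, hb.1,
    ?_, ?_, hya0.comp hφ, ?_, ?_, ?_, ?_, dX, dY, dΘ, hΘe⟩
  · exact ge_of_tendsto hll (Eventually.of_forall hlh2)
  · rw [Metric.tendsto_nhds]
    intro ε hε
    filter_upwards [hev ε hε] with k hk
    rw [Real.dist_eq]
    exact (hφP k).1.trans hk
  · rw [Metric.tendsto_nhds]
    intro ε hε
    filter_upwards [hev ε hε] with k hk
    rw [Real.dist_eq]
    exact (hφP k).2.1.trans hk
  · intro ε hε
    filter_upwards [hev ε hε] with k hk p hp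
    exact ((hφP k).2.2.1 p hp).trans hk
  · intro ε hε
    filter_upwards [hev ε hε] with k hk p hp
    exact ((hφP k).2.2.2.1 p hp).trans hk
  · intro ε hε
    filter_upwards [hev ε hε] with k hk p hp
    exact ((hφP k).2.2.2.2 p hp).trans hk

end

end Run7.h661u
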