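import Pool.Agent.Run7.h661.U.Cut
import Pool.Agent.Run7.h661.U.Grow2

/-!
# The curvature of the arms is unbounded near the origin
-/

open Set Filter Topology MeasureTheory
open scoped Real ContDiff

namespace Run7.h661u

open Run7.h661x Run7.h661v
open Run7.h661y (cang cang0 cang1 cang2 QF HypE SecAt xa ya yM rr rr_pos rr_sq tendsto_rr Jq
  mono_of_deriv hasDerivAt_rr sqrt3_bounds polar0 polar2 zero_mem_I one_mem_I rr_anti FF Test
  func_deriv dt dp thp int_mono int_le_primitive primitive_le_int int_ftc mul_cos_le_sin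
  sin_nonneg3 cos_ge_half sin_ge_half_sqrt)

lemma test_smul {T : ℝ} {Φ Φt Φx Φxx : ℝ → ℝ → ℝ} (h : Test T Φ Φt Φx Φxx) (c : ℝ) :
    Test T (fun t x => c * Φ t x) (fun t x => c * Φt t x) (fun t x => c * Φx t x)
      (fun t x => c * Φxx t x) :=
  ⟨continuousOn_const.mul h.c, continuousOn_const.mul h.ct, continuousOn_const.mul h.cx,
    continuousOn_const.mul h.cxx,
    fun t ht x x' hx => ((h.chain t ht x x' hx).const_mul c).congr_deriv (by ring),
    fun t ht x => (h.dx t ht x).const_mul c, fun t ht x => (h.dxx t ht x).const_mul c⟩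

lemma PF_smul (c : ℝ) (Φ : ℝ → ℝ → ℝ) (g : Fin 3 → ℝ → ℝ → ℂ) (t : ℝ) :
    PF (fun t x => c * Φ t x) g t = c * PF Φ g t := by
  simp only [PF, FF, mul_assoc, intervalIntegral.integral_const_mul]
  ring

section
variable {g : Fin 3 → ℝ → ℝ → ℂ} {a : AFd} (S : St (1 / 2) a g)
include S

lemma ya_tendsto : Tendsto (ya g) (𝓝[<] (1 / 2 : ℝ)) (𝓝 0) := by
  have H := hE S
  have h1 : Tendsto (fun t => 1 / 100 * rr (1 / 2) t) (𝓝[<] (1 / 2 : ℝ)) (𝓝 0) := by
    have := (tendsto_rr (1 / 2)).const_mul (1 / 100)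
    rwa [mul_zero] at this
  refine tendsto_of_tendsto_of_tendsto_of_le_of_le' tendsto_const_nhds h1 ?_ ?_
  · filter_upwards [late S] with t ht
    have ht4 : t ∈ Ico (1 / 4 : ℝ) (1 / 2) := ⟨by linarith [ht.mem.1], ht.mem.2⟩
    exact (H.qf.ya_pos (H.mem ht4) (H.secAt ht4)).le
  · filter_upwards [late S] with t ht
    exact ht.ya_le

lemma ta_tendsto : Tendsto (fun t => ta g 2 t 0) (𝓝[<] (1 / 2 : ℝ)) (𝓝 0) := by
  have H := hE S
  rw [Metric.tendsto_nhds]
  intro ε hε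
  filter_upwards [all_times S (η := ε / 2) (by positivity)] with t h
  obtain ⟨h1, h2, h3, h4, h5⟩ := h
  have ht4 : t ∈ Ico (1 / 4 : ℝ) (1 / 2) := ⟨by linarith [h1.1], h1.2⟩
  have htI := H.mem ht4
  have hr := rr_pos h1.2
  have h6 := h4 0 zero_mem_I (by
    rw [(S.junc_eq htI 2).1]
    linarith)
  rw [Real.dist_eq, sub_zero, ta, S.th_eq 2 htI zero_mem_I,
    abs_of_nonneg (S.sec 2 t htI 0 zero_mem_I).1]
  linarith

/-- the upper bound of the height functional which follows from a curvature bound -/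
lemma upper_of_CB {δ K t1 : ℝ} (hK : 0 ≤ K) (hL : ∀ t ∈ Ioo t1 (1 / 2), Late g t ∧ CB g K δ t)
    {t0 : ℝ} (ht0 : t0 ∈ Ioo t1 (1 / 2)) (hδ : 35 * rr (1 / 2) t0 < δ) :
    PF (Wt (1 / 2)) g t0 ≤ (45 / 2) ^ 8 * (3202 * K) * (1 / 2 - t0) := by
  have H := hE S
  have hr := rr_pos ht0.2
  have hr2 := rr_sq ht0.2.le
  have hT : 0 < 1 / 2 - t0 := by linarith [ht0.2]
  set x0 := 5 * rr (1 / 2) t0 with hx0
  have hx0p : 0 < x0 := by positivity
  have hI : ∀ s, t0 ≤ s → s < 1 / 2 → s ∈ Ioo t1 (1 / 2) := fun s h1 h2 => ⟨ht0.1.trans_le h1, h2⟩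
  have h4 : ∀ s ∈ Ioo t1 (1 / 2), s ∈ Ico (1 / 4 : ℝ) (1 / 2) := fun s hs =>
    ⟨by linarith [(hL s hs).1.mem.1], hs.2⟩
  have htI0 := H.mem (h4 t0 ht0)
  -- comparison with the cut-off functional
  have c1 : PF (Wt (1 / 2)) g t0 ≤ (45 / 2) ^ 8 * PF (fun _ => Cf x0) g t0 := by
    rw [← PF_smul]
    have key : ∀ x : ℝ, 0 ≤ x → Wt (1 / 2) t0 x ≤ (45 / 2) ^ 8 * Cf x0 x := by
      intro x hx
      rcases le_or_gt x x0 with h | h
      · rw [(cut_left hx0p h).1, mul_one, Wt]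
        apply pow_le_pow_left₀ (le_max_right _ _)
        apply max_le _ (by norm_num)
        rw [qz]
        have : 0 ≤ x ^ 2 / (2 * (1 / 2 - t0)) := by positivity
        linarith
      · have h3 : qz (1 / 2) t0 x ≤ 0 := by
          have h5 : (5 * rr (1 / 2) t0) ^ 2 ≤ x ^ 2 := pow_le_pow_left₀ (by positivity) h.le 2
          rw [mul_pow, hr2] at h5
          have h6 : 25 ≤ x ^ 2 / (2 * (1 / 2 - t0)) := by
            rw [le_div_iff₀ (by positivity)]; linarith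
          rw [qz]; linarith
        rw [Wt, max_eq_right h3]
        have := (Cf_mem x0 x).1
        have : 0 ≤ (45 / 2 : ℝ) ^ 8 * Cf x0 x := by positivity
        norm_num
        linarith
    exact PF_mono H.qf htI0 (H.secAt (h4 t0 ht0)) (test_wt (1 / 2))
      (test_smul (test_cut (1 / 2) x0) _) (fun p hp => key _ (Late.x2 S (hL t0 ht0).1 p hp).2)
      (fun p hp => key _ (Late.x0 S (hL t0 ht0).1 p hp).1)
  -- the conditions at later times
  have hcond : ∀ s, t0 ≤ s → s < 1 / 2 → ya g s ≤ x0 ∧ 0 ≤ xa g s ∧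
      ∀ p ∈ Icc (0:ℝ) 1, (g 0 s p).re ≤ x0 := by
    intro s h1 h2
    have hs := hI s h1 h2
    have hrs : rr (1 / 2) s ≤ rr (1 / 2) t0 := rr_anti h1
    have hL' := (hL s hs).1
    refine ⟨?_, H.qf.xa_nonneg (H.mem (h4 s hs)) (H.secAt (h4 s hs)), fun p hp => ?_⟩
    · have := hL'.ya_le
      linarith
    · have := (Late.x0 S hL' p hp).2
      linarith
  have hR : 2 * x0 ≤ RR := by
    have := (hL t0 ht0).1.R5
    linarith
  have hδ' : 7 * x0 < δ := by linarith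
  have c2 : ∀ t ∈ Ico t0 (1 / 2), PF (fun _ => Cf x0) g t0 ≤
      ya g t + 16 * x0 * (ta g 2 t 0 + 4 * K * x0) + 2 * K * (1 / 2 - t0) := by
    intro t ht
    have hmem : ∀ x ∈ Icc t0 t, x ∈ Ioo t1 (1 / 2) := fun x hx =>
      hI x hx.1 (hx.2.trans_lt ht.2)
    have hd : ∀ x ∈ Icc t0 t, ∃ N', HasDerivAt (PF (fun _ => Cf x0) g) N' x ∧ -(2 * K) ≤ N' := by
      intro x hx
      obtain ⟨k1, k2, k3⟩ := hcond x hx.1 (hx.2.trans_lt ht.2)
      have hx' := hmem x hx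
      exact cut_deriv H.qf (H.mem (h4 x hx')) (H.secAt (h4 x hx')) hK (hL x hx').2 hx0p k1 k2 hδ'
        k3 hR
    choose! N' hN' hN'0 using hd
    have hm := mono_of_deriv (f := fun x => PF (fun _ => Cf x0) g x + 2 * K * x)
      (f' := fun x => N' x + 2 * K * 1) (a := t0) (b := t)
      (fun x hx => (hN' x hx).add ((hasDerivAt_id' x).const_mul _))
      (fun x hx => by have := hN'0 x hx; linarith)
      (⟨le_refl _, ht.1⟩ : t0 ∈ Icc t0 t) ⟨ht.1, le_refl _⟩ ht.1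
    obtain ⟨k1, k2, k3⟩ := hcond t ht.1 ht.2
    have ht' := hI t ht.1 ht.2
    have h7 := cut_le H.qf (H.mem (h4 t ht')) (H.secAt (h4 t ht')) hK (hL t ht').2 hx0p k1 k2 hδ'
    have h8 : 2 * K * (t - t0) ≤ 2 * K * (1 / 2 - t0) :=
      mul_le_mul_of_nonneg_left (by linarith [ht.2]) (by positivity)
    linarith
  have hlim : Tendsto (fun t => ya g t + 16 * x0 * (ta g 2 t 0 + 4 * K * x0) +
      2 * K * (1 / 2 - t0)) (𝓝[<] (1 / 2 : ℝ))
      (𝓝 (0 + 16 * x0 * (0 + 4 * K * x0) + 2 * K * (1 / 2 - t0))) :=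
    ((ya_tendsto S).add (((ta_tendsto S).add_const _).const_mul _)).add_const _
  have c3 := ge_of_tendsto hlim (b := PF (fun _ => Cf x0) g t0) (by
    filter_upwards [Ico_mem_nhdsLT ht0.2] with t ht
    exact c2 t ht)
  have c4 : 0 + 16 * x0 * (0 + 4 * K * x0) + 2 * K * (1 / 2 - t0) = 3202 * K * (1 / 2 - t0) := by
    have : x0 ^ 2 = 50 * (1 / 2 - t0) := by rw [hx0, mul_pow, hr2]; ring
    linear_combination (64 * K) * this
  rw [c4] at c3
  calc _ ≤ (45 / 2) ^ 8 * PF (fun _ => Cf x0) g t0 := c1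
    _ ≤ (45 / 2) ^ 8 * (3202 * K * (1 / 2 - t0)) := mul_le_mul_of_nonneg_left c3 (by norm_num)
    _ = _ := by ring

/-- the curvature of the arm is unbounded near the origin -/
theorem arms_unbounded {δ K : ℝ} (hδ : 0 < δ) (hK : 0 ≤ K) :
    ¬ ∀ᶠ t in 𝓝[<] (1 / 2 : ℝ), CB g K δ t := by
  intro hcb
  obtain ⟨c, hc, hlow⟩ := lower_bound S
  obtain ⟨t1, ht1, hsub⟩ := (mem_nhdsLT_iff_exists_Ioo_subset).1 ((late S).and hcb)
  have hL : ∀ t ∈ Ioo t1 (1 / 2), Late g t ∧ CB g K δ t := fun t ht => hsub ht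
  have ht1' : t1 < 1 / 2 := ht1
  have hτ : Tendsto (fun t : ℝ => 1 / 2 - t) (𝓝[<] (1 / 2 : ℝ)) (𝓝[>] 0) := by
    refine tendsto_nhdsWithin_iff.2 ⟨?_, ?_⟩
    · have : Tendsto (fun t : ℝ => 1 / 2 - t) (𝓝[<] (1 / 2 : ℝ)) (𝓝 (1 / 2 - 1 / 2)) :=
        ((continuous_const.sub continuous_id).tendsto (1 / 2)).mono_left nhdsWithin_le_nhds
      rwa [sub_self] at this
    · filter_upwards [self_mem_nhdsWithin] with s hs
      have : s < 1 / 2 := hs
      show 0 < 1 / 2 - s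
      linarith
  set C := (45 / 2 : ℝ) ^ 8 * (3202 * K) with hC
  have hbd : ∀ᶠ t in 𝓝[<] (1 / 2 : ℝ), c ≤ C * Real.exp (1 / 100 * Real.log (1 / 2 - t)) := by
    filter_upwards [hlow, Ioo_mem_nhdsLT ht1', rr_small (c := 35) hδ] with t h1 h2 h3
    have h4 := upper_of_CB S hK hL h2 h3
    have hT : 0 < 1 / 2 - t := by linarith [h2.2]
    have e : (1 / 2 - t) = Real.exp (99 / 100 * Real.log (1 / 2 - t)) *
        Real.exp (1 / 100 * Real.log (1 / 2 - t)) := by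
      rw [← Real.exp_add]
      have : 99 / 100 * Real.log (1 / 2 - t) + 1 / 100 * Real.log (1 / 2 - t) =
        Real.log (1 / 2 - t) := by ring
      rw [this, Real.exp_log hT]
    have h5 : c * Real.exp (99 / 100 * Real.log (1 / 2 - t)) ≤
        C * Real.exp (1 / 100 * Real.log (1 / 2 - t)) *
          Real.exp (99 / 100 * Real.log (1 / 2 - t)) := by
      refine h1.trans (h4.trans (le_of_eq ?_))
      calc C * (1 / 2 - t) = C * (Real.exp (99 / 100 * Real.log (1 / 2 - t)) *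
        Real.exp (1 / 100 * Real.log (1 / 2 - t))) := by rw [← e]
        _ = _ := by ring
    exact le_of_mul_le_mul_right h5 (Real.exp_pos _)
  have hlim : Tendsto (fun t : ℝ => C * Real.exp (1 / 100 * Real.log (1 / 2 - t)))
      (𝓝[<] (1 / 2 : ℝ)) (𝓝 0) := by
    have h1 : Tendsto (fun t : ℝ => 1 / 100 * Real.log (1 / 2 - t)) (𝓝[<] (1 / 2 : ℝ)) atBot :=
      (Real.tendsto_log_nhdsGT_zero.comp hτ).const_mul_atBot (by norm_num)
    simpa using (Real.tendsto_exp_atBot.comp h1).const_mul C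
  have := ge_of_tendsto hlim hbd
  linarith

end

end Run7.h661u
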