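import Pool.Agent.Run7.h661.U.Region
import Pool.Agent.Run7.h661.U.Unb
import Pool.Agent.Run7.h661.V.Shift

/-!
# A collapsing region with an issuing curve whose curvature is unbounded
-/

open Set Filter Topology MeasureTheory
open scoped Real ContDiff

namespace Run7.h661u

open Run7.h661x Run7.h661z Run7.h661v
open Run7.h661y (cang cang0 cang1 cang2 HypE xa ya yM rr rr_pos tendsto_rr rr_sq dp thp)

/-- the curves bounding the upper region -/
def Bd : Set Arc := {.bar, .short true true, .short false true, .cap true}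

/-! ### lengths -/

lemma len_le {P : Pd} {t : ℝ} (S : P.Sl t) {F F' : ℝ → ℝ}
    (hF : ∀ p ∈ Icc (0:ℝ) 1, HasDerivWithinAt F (F' p) (Icc 0 1) p)
    (hF' : ContinuousOn F' (Icc 0 1)) (hle : ∀ p ∈ Icc (0:ℝ) 1, P.ro t p ≤ F' p) :
    0 ≤ len (P.c t) ∧ len (P.c t) ≤ F 1 - F 0 := by
  have hu : uIcc (0:ℝ) 1 = Icc 0 1 := uIcc_of_le zero_le_one
  have e : len (P.c t) = ∫ p in (0:ℝ)..1, P.ro t p := by
    rw [len]
    apply intervalIntegral.integral_congr
    intro p hp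
    rw [hu] at hp
    exact S.norm hp
  have hc : ContinuousOn (P.ro t) (Icc 0 1) := fun p hp => (S.pr p hp).continuousWithinAt
  have hcF : ContinuousOn F (Icc 0 1) := fun p hp => (hF p hp).continuousWithinAt
  have e2 : ∫ p in (0:ℝ)..1, F' p = F 1 - F 0 := by
    apply intervalIntegral.integral_eq_sub_of_hasDerivAt_of_le zero_le_one hcF
    · intro p hp
      exact (hF p ⟨hp.1.le, hp.2.le⟩).hasDerivAt (Icc_mem_nhds hp.1 hp.2)
    · exact (hF'.mono hu.subset).intervalIntegrable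
  rw [e]
  refine ⟨intervalIntegral.integral_nonneg zero_le_one (fun p hp => (S.pos p hp).le), ?_⟩
  rw [← e2]
  exact intervalIntegral.integral_mono_on zero_le_one (hc.mono hu.subset).intervalIntegrable
    (hF'.mono hu.subset).intervalIntegrable hle

section
variable {Ps Pc Pa Pb : Pd} {t R h xa ya φ xb : ℝ} (N : NS Ps Pc Pa Pb t R h xa ya φ xb)
include N

lemma bd_len {i : Arc} (hi : i ∈ Bd) : 0 ≤ len ((net Ps Pc Pa Pb i).c t) ∧
    len ((net Ps Pc Pa Pb i).c t) ≤ 4 * xa := by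
  have hpi := Real.pi_pos
  have hxa := N.xa0
  have hyx := N.yx
  obtain ⟨hxb, hxb2⟩ := N.xb0
  have crs : ContinuousOn (Ps.ro t) (Icc 0 1) := fun p hp => (N.s.pr p hp).continuousWithinAt
  have cas : ContinuousOn (Ps.al t) (Icc 0 1) := fun p hp => (N.s.pal p hp).continuousWithinAt
  have crc : ContinuousOn (Pc.ro t) (Icc 0 1) := fun p hp => (N.c.pr p hp).continuousWithinAt
  have cac : ContinuousOn (Pc.al t) (Icc 0 1) := fun p hp => (N.c.pal p hp).continuousWithinAt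
  have crb : ContinuousOn (Pb.ro t) (Icc 0 1) := fun p hp => (N.b.pr p hp).continuousWithinAt
  have cab : ContinuousOn (Pb.al t) (Icc 0 1) := fun p hp => (N.b.pal p hp).continuousWithinAt
  have hs : ∀ σ τ, 0 ≤ len ((net Ps Pc Pa Pb (.short σ τ)).c t) ∧
      len ((net Ps Pc Pa Pb (.short σ τ)).c t) ≤ 4 * xa := by
    intro σ τ
    have h1 := len_le (N.net_sl (.short σ τ)) (F := fun p => -2 * Ps.y t p)
      (F' := fun p => -2 * (Ps.ro t p * Real.sin (Ps.al t p)))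
      (fun p hp => (N.s.py p hp).const_mul _) (by fun_prop) (fun p hp => by
        obtain ⟨a1, a2⟩ := N.sa p hp
        have h2 := N.s.pos p hp
        have h3 : Real.sin (Ps.al t p) ≤ -(1 / 2) := by
          have : 1 / 2 ≤ Real.sin (-Ps.al t p) := by
            have s3 := s3_gt
            rw [← Real.cos_pi_div_two_sub]
            have e : (1:ℝ) / 2 = Real.cos (π / 3) := Real.cos_pi_div_three.symm
            rw [e, ← Real.cos_abs (π / 2 - -Ps.al t p)]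
            exact Real.cos_le_cos_of_nonneg_of_le_pi (abs_nonneg _) (by linarith)
              (abs_le.2 ⟨by linarith, by linarith⟩)
          rw [Real.sin_neg] at this
          linarith
        show Ps.ro t p ≤ _
        nlinarith)
    refine ⟨h1.1, h1.2.trans ?_⟩
    show -2 * Ps.y t 1 - -2 * Ps.y t 0 ≤ 4 * xa
    rw [N.s1.2.1, N.s0.2.1]
    linarith
  rcases hi with rfl | rfl | rfl | hi
  · have h1 := len_le (N.net_sl .bar) (F := Pb.x t)
      (F' := fun p => Pb.ro t p * Real.cos (Pb.al t p)) (fun p hp => N.b.px p hp) (by fun_prop)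
      (fun p hp => by
        show Pb.ro t p ≤ _
        rw [(N.b0 p).2.2, Real.cos_zero, mul_one])
    refine ⟨h1.1, h1.2.trans ?_⟩
    rw [(N.b0 1).1, (N.b0 0).1]
    linarith
  · exact hs _ _
  · exact hs _ _
  · rw [mem_singleton_iff] at hi
    subst hi
    have h1 := len_le (N.net_sl (.cap true)) (F := fun p => -2 * Pc.x t p)
      (F' := fun p => -2 * (Pc.ro t p * Real.cos (Pc.al t p)))
      (fun p hp => (N.c.px p hp).const_mul _) (by fun_prop) (fun p hp => by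
        obtain ⟨a1, a2, -, -⟩ := N.ca p hp
        have h2 := N.c.pos p hp
        have h3 : Real.cos (Pc.al t p) ≤ -(1 / 2) := by
          have : 1 / 2 ≤ Real.cos (Pc.al t p - π) := by
            have e : (1:ℝ) / 2 = Real.cos (π / 3) := Real.cos_pi_div_three.symm
            rw [e, ← Real.cos_abs (Pc.al t p - π)]
            exact Real.cos_le_cos_of_nonneg_of_le_pi (abs_nonneg _) (by linarith)
              (abs_le.2 ⟨by linarith, by linarith⟩)
          rw [Real.cos_sub_pi] at this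
          linarith
        show Pc.ro t p ≤ _
        nlinarith)
    refine ⟨h1.1, h1.2.trans ?_⟩
    show -2 * Pc.x t 1 - -2 * Pc.x t 0 ≤ 4 * xa
    rw [N.c1.1, N.c0.1]
    linarith

end

/-! ### the arms -/

section
variable {g : Fin 3 → ℝ → ℝ → ℂ} {a : AFd} {T1 : ℝ} (S : St T1 a g)
include S

lemma NN_ns_pos {t : ℝ} (ht : t ∈ Ioo 0 T1) :
    NS ((edP a0 0).gl (edP a 0)) ((caP a0 (fun _ _ => 1 / rc)).gl (caP a a.cK))
    ((edP a0 2).gl (edP a 2)) ((baP a0).gl (baP a)) t RR hh (a.X 0 t 0) (a.Y 0 t 0) (a.th 0 t 0)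
      (a.X 0 t 1) := by
  refine ⟨NS0_glt ht.1 (NSt S ht), (ba_sl (NSt S ht).xb0.1).glt ht.1, fun p => ?_⟩
  have e : ∀ {x y : ℝ}, (if t ≤ 0 then x else y) = y := fun {x y} => if_neg (not_le.2 ht.1)
  simp only [Pd.gl, e, baP]
  exact ⟨trivial, trivial, trivial⟩

lemma thp_eq {t : ℝ} (ht : t ∈ Ioo 0 T1) {p : ℝ} (hp : p ∈ Icc (0:ℝ) 1) :
    thp (g 2) t p = a.k 2 t p * ‖dp (g 2) t p‖ := by
  have hr := S.A.pos 2 t ht p hp
  have hrc : (a.ro 2 t p : ℂ) ≠ 0 := by exact_mod_cast hr.ne'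
  have hW := W_ne (a := a) 2 t p
  have e2 : Run7.h661y.dp (Run7.h661y.dp (g 2)) t p / Run7.h661y.dp (g 2) t p =
      (((2 * (a.L 2 t - a.L 0 t) / a.ro 2 t p : ℝ) : ℂ)) + ((a.D 2 t p : ℝ) : ℂ) * Complex.I := by
    rw [S.C.ppW S.A 2 ht hp, S.C.pW S.A 2 ht hp]
    push_cast
    field_simp
  have im : ∀ x y : ℝ, ((x : ℂ) + (y : ℂ) * Complex.I).im = y := fun x y => by simp
  rw [thp, e2, im, S.C.norm S.A 2 ht hp, S.A.D_eq 2 ht hp]

lemma arm_curv {t : ℝ} (ht : t ∈ Ioo 0 T1) {p : ℝ} (hp : p ∈ Icc (0:ℝ) 1) (σ τ : Bool) :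
    |curv ((NN a (.arm σ τ)).c t) p| * ‖dp (g 2) t p‖ = |thp (g 2) t p| ∧
      ‖(NN a (.arm σ τ)).c t p‖ = ‖g 2 t p‖ := by
  have e : ∀ {x y : ℝ}, (if t ≤ 0 then x else y) = y := fun {x y} => if_neg (not_le.2 ht.1)
  constructor
  · rw [((NN_fl S (.arm σ τ)).sl t ⟨ht.1.le, ht.2⟩).curv_eq hp, thp_eq S ht hp]
    have : (NN a (.arm σ τ)).k t p = sg σ * (sg τ * a.k 2 t p) := by
      simp only [NN, net, Pd.refl, Pd.gl, e, edP]
      ring
    rw [this, sg_abs, sg_abs, abs_mul, abs_of_nonneg (norm_nonneg _)]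
  · have h1 : ((NN a (.arm σ τ)).c t p).re = sg σ * (g 2 t p).re := by
      rw [c_re, (S.C.re_eq S.A 2 ht hp).1]
      simp only [NN, net, Pd.refl, Pd.gl, e, edP]
    have h2 : ((NN a (.arm σ τ)).c t p).im = sg τ * (g 2 t p).im := by
      rw [c_im, (S.C.re_eq S.A 2 ht hp).2]
      simp only [NN, net, Pd.refl, Pd.gl, e, edP]
    rw [← Real.sqrt_sq (norm_nonneg ((NN a (.arm σ τ)).c t p)), ← Real.sqrt_sq (norm_nonneg (g 2 t p)),
      Complex.sq_norm, Complex.sq_norm, Complex.normSq_apply, Complex.normSq_apply, h1, h2]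
    congr 1
    have s1 := sg_sq σ
    have s2 := sg_sq τ
    linear_combination ((g 2 t p).re * (g 2 t p).re) * s1 + ((g 2 t p).im * (g 2 t p).im) * s2

end

section
variable {g : Fin 3 → ℝ → ℝ → ℂ} {a : AFd} (S : St (1 / 2) a g)
include S

lemma NN_unbounded (σ τ : Bool) {δ : ℝ} (hδ : 0 < δ) (K : ℝ) :
    ∃ᶠ t in 𝓝[<] (1 / 2 : ℝ), ∃ p ∈ Icc (0:ℝ) 1, ‖(NN a (.arm σ τ)).c t p‖ < δ ∧
      K < |curv ((NN a (.arm σ τ)).c t) p| := by
  have h1 : ∃ᶠ t in 𝓝[<] (1 / 2 : ℝ), ¬ CB g (max K 0) δ t := by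
    rw [Filter.Frequently]
    intro h2
    refine arms_unbounded S hδ (le_max_right K 0) (h2.mono (fun t ht => ?_))
    exact not_not.1 ht
  have h2 : ∀ᶠ t in 𝓝[<] (1 / 2 : ℝ), t ∈ Ioo 0 (1 / 2 : ℝ) := Ioo_mem_nhdsLT (by norm_num)
  refine (h1.and_eventually h2).mono (fun t ht => ?_)
  obtain ⟨h3, h4⟩ := ht
  rw [CB] at h3
  push Not at h3
  obtain ⟨p, hp, h5, h6⟩ := h3
  obtain ⟨k1, k2⟩ := arm_curv S h4 hp σ τ
  refine ⟨p, hp, k2 ▸ h5, ?_⟩
  rw [← k1] at h6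
  have h7 : 0 < ‖dp (g 2) t p‖ := by
    rw [S.C.norm S.A 2 h4 hp]
    exact S.A.pos 2 t h4 p hp
  exact (le_max_left K 0).trans_lt (lt_of_mul_lt_mul_right h6 h7.le)

end

/-! ### the region -/

lemma bd_union {f : Arc → Set ℂ} : (⋃ i ∈ Bd, f i) =
    f .bar ∪ f (.short true true) ∪ f (.short false true) ∪ f (.cap true) := by
  simp only [Bd, mem_insert_iff, mem_singleton_iff, iUnion_iUnion_eq_or_left,
    iUnion_iUnion_eq_left]
  simp only [union_assoc]

section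
variable {g : Fin 3 → ℝ → ℝ → ℂ} {a : AFd} {T1 : ℝ} (S : St T1 a g)
include S

lemma NN_region : ∃ U : ℝ → Set ℂ, ∀ t ∈ Ioo 0 T1, IsRegion (fun i => (NN a i).c t) (U t) ∧
    frontier (U t) = ⋃ i ∈ Bd, (NN a i).c t '' Icc 0 1 ∧ ∀ z ∈ U t, ‖z‖ ≤ 7 * a.X 0 t 0 := by
  have h : ∀ t, ∃ U : Set ℂ, t ∈ Ioo 0 T1 → IsRegion (fun i => (NN a i).c t) U ∧
      frontier U = ⋃ i ∈ Bd, (NN a i).c t '' Icc 0 1 ∧ ∀ z ∈ U, ‖z‖ ≤ 7 * a.X 0 t 0 := by
    intro t
    by_cases ht : t ∈ Ioo 0 T1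
    · obtain ⟨U, h1, h2, h3⟩ := Run7.h661u.region (NN_ns_pos S ht)
      exact ⟨U, fun _ => ⟨h1, h2.trans (bd_union (f := fun i => (NN a i).c t '' Icc 0 1)).symm, h3⟩⟩
    · exact ⟨∅, fun h => absurd h ht⟩
  choose U hU using h
  exact ⟨U, fun t ht => hU t ht⟩

lemma NN_ends {t : ℝ} (ht : t ∈ Ioo 0 T1) (σ : Bool) :
    (NN a (.arm σ true)).c t 0 = (NN a (.short σ true)).c t 0 ∧
      ‖(NN a (.arm σ true)).c t 1‖ = rB := by
  have N := NN_ns_pos S ht
  constructor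
  · exact (N.endpt_iff (.short σ true, false) (.arm σ true, false)).2 rfl
  · obtain ⟨h1, h2⟩ := N.endpt_re (.arm σ true, true)
    have h3 : ((NN a (.arm σ true)).c t 1).re = sg σ * RR := h1
    have h4 : ((NN a (.arm σ true)).c t 1).im = sg true * hh := h2
    rw [← Real.sqrt_sq (norm_nonneg _), Complex.sq_norm, Complex.normSq_apply, h3, h4, rB]
    congr 1
    have s1 := sg_sq σ
    have s2 := sg_sq true
    linear_combination (RR * RR) * s1 + (hh * hh) * s2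

end

lemma shift_lt : Tendsto (fun s : ℝ => s + 1 / 8) (𝓝[<] (1 / 2 - 1 / 8)) (𝓝[<] (1 / 2)) := by
  refine tendsto_nhdsWithin_iff.2 ⟨?_, ?_⟩
  · have h : Continuous (fun s : ℝ => s + 1 / 8) := by fun_prop
    have := h.tendsto (1 / 2 - 1 / 8)
    rw [sub_add_cancel] at this
    exact this.mono_left nhdsWithin_le_nhds
  · filter_upwards [self_mem_nhdsWithin] with s hs
    have : s < 1 / 2 - 1 / 8 := hs
    show s + 1 / 8 < 1 / 2
    linarith

lemma shift_lt' : Tendsto (fun s : ℝ => s - 1 / 8) (𝓝[<] (1 / 2)) (𝓝[<] (1 / 2 - 1 / 8)) := by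
  refine tendsto_nhdsWithin_iff.2 ⟨?_, ?_⟩
  · have h : Continuous (fun s : ℝ => s - 1 / 8) := by fun_prop
    exact (h.tendsto (1 / 2)).mono_left nhdsWithin_le_nhds
  · filter_upwards [self_mem_nhdsWithin] with s hs
    have : s < 1 / 2 := hs
    show s - 1 / 8 < 1 / 2 - 1 / 8
    linarith

theorem main : ∃ (r T : ℝ) (γ : Arc → ℝ → ℝ → ℂ) (U : ℝ → Set ℂ), 0 < r ∧ 0 < T ∧
    IsNetworkFlow (Metric.ball (0:ℂ) r) T γ ∧
    (∀ i, ContDiffOn ℝ ∞ (fun q : ℝ × ℝ => γ i q.1 q.2) (Ico 0 T ×ˢ Icc 0 1)) ∧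
    IsSingularTime (Metric.ball (0:ℂ) r) T γ ∧
    Collapses T γ U {.bar, .short true true, .short false true, .cap true} 0 ∧
    ∀ σ : Bool, (∀ t ∈ Ico 0 T, γ (.arm σ true) t 0 ∈ frontier (U t) ∧
        ‖γ (.arm σ true) t 1‖ = r) ∧
      ∀ δ > 0, ∀ K : ℝ, ∃ᶠ t in 𝓝[<] T, ∃ p ∈ Icc (0:ℝ) 1, ‖γ (.arm σ true) t p‖ < δ ∧
        K < |curv (γ (.arm σ true) t) p| := by
  obtain ⟨g, S⟩ := exists_flow
  obtain ⟨t, b, C, ht, hlim, hc⟩ := cell S
  obtain ⟨U, hU⟩ := NN_region S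
  have F := NN_flow S
  have h8 : (0:ℝ) < 1 / 8 := by norm_num
  have hts : ∀ n, t n - 1 / 8 ∈ Ioo 0 (1 / 2 - 1 / 8 : ℝ) := fun n =>
    ⟨by linarith [(ht n).1], by linarith [(ht n).2]⟩
  have hls : Tendsto (fun n => t n - 1 / 8) atTop (𝓝 (1 / 2 - 1 / 8)) := hlim.sub_const _
  have hcs : ConvergesToCell (fun n i => rescale (1 / 2 - 1 / 8) (t n - 1 / 8) 0
      ((NN AA i).c (t n - 1 / 8 + 1 / 8))) b C := by
    have e : (fun n i => rescale (1 / 2 - 1 / 8) (t n - 1 / 8) 0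
        ((NN AA i).c (t n - 1 / 8 + 1 / 8))) =
        (fun n i => rescale (1 / 2) (t n) 0 ((NN AA i).c (t n))) := by
      funext n i p
      rw [rescale, rescale, sub_add_cancel]
      have : (1 / 2 - 1 / 8 - (t n - 1 / 8) : ℝ) = 1 / 2 - t n := by ring
      rw [this]
    rw [e]
    exact hc
  have hm : ∀ s ∈ Ico 0 (1 / 2 - 1 / 8 : ℝ), s + 1 / 8 ∈ Ioo 0 (1 / 2 : ℝ) := fun s hs =>
    ⟨by linarith [hs.1], by linarith [hs.2]⟩
  -- the size of the region
  have hxa : ∀ᶠ s in 𝓝[<] (1 / 2 : ℝ), 0 < AA.X 0 s 0 ∧ AA.X 0 s 0 ≤ 2 * rr (1 / 2) s := by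
    filter_upwards [late S] with s hs
    have hsI : s ∈ Ioo 0 (1 / 2 : ℝ) := ⟨by linarith [hs.mem.1], hs.mem.2⟩
    have hr := rr_pos hs.mem.2
    have := hs.xa_le
    rw [← (S.junc_eq hsI 0).1] at this
    exact ⟨(NN_ns_pos S hsI).xa0, by linarith⟩
  have hrr : ∀ c : ℝ, Tendsto (fun s => c * rr (1 / 2) s) (𝓝[<] (1 / 2)) (𝓝 0) := by
    intro c
    simpa using (tendsto_rr (1 / 2)).const_mul c
  have hUb : ∀ᶠ s in 𝓝[<] (1 / 2 : ℝ), U s ⊆ Metric.closedBall 0 (14 * rr (1 / 2) s) := by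
    filter_upwards [hxa, Ioo_mem_nhdsLT (by norm_num : (0:ℝ) < 1 / 2)] with s hs hsI z hz
    rw [mem_closedBall_zero_iff]
    have := (hU s hsI).2.2 z hz
    linarith [hs.2]
  refine ⟨rB, 1 / 2 - 1 / 8, fun i s => (NN AA i).c (s + 1 / 8), fun s => U (s + 1 / 8),
    rB_pos hh_pos, by norm_num,
    shift_flow F h8 (fun e s hs he => NN_fixed S e ⟨by norm_num, by norm_num⟩
      ⟨h8.le.trans hs.1, hs.2⟩ he), fun i => shift_smooth F h8 i,
    singular_of_cell (by norm_num) hts hls hcs,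
    ⟨fun s hs => (hU _ (hm s hs)).1, fun s hs => (hU _ (hm s hs)).2.1, ?_, fun ε hε => ?_,
      fun i hi => ?_⟩,
    fun σ => ⟨fun s hs => ⟨?_, (NN_ends S (hm s hs) σ).2⟩, fun δ hδ K => ?_⟩⟩
  · -- area
    have h1 : Tendsto (fun s => ENNReal.ofReal (14 * rr (1 / 2) s) ^ 2 * (NNReal.pi : ENNReal))
        (𝓝[<] (1 / 2)) (𝓝 0) := by
      have h2 := ENNReal.tendsto_ofReal (hrr 14)
      have h3 := ENNReal.Tendsto.mul_const (ENNReal.Tendsto.pow (n := 2) h2)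
        (b := (NNReal.pi : ENNReal)) (Or.inr ENNReal.coe_ne_top)
      simpa using h3
    have h2 : Tendsto (fun s => volume (U s)) (𝓝[<] (1 / 2)) (𝓝 0) := by
      refine tendsto_of_tendsto_of_tendsto_of_le_of_le' tendsto_const_nhds h1
        (Eventually.of_forall (fun _ => zero_le)) ?_
      filter_upwards [hUb] with s hs
      refine (measure_mono hs).trans ?_
      rw [Complex.volume_closedBall]
    exact h2.comp shift_lt
  · -- the point
    have h1 : ∀ᶠ s in 𝓝[<] (1 / 2 : ℝ), U s ⊆ Metric.ball 0 ε := by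
      filter_upwards [hUb, (hrr 14).eventually (gt_mem_nhds hε)] with s h1 h2
      exact h1.trans (Metric.closedBall_subset_ball h2)
    exact shift_lt.eventually h1
  · -- the lengths
    have h1 : Tendsto (fun s => len ((NN AA i).c s)) (𝓝[<] (1 / 2)) (𝓝 0) := by
      refine tendsto_of_tendsto_of_tendsto_of_le_of_le' tendsto_const_nhds (hrr 8) ?_ ?_
      · filter_upwards [Ioo_mem_nhdsLT (by norm_num : (0:ℝ) < 1 / 2)] with s hs
        exact (bd_len (NN_ns_pos S hs) hi).1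
      · filter_upwards [hxa, Ioo_mem_nhdsLT (by norm_num : (0:ℝ) < 1 / 2)] with s h2 hs
        have := (bd_len (NN_ns_pos S hs) hi).2
        exact this.trans (by linarith [h2.2])
    exact h1.comp shift_lt
  · show (NN AA (.arm σ true)).c (s + 1 / 8) 0 ∈ frontier (U (s + 1 / 8))
    rw [(hU _ (hm s hs)).2.1, (NN_ends S (hm s hs) σ).1, bd_union]
    have h0 : (NN AA (.short σ true)).c (s + 1 / 8) 0 ∈
        (NN AA (.short σ true)).c (s + 1 / 8) '' Icc 0 1 := ⟨0, ⟨le_refl _, zero_le_one⟩, rfl⟩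
    cases σ
    · exact Or.inl (Or.inr h0)
    · exact Or.inl (Or.inl (Or.inr h0))
  · refine shift_lt'.frequently ((NN_unbounded S σ true hδ K).mono (fun s hs => ?_))
    simpa only [sub_add_cancel] using hs

end Run7.h661u
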