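import Pool.Agent.Run7.h661.U.Inv
import Pool.Agent.Run7.h661.Z.Net
import Pool.Agent.Run7.h661.U.Defs2

/-!
# The upper cell is a region of the network
-/

open Set Filter Topology
open scoped Real ContDiff

namespace Run7.h661u

open Run7.h661z

/-- the point `(x,y)` -/
noncomputable def pt (x y : ℝ) : ℂ := (x : ℂ) + (y : ℂ) * Complex.I

lemma pt_re (x y : ℝ) : (pt x y).re = x := by simp [pt]
lemma pt_im (x y : ℝ) : (pt x y).im = y := by simp [pt]
lemma pt_eq (z : ℂ) : pt z.re z.im = z := Complex.re_add_im z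

lemma closure_ext {c : ℝ → ℂ} {S : Set ℂ} (hc : ContinuousOn c (Icc 0 1))
    (h : ∀ p ∈ Ioo (0:ℝ) 1, c p ∈ closure S) : ∀ p ∈ Icc (0:ℝ) 1, c p ∈ closure S := by
  have h1 : closure (Ioo (0:ℝ) 1) = Icc 0 1 := closure_Ioo zero_ne_one
  have h2 : MapsTo c (Ioo (0:ℝ) 1) (closure S) := h
  have h3 := h2.closure_of_continuousOn (by rw [h1]; exact hc)
  rw [h1, closure_closure] at h3
  exact h3

section
variable {Ps Pc Pa Pb : Pd} {t R h xa ya φ xb : ℝ} (N : NS Ps Pc Pa Pb t R h xa ya φ xb)
include N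

/-- the graph functions of the boundary of the cell -/
lemma graphs : ∃ Xs Tp : ℝ → ℝ, Continuous Xs ∧ Continuous Tp ∧
    (∀ y, 0 < Xs y ∧ Xs y ≤ 2 * xa) ∧ (∀ x, ya ≤ Tp x ∧ Tp x ≤ 5 * xa) ∧
    (∀ p ∈ Icc (0:ℝ) 1, Xs (Ps.y t p) = Ps.x t p) ∧
    (∀ y ∈ Icc 0 ya, ∃ p ∈ Icc (0:ℝ) 1, Ps.y t p = y ∧ Ps.x t p = Xs y) ∧
    (∀ y, ya ≤ y → Xs y = xa) ∧ Xs 0 = xb ∧
    (∀ p ∈ Icc (0:ℝ) 1, Tp (Pc.x t p) = Pc.y t p) ∧
    (∀ x ∈ Icc (-xa) xa, ∃ p ∈ Icc (0:ℝ) 1, Pc.x t p = x ∧ Pc.y t p = Tp x) ∧
    (∀ x, xa ≤ |x| → Tp x = ya) := by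
  have z0 : (0:ℝ) ∈ Icc (0:ℝ) 1 := ⟨le_refl _, zero_le_one⟩
  have z1 : (1:ℝ) ∈ Icc (0:ℝ) 1 := ⟨zero_le_one, le_refl _⟩
  have cx : ContinuousOn (Ps.x t) (Icc 0 1) := fun p hp => (N.s.px p hp).continuousWithinAt
  have cy : ContinuousOn (Ps.y t) (Icc 0 1) := fun p hp => (N.s.py p hp).continuousWithinAt
  have dx : ContinuousOn (Pc.x t) (Icc 0 1) := fun p hp => (N.c.px p hp).continuousWithinAt
  have dy : ContinuousOn (Pc.y t) (Icc 0 1) := fun p hp => (N.c.py p hp).continuousWithinAt
  obtain ⟨φs, s1, s2, s3, s4, s5⟩ := inv_cont (f := fun p => -Ps.y t p) cy.neg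
    (fun p hp q hq hpq => neg_lt_neg (N.s_anti hp hq hpq))
  obtain ⟨φc, c1, c2, c3, c4, c5⟩ := inv_cont (f := fun p => -Pc.x t p) dx.neg
    (fun p hp q hq hpq => neg_lt_neg (N.c_anti hp hq hpq))
  simp only [N.s0.2.1, N.s1.2.1] at s3 s4 s5
  simp only [N.c0.1, N.c1.1, neg_neg] at c3 c4 c5
  have hxa := N.xa0
  have hya := N.ya0
  refine ⟨fun y => Ps.x t (φs (-y)), fun x => Pc.y t (φc (-x)),
    cx.comp_continuous (s1.comp continuous_neg) (fun y => s2 _),
    dy.comp_continuous (c1.comp continuous_neg) (fun x => c2 _),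
    fun y => ⟨(N.s_x (s2 _)).1, (N.s_x (s2 _)).2.1⟩, fun x => N.c_y (c2 _), fun p hp => ?_,
    fun y hy => ?_, fun y hy => ?_, ?_, fun p hp => ?_, fun x hx => ?_, fun x hx => ?_⟩
  · have h1 := N.s_y hp
    have h2 := s3 (-Ps.y t p) ⟨by linarith [h1.2.1], by linarith [h1.1]⟩
    have h3 : φs (-Ps.y t p) = p := N.s_anti.injOn (s2 _) hp (by linarith)
    simp only [h3]
  · have h2 := s3 (-y) ⟨by linarith [hy.2], by linarith [hy.1]⟩
    exact ⟨φs (-y), s2 _, by linarith, rfl⟩
  · have h2 := s4 (-y) (by linarith)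
    simp only [h2]; exact N.s0.1
  · have h2 := s5 (-0) (by simp)
    simp only [h2]; exact N.s1.1
  · have h1 := N.c_x hp
    have h2 := c3 (-Pc.x t p) ⟨by linarith [h1.2.1], by linarith [h1.1]⟩
    have h3 : φc (-Pc.x t p) = p := N.c_anti.injOn (c2 _) hp (by linarith)
    simp only [h3]
  · have h2 := c3 (-x) ⟨by linarith [hx.2], by linarith [hx.1]⟩
    exact ⟨φc (-x), c2 _, by linarith, rfl⟩
  · rcases le_abs.1 hx with h | h
    · have h2 := c4 (-x) (by linarith)
      simp only [h2]; exact N.c0.2.1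
    · have h2 := c5 (-x) (by linarith)
      simp only [h2]; exact N.c1.2.1

/-- the region bounded by the bar, the upper short curves and the upper cap -/
theorem region : ∃ U : Set ℂ, IsRegion (fun i => (net Ps Pc Pa Pb i).c t) U ∧
    frontier U = (net Ps Pc Pa Pb .bar).c t '' Icc 0 1 ∪
      (net Ps Pc Pa Pb (.short true true)).c t '' Icc 0 1 ∪
      (net Ps Pc Pa Pb (.short false true)).c t '' Icc 0 1 ∪
      (net Ps Pc Pa Pb (.cap true)).c t '' Icc 0 1 ∧
    ∀ z ∈ U, ‖z‖ ≤ 7 * xa := by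
  obtain ⟨Xs, Tp, hXc, hTc, hXb, hTb, hX1, hX2, hX3, hX0, hT1, hT2, hT3⟩ := graphs N
  have hxa := N.xa0
  have hya := N.ya0
  obtain ⟨hxb, hxb2⟩ := N.xb0
  set G : ℂ → ℝ := fun z => min z.im (min (Tp z.re - z.im) (Xs z.im - |z.re|)) with hG
  have hGc : Continuous G := by
    have h1 := Complex.continuous_re
    have h2 := Complex.continuous_im
    have h3 : Continuous (fun z : ℂ => Tp z.re) := hTc.comp h1
    have h4 : Continuous (fun z : ℂ => Xs z.im) := hXc.comp h2
    exact h2.min ((h3.sub h2).min (h4.sub h1.abs))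
  have hGpos : ∀ z, 0 < G z ↔ 0 < z.im ∧ z.im < Tp z.re ∧ |z.re| < Xs z.im := by
    intro z
    simp only [hG, lt_min_iff, sub_pos]
  -- the network is outside
  have hnet : ∀ i, ∀ p ∈ Icc (0:ℝ) 1, G ((net Ps Pc Pa Pb i).c t p) ≤ 0 := by
    intro i p hp
    by_contra hcon
    push Not at hcon
    obtain ⟨g1, g2, g3⟩ := (hGpos _).1 hcon
    rw [c_im] at g1 g2 g3
    rw [c_re] at g2 g3
    rcases i with (_ | ⟨σ, τ⟩ | τ | ⟨σ, τ⟩)
    · simp only [net] at g1
      rw [(N.b0 p).2.1] at g1
      exact lt_irrefl _ g1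
    · simp only [net, Pd.refl] at g1 g2 g3
      have hs := (N.s_y hp).1
      cases τ
      · simp only [sg, cond_false] at g1
        linarith
      · simp only [sg_abs, show sg true = 1 from rfl, one_mul] at g3
        rw [hX1 p hp, abs_of_pos (N.s_x hp).1] at g3
        exact lt_irrefl _ g3
    · simp only [net, Pd.refl] at g1 g2 g3
      have hs := (N.c_y hp).1
      cases τ
      · simp only [sg, cond_false] at g1
        linarith
      · simp only [show sg true = 1 from rfl, one_mul] at g2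
        rw [hT1 p hp] at g2
        exact lt_irrefl _ g2
    · simp only [net, Pd.refl] at g1 g2 g3
      have hs := (N.a_y hp).1
      have hs2 := (N.a_x hp).1
      cases τ
      · simp only [sg, cond_false] at g1
        linarith
      · simp only [sg_abs, show sg true = 1 from rfl, one_mul] at g3
        rw [hX3 _ hs, abs_of_pos (by linarith)] at g3
        linarith
  -- the zero set is in the network
  have hzero : ∀ z, G z = 0 → z ∈ (net Ps Pc Pa Pb .bar).c t '' Icc 0 1 ∪
      (net Ps Pc Pa Pb (.short true true)).c t '' Icc 0 1 ∪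
      (net Ps Pc Pa Pb (.short false true)).c t '' Icc 0 1 ∪
      (net Ps Pc Pa Pb (.cap true)).c t '' Icc 0 1 := by
    intro z hz
    have g0 : 0 ≤ G z := hz.ge
    simp only [hG, le_min_iff, sub_nonneg] at g0
    obtain ⟨g1, g2, g3⟩ := g0
    have hcase : z.im = 0 ∨ z.im = Tp z.re ∨ |z.re| = Xs z.im := by
      by_contra hcon
      push Not at hcon
      obtain ⟨k1, k2, k3⟩ := hcon
      have : 0 < G z := (hGpos z).2 ⟨lt_of_le_of_ne g1 k1.symm, lt_of_le_of_ne g2 k2,
        lt_of_le_of_ne g3 k3⟩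
      linarith
    have hy : 0 < z.im → z.im = Tp z.re → |z.re| ≤ xa := by
      intro h1 h2
      by_contra hcon
      push Not at hcon
      rw [hT3 _ hcon.le] at h2
      rw [h2, hX3 ya (le_refl _)] at g3
      linarith
    rcases eq_or_lt_of_le g1 with h0 | h0
    · -- the bar
      left; left; left
      rw [← h0, hX0] at g3
      have h2 := abs_le.1 g3
      refine ⟨(z.re / xb + 1) / 2, ⟨?_, ?_⟩, ?_⟩
      · have : -1 ≤ z.re / xb := by rw [le_div_iff₀ hxb]; linarith
        linarith
      · have : z.re / xb ≤ 1 := by rw [div_le_iff₀ hxb]; linarith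
        linarith
      · apply Complex.ext
        · rw [c_re]; simp only [net]; rw [(N.b0 _).1]; field_simp; ring
        · rw [c_im]; simp only [net]; rw [(N.b0 _).2.1, ← h0]
    · rcases hcase with h | h | h
      · exact absurd h h0.ne'
      · -- the cap
        right
        obtain ⟨p, hp, p1, p2⟩ := hT2 z.re (abs_le.1 (hy h0 h))
        refine ⟨p, hp, ?_⟩
        apply Complex.ext
        · rw [c_re]; simp only [net, Pd.refl, show sg true = 1 from rfl, one_mul]; exact p1
        · rw [c_im]; simp only [net, Pd.refl, show sg true = 1 from rfl, one_mul]; rw [p2, h]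
      · rcases le_or_gt z.im ya with hya' | hya'
        · obtain ⟨p, hp, p1, p2⟩ := hX2 z.im ⟨h0.le, hya'⟩
          rcases abs_choice z.re with ha | ha
          · left; left; right
            refine ⟨p, hp, ?_⟩
            apply Complex.ext
            · rw [c_re]; simp only [net, Pd.refl, show sg true = 1 from rfl, one_mul]
              rw [p2, ← h, ha]
            · rw [c_im]; simp only [net, Pd.refl, show sg true = 1 from rfl, one_mul]; rw [p1]
          · left; right
            refine ⟨p, hp, ?_⟩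
            apply Complex.ext
            · rw [c_re]; simp only [net, Pd.refl, show sg false = -1 from rfl]
              rw [p2, ← h, ha]; ring
            · rw [c_im]; simp only [net, Pd.refl, show sg true = 1 from rfl, one_mul]; rw [p1]
        · exfalso
          rw [hX3 _ hya'.le] at h
          rw [hT3 _ h.ge] at g2
          linarith
  -- connectedness
  have hseg : ∀ {z w : ℂ}, (∀ s ∈ Icc (0:ℝ) 1, 0 < G (z + (s:ℂ) * (w - z))) →
      ∃ A ⊆ {z | 0 < G z}, z ∈ A ∧ w ∈ A ∧ IsPreconnected A := by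
    intro z w hs
    refine ⟨(fun s : ℝ => z + (s:ℂ) * (w - z)) '' Icc 0 1, ?_, ⟨0, ⟨le_refl _, zero_le_one⟩, by simp⟩,
      ⟨1, ⟨zero_le_one, le_refl _⟩, by simp⟩, ?_⟩
    · rintro _ ⟨s, hs', rfl⟩
      exact hs s hs'
    · exact isPreconnected_Icc.image _ (by fun_prop)
  set z0 : ℂ := pt 0 (ya / 2) with hz0
  have hcen : ∀ y, 0 < y → y ≤ ya → y < Tp 0 → ∃ A ⊆ {z | 0 < G z}, z0 ∈ A ∧ pt 0 y ∈ A ∧
      IsPreconnected A := by
    intro y hy0 hy1 hy2
    apply hseg
    intro s hs
    have e1 : (z0 + (s:ℂ) * (pt 0 y - z0)).re = 0 := by simp [hz0, pt]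
    have e2 : (z0 + (s:ℂ) * (pt 0 y - z0)).im = (1 - s) * (ya / 2) + s * y := by
      simp [hz0, pt]; ring
    rw [hGpos, e1, e2, abs_zero]
    have hb : 0 < (1 - s) * (ya / 2) + s * y := by
      rcases eq_or_lt_of_le hs.1 with h | h
      · rw [← h]; linarith
      · have := mul_pos h hy0
        have := mul_nonneg (by linarith [hs.2] : 0 ≤ 1 - s) (by linarith : 0 ≤ ya / 2)
        linarith
    refine ⟨hb, ?_, (hXb _).1⟩
    have hT := (hTb 0).1
    rcases eq_or_lt_of_le hs.2 with h | h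
    · rw [h]; linarith
    · have h1 := mul_lt_mul_of_pos_left (by linarith : ya / 2 < Tp 0) (by linarith : 0 < 1 - s)
      have h2 := mul_le_mul_of_nonneg_left hy2.le hs.1
      nlinarith
  have hlow : ∀ x y, 0 < y → y < ya → |x| < Xs y → ∃ A ⊆ {z | 0 < G z}, z0 ∈ A ∧ pt x y ∈ A ∧
      IsPreconnected A := by
    intro x y hy0 hy1 hx
    obtain ⟨A, hA, a1, a2, a3⟩ := hcen y hy0 hy1.le (hy1.trans_le (hTb 0).1)
    obtain ⟨B, hB, b1, b2, b3⟩ := hseg (z := pt 0 y) (w := pt x y) (by
      intro s hs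
      have e1 : (pt 0 y + (s:ℂ) * (pt x y - pt 0 y)).re = s * x := by simp [pt]
      have e2 : (pt 0 y + (s:ℂ) * (pt x y - pt 0 y)).im = y := by simp [pt]
      rw [hGpos, e1, e2, abs_mul, abs_of_nonneg hs.1]
      refine ⟨hy0, hy1.trans_le (hTb _).1, ?_⟩
      have := mul_le_mul_of_nonneg_right hs.2 (abs_nonneg x)
      linarith)
    exact ⟨A ∪ B, union_subset hA hB, Or.inl a1, Or.inr b2, a3.union _ a2 b1 b3⟩
  have hconn : IsPreconnected {z | 0 < G z} := by
    apply isPreconnected_of_forall z0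
    intro z hz
    obtain ⟨g1, g2, g3⟩ := (hGpos z).1 hz
    rcases lt_or_ge z.im ya with h | h
    · obtain ⟨A, hA, a1, a2, a3⟩ := hlow z.re z.im g1 h g3
      rw [pt_eq] at a2
      exact ⟨A, hA, a1, a2, a3⟩
    · -- go down first
      have hxlt : |z.re| < xa := by rwa [hX3 _ h] at g3
      have hev : ∀ᶠ y in 𝓝 ya, |z.re| < Xs y :=
        hXc.continuousAt.eventually (lt_mem_nhds (by rw [hX3 ya (le_refl _)]; exact hxlt))
      obtain ⟨ε, hε, hball⟩ := Metric.eventually_nhds_iff.1 hev
      set y' := max (ya - ε / 2) (ya / 2) with hy'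
      have k1 : 0 < y' := lt_of_lt_of_le (by linarith) (le_max_right _ _)
      have k2 : y' < ya := max_lt (by linarith) (by linarith)
      have k3 : ∀ y, y' ≤ y → |z.re| < Xs y := by
        intro y hy
        rcases le_or_gt ya y with h1 | h1
        · rw [hX3 y h1]; exact hxlt
        · apply hball
          rw [Real.dist_eq, abs_lt]
          have : ya - ε / 2 ≤ y := (le_max_left _ _).trans hy
          constructor <;> linarith
      obtain ⟨A, hA, a1, a2, a3⟩ := hlow z.re y' k1 k2 (k3 y' (le_refl _))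
      obtain ⟨B, hB, b1, b2, b3⟩ := hseg (z := pt z.re y') (w := z) (by
        intro s hs
        have e1 : (pt z.re y' + (s:ℂ) * (z - pt z.re y')).re = z.re := by simp [pt]
        have e2 : (pt z.re y' + (s:ℂ) * (z - pt z.re y')).im = y' + s * (z.im - y') := by
          simp [pt]
        rw [hGpos, e1, e2]
        have m1 : 0 ≤ s * (z.im - y') := mul_nonneg hs.1 (by linarith)
        have m2 : s * (z.im - y') ≤ 1 * (z.im - y') :=
          mul_le_mul_of_nonneg_right hs.2 (by linarith)
        exact ⟨by linarith, by linarith, k3 _ (by linarith)⟩)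
      exact ⟨A ∪ B, union_subset hA hB, Or.inl a1, Or.inr b2, a3.union _ a2 b1 b3⟩
  have hz0G : 0 < G z0 := by
    rw [hGpos, hz0, pt_re, pt_im, abs_zero]
    exact ⟨by linarith, by linarith [(hTb 0).1], (hXb _).1⟩
  have hsub : {z | 0 < G z} ⊆ (⋃ i, (net Ps Pc Pa Pb i).c t '' Icc 0 1)ᶜ := by
    intro z hz hz'
    obtain ⟨i, p, hp, rfl⟩ := mem_iUnion.1 hz'
    have := hnet i p hp
    exact absurd hz (not_lt.2 this)
  have hbound : ∀ z ∈ {z | 0 < G z}, ‖z‖ ≤ 7 * xa := by
    intro z hz
    obtain ⟨g1, g2, g3⟩ := (hGpos z).1 hz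
    refine (Complex.norm_le_abs_re_add_abs_im z).trans ?_
    rw [abs_of_pos g1]
    have := (hTb z.re).2
    have := (hXb z.im).2
    linarith
  refine ⟨{z | 0 < G z}, ⟨?_, z0, hsub hz0G, ?_⟩, ?_, hbound⟩
  · rw [Metric.isBounded_iff_subset_closedBall 0]
    exact ⟨7 * xa, fun z hz => by rw [mem_closedBall_zero_iff]; exact hbound z hz⟩
  · symm
    refine comp_of_sign hGc hsub (fun z hz h0 => hz ?_) hconn hz0G
    rcases hzero z h0 with ((⟨p, hp, e⟩ | ⟨p, hp, e⟩) | ⟨p, hp, e⟩) | ⟨p, hp, e⟩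
    · exact mem_iUnion.2 ⟨_, p, hp, e⟩
    · exact mem_iUnion.2 ⟨_, p, hp, e⟩
    · exact mem_iUnion.2 ⟨_, p, hp, e⟩
    · exact mem_iUnion.2 ⟨_, p, hp, e⟩
  · have hopen : IsOpen {z | 0 < G z} := isOpen_lt continuous_const hGc
    apply Subset.antisymm
    · intro z hz
      exact hzero z ((frontier_lt_subset_eq continuous_const hGc hz).symm)
    · -- the curves are in the closure
      have hcl : ∀ i : Arc, (i = .bar ∨ (∃ σ, i = .short σ true) ∨ i = .cap true) →
          ∀ p ∈ Icc (0:ℝ) 1, (net Ps Pc Pa Pb i).c t p ∈ closure {z | 0 < G z} := by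
        intro i hi
        apply closure_ext
        · exact fun p hp => ((N.net_sl i).hc hp).continuousWithinAt
        · intro p hp
          have hpI : p ∈ Icc (0:ℝ) 1 := ⟨hp.1.le, hp.2.le⟩
          rcases hi with rfl | ⟨σ, rfl⟩ | rfl
          · -- bar
            have e0 : (net Ps Pc Pa Pb .bar).c t p = pt ((2 * p - 1) * xb) 0 := by
              apply Complex.ext
              · rw [c_re, pt_re]; exact (N.b0 p).1
              · rw [c_im, pt_im]; exact (N.b0 p).2.1
            have hlt : |(2 * p - 1) * xb| < xb := by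
              rw [abs_mul, abs_of_pos hxb]
              have : |2 * p - 1| < 1 := abs_lt.2 ⟨by linarith [hp.1], by linarith [hp.2]⟩
              nlinarith
            rw [e0]
            have hc : Continuous (fun s : ℝ => pt ((2 * p - 1) * xb) s) := by unfold pt; fun_prop
            refine mem_closure_of_tendsto (f := fun s : ℝ => pt ((2 * p - 1) * xb) s)
              (b := 𝓝[>] 0) (hc.continuousAt.tendsto.mono_left nhdsWithin_le_nhds) ?_
            have h1 : ∀ᶠ s in 𝓝[>] (0:ℝ), |(2 * p - 1) * xb| < Xs s :=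
              (hXc.continuousAt.eventually (lt_mem_nhds (by rw [hX0]; exact hlt))).filter_mono
                nhdsWithin_le_nhds
            filter_upwards [h1, Ioo_mem_nhdsGT hya] with s hs hs2
            rw [hGpos, pt_re, pt_im]
            exact ⟨hs2.1, hs2.2.trans_le (hTb _).1, hs⟩
          · -- short
            have hy0 : 0 < Ps.y t p := by
              have := N.s_anti hpI (⟨zero_le_one, le_refl _⟩ : (1:ℝ) ∈ Icc (0:ℝ) 1) hp.2
              rwa [N.s1.2.1] at this
            have hy1 : Ps.y t p < ya := by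
              have := N.s_anti (⟨le_refl _, zero_le_one⟩ : (0:ℝ) ∈ Icc (0:ℝ) 1) hpI hp.1
              rwa [N.s0.2.1] at this
            have hx := (N.s_x hpI).1
            have e0 : (net Ps Pc Pa Pb (.short σ true)).c t p =
                pt (1 * (sg σ * Ps.x t p)) (Ps.y t p) := by
              apply Complex.ext
              · rw [c_re, pt_re, one_mul]; rfl
              · rw [c_im, pt_im]
                simp only [net, Pd.refl, show sg true = 1 from rfl, one_mul]
            rw [e0]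
            have hc : Continuous (fun s : ℝ => pt (s * (sg σ * Ps.x t p)) (Ps.y t p)) := by
              unfold pt; fun_prop
            refine mem_closure_of_tendsto (f := fun s : ℝ => pt (s * (sg σ * Ps.x t p)) (Ps.y t p))
              (b := 𝓝[<] 1) (hc.continuousAt.tendsto.mono_left nhdsWithin_le_nhds) ?_
            filter_upwards [Ioo_mem_nhdsLT zero_lt_one] with s hs
            rw [hGpos, pt_re, pt_im, hX1 p hpI, abs_mul, sg_abs, abs_of_pos hx,
              abs_of_pos hs.1]
            exact ⟨hy0, hy1.trans_le (hTb _).1, by nlinarith [hs.2]⟩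
          · -- cap
            have hx0 : -xa < Pc.x t p := by
              have := N.c_anti hpI (⟨zero_le_one, le_refl _⟩ : (1:ℝ) ∈ Icc (0:ℝ) 1) hp.2
              rwa [N.c1.1] at this
            have hx1 : Pc.x t p < xa := by
              have := N.c_anti (⟨le_refl _, zero_le_one⟩ : (0:ℝ) ∈ Icc (0:ℝ) 1) hpI hp.1
              rwa [N.c0.1] at this
            have hyc := (N.c_y hpI).1
            have e0 : (net Ps Pc Pa Pb (.cap true)).c t p = pt (Pc.x t p) (Pc.y t p - 0) := by
              apply Complex.ext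
              · rw [c_re, pt_re]
                simp only [net, Pd.refl, show sg true = 1 from rfl, one_mul]
              · rw [c_im, pt_im]
                simp only [net, Pd.refl, show sg true = 1 from rfl, one_mul, sub_zero]
            rw [e0]
            have hc : Continuous (fun s : ℝ => pt (Pc.x t p) (Pc.y t p - s)) := by
              unfold pt; fun_prop
            refine mem_closure_of_tendsto (f := fun s : ℝ => pt (Pc.x t p) (Pc.y t p - s))
              (b := 𝓝[>] 0) (hc.continuousAt.tendsto.mono_left nhdsWithin_le_nhds) ?_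
            have h1 : ∀ᶠ s in 𝓝[>] (0:ℝ), |Pc.x t p| < Xs (Pc.y t p - s) := by
              have hcc : Continuous (fun s : ℝ => Xs (Pc.y t p - s)) :=
                hXc.comp (continuous_const.sub continuous_id)
              refine (hcc.continuousAt.eventually (lt_mem_nhds ?_)).filter_mono nhdsWithin_le_nhds
              show |Pc.x t p| < Xs (Pc.y t p - 0)
              rw [sub_zero, hX3 _ hyc, abs_lt]
              exact ⟨hx0, hx1⟩
            filter_upwards [h1, Ioo_mem_nhdsGT hya] with s hs hs2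
            rw [hGpos, pt_re, pt_im, hT1 p hpI]
            exact ⟨by linarith [hs2.2], by linarith [hs2.1], hs⟩
      rw [hopen.frontier_eq]
      rintro _ (((⟨p, hp, rfl⟩ | ⟨p, hp, rfl⟩) | ⟨p, hp, rfl⟩) | ⟨p, hp, rfl⟩)
      · exact ⟨hcl _ (Or.inl rfl) p hp, fun h => not_lt.2 (hnet _ p hp) h⟩
      · exact ⟨hcl _ (Or.inr (Or.inl ⟨true, rfl⟩)) p hp, fun h => not_lt.2 (hnet _ p hp) h⟩
      · exact ⟨hcl _ (Or.inr (Or.inl ⟨false, rfl⟩)) p hp, fun h => not_lt.2 (hnet _ p hp) h⟩
      · exact ⟨hcl _ (Or.inr (Or.inr rfl)) p hp, fun h => not_lt.2 (hnet _ p hp) h⟩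

end

end Run7.h661u
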