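import Pool.Agent.Run7.h661.U.XB

/-!
# Good times are dense in the logarithmic scale
-/

open Set Filter Topology
open scoped Real ContDiff

namespace Run7.h661u

open Run7.h661x Run7.h661v
open Run7.h661y (cang cang0 cang1 cang2 QF HypE SecAt xa ya yM rr rr_pos rr_sq tendsto_rr Jq
  mono_of_deriv hasDerivAt_rr sqrt3_bounds polar0 zero_mem_I one_mem_I rr_anti)

section
variable {g : Fin 3 → ℝ → ℝ → ℂ} {a : AFd} (S : St (1 / 2) a g)
include S

theorem dense_good {ε δ : ℝ} (hε : 0 < ε) (hδ : 0 < δ) : ∀ᶠ t in 𝓝[<] (1 / 2 : ℝ),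
    ∃ t' ∈ Ico (1 / 4 : ℝ) (1 / 2), t' ≤ t ∧ 1 / 2 - t' ≤ (1 + ε) * (1 / 2 - t) ∧
      rr (1 / 2) t' ^ 2 * Gt a t' < δ := by
  have H := hE S
  have hd2 : ∀ τ ∈ Ico (1 / 4 : ℝ) (1 / 2), ∃ D, HasDerivAt (Tht a) D τ ∧ D ≤ -Gt a τ + 1 :=
    fun τ hτ => Tht_deriv S (H.mem hτ)
  choose! D hD hDle using hd2
  have hGn : ∀ τ ∈ Ico (1 / 4 : ℝ) (1 / 2), 0 ≤ Gt a τ := fun τ hτ =>
    (G1_le S (H.mem hτ)).2.trans (G1_le S (H.mem hτ)).1
  set F : ℝ → ℝ := fun s => Tht a s - s with hF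
  have hFd : ∀ τ ∈ Ico (1 / 4 : ℝ) (1 / 2), HasDerivAt F (D τ - 1) τ := fun τ hτ =>
    (hD τ hτ).sub (hasDerivAt_id' τ)
  have hFb : ∀ τ ∈ Ico (1 / 4 : ℝ) (1 / 2), -1 / 2 ≤ F τ := by
    intro τ hτ
    have := Tht_nonneg S (H.mem hτ)
    have h2 := hτ.2
    simp only [hF]
    linarith
  have hFanti : ∀ s t : ℝ, 1 / 4 ≤ s → s ≤ t → t < 1 / 2 → F t ≤ F s := by
    intro s t hs hst ht
    have hmem : ∀ x ∈ Icc s t, x ∈ Ico (1 / 4 : ℝ) (1 / 2) := fun x hx =>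
      ⟨hs.trans hx.1, hx.2.trans_lt ht⟩
    have := mono_of_deriv (f := fun x => -F x) (f' := fun x => -(D x - 1)) (a := s) (b := t)
      (fun x hx => (hFd x (hmem x hx)).neg) (fun x hx => by
        have h1 := hDle x (hmem x hx)
        have h2 := hGn x (hmem x hx)
        linarith) (⟨le_refl _, hst⟩ : s ∈ Icc s t) ⟨hst, le_refl _⟩ hst
    linarith
  set Lm := sInf (F '' Ico (1 / 4 : ℝ) (1 / 2)) with hL
  have hbdd : BddBelow (F '' Ico (1 / 4 : ℝ) (1 / 2)) := by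
    refine ⟨-1 / 2, ?_⟩
    rintro _ ⟨τ, hτ, rfl⟩
    exact hFb τ hτ
  set η := δ * ε / (2 * (1 + ε)) with hη
  have hηp : 0 < η := by positivity
  have hne : (F '' Ico (1 / 4 : ℝ) (1 / 2)).Nonempty := ⟨_, 1 / 4, ⟨le_refl _, by norm_num⟩, rfl⟩
  obtain ⟨_, ⟨s0, hs0, rfl⟩, hs0L⟩ := exists_lt_of_csInf_lt hne (lt_add_of_pos_right Lm hηp)
  -- times
  have hev : ∀ᶠ t in 𝓝[<] (1 / 2 : ℝ), s0 < 1 / 2 - (1 + ε) * (1 / 2 - t) := by
    have h1 : Tendsto (fun t : ℝ => 1 / 2 - (1 + ε) * (1 / 2 - t)) (𝓝[<] (1 / 2 : ℝ))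
        (𝓝 (1 / 2 - (1 + ε) * (1 / 2 - 1 / 2))) :=
      ((continuous_const.sub (continuous_const.mul (continuous_const.sub continuous_id))).tendsto
        (1 / 2)).mono_left nhdsWithin_le_nhds
    exact h1.eventually (lt_mem_nhds (by rw [sub_self, mul_zero, sub_zero]; exact hs0.2))
  filter_upwards [hev, self_mem_nhdsWithin] with t ht htT
  have htT' : t < 1 / 2 := htT
  set s := 1 / 2 - (1 + ε) * (1 / 2 - t) with hs
  have hst : s ≤ t := by
    have : 0 < ε * (1 / 2 - t) := mul_pos hε (by linarith)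
    rw [hs]; linarith
  have hs4 : 1 / 4 ≤ s := hs0.1.trans ht.le
  by_contra hcon
  push Not at hcon
  have hmem : ∀ x ∈ Icc s t, x ∈ Ico (1 / 4 : ℝ) (1 / 2) := fun x hx =>
    ⟨hs4.trans hx.1, hx.2.trans_lt htT'⟩
  have hτ : 0 < 1 / 2 - t := by linarith
  set c := δ / (2 * (1 + ε) * (1 / 2 - t)) with hc
  have hGc : ∀ x ∈ Icc s t, c ≤ Gt a x := by
    intro x hx
    have h1 : (1:ℝ) / 2 - x ≤ (1 + ε) * (1 / 2 - t) := by
      have := hx.1; rw [hs] at this; linarith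
    have h2 := hcon x (hmem x hx) hx.2 h1
    have hxT : x < 1 / 2 := (hmem x hx).2
    rw [rr_sq hxT.le] at h2
    rw [hc, div_le_iff₀ (by positivity)]
    refine h2.trans ?_
    rw [mul_comm]
    apply mul_le_mul_of_nonneg_left _ (hGn x (hmem x hx))
    nlinarith
  have hm := mono_of_deriv (f := fun x => -F x - c * x) (f' := fun x => -(D x - 1) - c * 1)
    (a := s) (b := t)
    (fun x hx => (hFd x (hmem x hx)).neg.sub ((hasDerivAt_id' x).const_mul c)) (fun x hx => by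
      have h1 := hDle x (hmem x hx)
      have h2 := hGc x hx
      linarith) (⟨le_refl _, hst⟩ : s ∈ Icc s t) ⟨hst, le_refl _⟩ hst
  have h3 : F s < Lm + η := (hFanti s0 s hs0.1 ht.le (hst.trans_lt htT')).trans_lt hs0L
  have h4 : Lm ≤ F t := csInf_le hbdd ⟨t, hmem t ⟨hst, le_refl _⟩, rfl⟩
  have h5 : c * (t - s) = η := by
    have : t - s = ε * (1 / 2 - t) := by rw [hs]; ring
    rw [this, hc, hη]
    have h6 := hτ.ne'
    generalize 1 / 2 - t = τ at h6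
    field_simp
  have h6 : c * (t - s) ≤ F s - F t := by
    have e : c * (t - s) = c * t - c * s := by ring
    rw [e]; linarith
  linarith

end

end Run7.h661u
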