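import Pool.Agent.Run7.h661.U.XB

/-!
# Truncated weights
-/

open Set Filter Topology
open scoped Real ContDiff

namespace Run7.h661u

open Run7.h661y

/-- truncated power -/
lemma hasDerivAt_mpow (n : ℕ) (u : ℝ) :
    HasDerivAt (fun u : ℝ => max u 0 ^ (n + 2)) (((n : ℝ) + 2) * max u 0 ^ (n + 1)) u := by
  rcases lt_trichotomy u 0 with h | h | h
  · have h1 : (fun u : ℝ => max u 0 ^ (n + 2)) =ᶠ[𝓝 u] fun _ => 0 := by
      filter_upwards [Iio_mem_nhds h] with v hv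
      rw [max_eq_right (le_of_lt hv)]; simp
    rw [max_eq_right h.le]
    simpa using (hasDerivAt_const u (0:ℝ)).congr_of_eventuallyEq h1
  · subst h
    have h1 : HasDerivWithinAt (fun u : ℝ => max u 0 ^ (n + 2)) 0 (Iic 0) 0 := by
      refine (hasDerivWithinAt_const (0:ℝ) (Iic 0) (0:ℝ)).congr (fun v hv => ?_) ?_
      · rw [max_eq_right hv]; simp
      · simp
    have h2 : HasDerivWithinAt (fun u : ℝ => max u 0 ^ (n + 2)) 0 (Ici 0) 0 := by
      have h3 : HasDerivAt (fun u : ℝ => u ^ (n + 2)) 0 0 := by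
        simpa using hasDerivAt_pow (n + 2) (0:ℝ)
      refine h3.hasDerivWithinAt.congr (fun v hv => ?_) ?_
      · rw [max_eq_left hv]
      · simp
    have h3 := h1.union h2
    rw [Iic_union_Ici, hasDerivWithinAt_univ] at h3
    simpa using h3
  · have h1 : (fun u : ℝ => max u 0 ^ (n + 2)) =ᶠ[𝓝 u] fun u => u ^ (n + 2) := by
      filter_upwards [Ioi_mem_nhds h] with v hv
      rw [max_eq_left (le_of_lt hv)]
    rw [max_eq_left h.le]
    refine HasDerivAt.congr_of_eventuallyEq ?_ h1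
    refine (hasDerivAt_pow (n + 2) u).congr_deriv ?_
    rw [show n + 2 - 1 = n + 1 from rfl]
    push_cast
    ring

/-- the weight `(45/2 - x²/r²)_+^8` -/
noncomputable def qz (T t x : ℝ) : ℝ := 45 / 2 - x ^ 2 / (2 * (T - t))
noncomputable def Wt (T t x : ℝ) : ℝ := max (qz T t x) 0 ^ 8
noncomputable def Wtt (T t x : ℝ) : ℝ := 8 * max (qz T t x) 0 ^ 7 * (-(x ^ 2 / (2 * (T - t) ^ 2)))
noncomputable def Wtx (T t x : ℝ) : ℝ := 8 * max (qz T t x) 0 ^ 7 * (-(x / (T - t)))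
noncomputable def Wtxx (T t x : ℝ) : ℝ :=
  8 * (7 * max (qz T t x) 0 ^ 6 * (-(x / (T - t)))) * (-(x / (T - t))) +
    8 * max (qz T t x) 0 ^ 7 * (-(1 / (T - t)))

lemma test_wt (T : ℝ) : Test T (Wt T) (Wtt T) (Wtx T) (Wtxx T) := by
  have hne : ∀ q ∈ Ioo 0 T ×ˢ (univ : Set ℝ), T - q.1 ≠ 0 := by
    rintro q ⟨hq, -⟩
    have := hq.2
    exact (by linarith : 0 < T - q.1).ne'
  have hne2 : ∀ q ∈ Ioo 0 T ×ˢ (univ : Set ℝ), 2 * (T - q.1) ≠ 0 := fun q hq =>
    mul_ne_zero two_ne_zero (hne q hq)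
  have hne5 : ∀ q ∈ Ioo 0 T ×ˢ (univ : Set ℝ), 2 * (T - q.1) ^ 2 ≠ 0 := fun q hq =>
    mul_ne_zero two_ne_zero (pow_ne_zero 2 (hne q hq))
  have c0 : ContinuousOn (fun q : ℝ × ℝ => T - q.1) (Ioo 0 T ×ˢ univ) := by fun_prop
  have c2 : ContinuousOn (fun q : ℝ × ℝ => 2 * (T - q.1)) (Ioo 0 T ×ˢ univ) := by fun_prop
  have c5 : ContinuousOn (fun q : ℝ × ℝ => 2 * (T - q.1) ^ 2) (Ioo 0 T ×ˢ univ) := by fun_prop
  have cx : ContinuousOn (fun q : ℝ × ℝ => q.2) (Ioo 0 T ×ˢ univ) := by fun_prop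
  have cx2 : ContinuousOn (fun q : ℝ × ℝ => q.2 ^ 2) (Ioo 0 T ×ˢ univ) := by fun_prop
  have cq : ContinuousOn (fun q : ℝ × ℝ => qz T q.1 q.2) (Ioo 0 T ×ˢ univ) :=
    continuousOn_const.sub (cx2.div c2 hne2)
  have cm : ContinuousOn (fun q : ℝ × ℝ => max (qz T q.1 q.2) 0) (Ioo 0 T ×ˢ univ) :=
    cq.sup continuousOn_const
  have cxT : ContinuousOn (fun q : ℝ × ℝ => -(q.2 / (T - q.1))) (Ioo 0 T ×ˢ univ) :=
    (cx.div c0 hne).neg
  refine ⟨cm.pow 8, ?_, ?_, ?_, ?_, ?_, ?_⟩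
  · exact (continuousOn_const.mul (cm.pow 7)).mul (cx2.div c5 hne5).neg
  · exact (continuousOn_const.mul (cm.pow 7)).mul cxT
  · exact ((continuousOn_const.mul ((continuousOn_const.mul (cm.pow 6)).mul cxT)).mul cxT).add
      ((continuousOn_const.mul (cm.pow 7)).mul (continuousOn_const.div c0 hne).neg)
  · intro t ht x x' hx
    have hT : 0 < T - t := by have := ht.2; linarith
    have d0 : HasDerivAt (fun s : ℝ => 2 * (T - s)) (2 * (-1)) t :=
      (((hasDerivAt_const t T).sub (hasDerivAt_id' t)).const_mul 2).congr_deriv (by ring)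
    have dx2 : HasDerivAt (fun s => x s ^ 2) (2 * x t * x') t := (hx.pow 2).congr_deriv (by simp)
    have d4 : HasDerivAt (fun s => qz T s (x s))
      (-((2 * x t * x' * (2 * (T - t)) - x t ^ 2 * (2 * (-1))) / (2 * (T - t)) ^ 2)) t :=
      (dx2.div d0 (by positivity)).const_sub (45 / 2)
    have d5 := (hasDerivAt_mpow 6 (qz T t (x t))).comp t d4
    refine HasDerivAt.congr_deriv (f := fun s => Wt T s (x s)) d5 ?_
    simp only [Wtt, Wtx]
    push_cast
    field_simp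
    ring
  · intro t ht x
    have hT : 0 < T - t := by have := ht.2; linarith
    have dx2 : HasDerivAt (fun s : ℝ => s ^ 2) (2 * x) x :=
      ((hasDerivAt_id' x).pow 2).congr_deriv (by simp)
    have d4 : HasDerivAt (fun s => qz T t s) (-(2 * x / (2 * (T - t)))) x :=
      (dx2.div_const (2 * (T - t))).const_sub (45 / 2)
    have d5 := (hasDerivAt_mpow 6 (qz T t x)).comp x d4
    refine HasDerivAt.congr_deriv (f := fun s => Wt T t s) d5 ?_
    simp only [Wtx]
    push_cast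
    field_simp
    ring
  · intro t ht x
    have hT : 0 < T - t := by have := ht.2; linarith
    have dx2 : HasDerivAt (fun s : ℝ => s ^ 2) (2 * x) x :=
      ((hasDerivAt_id' x).pow 2).congr_deriv (by simp)
    have d4 : HasDerivAt (fun s => qz T t s) (-(2 * x / (2 * (T - t)))) x :=
      (dx2.div_const (2 * (T - t))).const_sub (45 / 2)
    have d5 := ((hasDerivAt_mpow 5 (qz T t x)).comp x d4).const_mul 8
    have d6 : HasDerivAt (fun s : ℝ => -(s / (T - t))) (-(1 / (T - t))) x :=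
      ((hasDerivAt_id' x).div_const (T - t)).neg
    refine HasDerivAt.congr_deriv (f := fun s => Wtx T t s) (d5.mul d6) ?_
    simp only [Wtxx, Function.comp]
    push_cast
    field_simp
    ring

/-! ## the polynomial inequalities -/

lemma poly_pos (q : ℝ) : 0 < 1798 / 100 * q ^ 2 - 600 * q + 5040 ∧
    0 < 1798 / 100 * q ^ 2 - 5976 / 10 * q + 49896 / 10 := by
  constructor
  · nlinarith [sq_nonneg (q - 16.6)]
  · nlinarith [sq_nonneg (q - 16.6)]

/-- on the arm -/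
lemma arm_ineq {q z s w : ℝ} (hs : 0 ≤ s) (h1 : 99 / 100 * s ≤ w) (h2 : w ≤ s)
    (hz : z = 45 / 2 - q) :
    0 ≤ (198 / 100 * q ^ 2 - 16 * z * q) * s + (224 * z - 16 * q) * w := by
  obtain ⟨p1, p2⟩ := poly_pos q
  subst hz
  rcases le_total 0 (224 * (45 / 2 - q) - 16 * q) with h | h
  · have a1 := mul_le_mul_of_nonneg_left h1 h
    have a2 := mul_nonneg p2.le hs
    nlinarith
  · have a1 := mul_le_mul_of_nonpos_left h2 h
    have a2 := mul_nonneg p1.le hs
    nlinarith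

/-- on the short edge -/
lemma short_ineq {q z s w : ℝ} (hs : 866 / 1000 ≤ s) (h1 : |w| ≤ 1 / 100)
    (hz : z = 45 / 2 - q) (hz0 : 0 ≤ z) (hz2 : z ≤ 2434 / 1000) :
    0 ≤ (198 / 100 * q ^ 2 - 16 * z * q) * s + (224 * z - 16 * q) * w := by
  obtain ⟨a1, a2⟩ := abs_le.1 h1
  have hq : 45 / 2 - 2434 / 1000 ≤ q := by linarith
  have hq2 : q ≤ 45 / 2 := by linarith
  have k1 : 0.78 * q ≤ 198 / 100 * q ^ 2 - 16 * z * q := by
    have : 0.78 ≤ 198 / 100 * q - 16 * z := by linarith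
    have := mul_le_mul_of_nonneg_right this (by linarith : 0 ≤ q)
    linarith
  have k2 : 0.78 * q * (866 / 1000) ≤ (198 / 100 * q ^ 2 - 16 * z * q) * s :=
    mul_le_mul k1 hs (by norm_num) (by linarith)
  have k3 : |224 * z - 16 * q| ≤ 906 := by rw [abs_le]; constructor <;> linarith
  have k4 : |(224 * z - 16 * q) * w| ≤ 906 * (1 / 100) := by
    rw [abs_mul]; exact mul_le_mul k3 h1 (abs_nonneg _) (by norm_num)
  have := (abs_le.1 k4).1
  linarith

end Run7.h661u
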