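import Pool.Agent.Run7.h661.V.Blow

/-!
# The width of the cell at all times
-/

open Set Filter Topology
open scoped Real ContDiff

namespace Run7.h661u

open Run7.h661x Run7.h661v
open Run7.h661y (cang cang0 cang1 cang2 QF HypE SecAt xa ya yM rr rr_pos rr_sq tendsto_rr Jq
  mono_of_deriv hasDerivAt_rr sqrt3_bounds polar0 zero_mem_I one_mem_I deriv_nonneg_of_left_max
  hasDerivAt_re hasDerivAt_th_p dt dp thp rr_anti Aq Nq)

/-- abscissa of the end of the bar -/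
noncomputable def xb (g : Fin 3 → ℝ → ℝ → ℂ) (t : ℝ) : ℝ := (g 0 t 1).re

section
variable {T R h : ℝ} {g : Fin 3 → ℝ → ℝ → ℂ}

lemma xb_deriv (H : QF T R h g) {t : ℝ} (ht : t ∈ Ioo 0 T) (hs : SecAt g t) :
    ∃ v, HasDerivAt (xb g) v t ∧ v ≤ 0 := by
  refine ⟨_, hasDerivAt_re ((H.edge 0).sm.hasDerivAt_t ht 1), ?_⟩
  have hpos := SecAt.posAt H ht hs
  have hth := hasDerivAt_th_p (H.edge 0).sm ht (hpos 0 1 one_mem_I)
  have h1 := deriv_nonneg_of_left_max hth.neg zero_lt_one (fun z hz => by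
    have := (H.th_mem ht hs 0 (p := z) ⟨hz.1.le, hz.2.le⟩).1
    rw [Pi.neg_apply, Pi.neg_apply, H.th_b ht hpos]
    linarith)
  have h2 := (H.edge 0).cross ht one_mem_I
  rw [H.dt0_im ht, zero_mul, zero_sub] at h2
  have h3 := H.dp0_im_neg ht hs one_mem_I
  by_contra hcon
  push Not at hcon
  have : (dt (g 0) t 1).re * (dp (g 0) t 1).im < 0 := mul_neg_of_pos_of_neg hcon h3
  linarith

lemma xb_anti (H : QF T R h g) (hs : ∀ t ∈ Ioo 0 T, SecAt g t) {s t : ℝ} (hs0 : 0 < s) (hst : s ≤ t)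
    (ht : t < T) : xb g t ≤ xb g s := by
  have hmem : ∀ x ∈ Icc s t, x ∈ Ioo 0 T := fun x hx => ⟨hs0.trans_le hx.1, hx.2.trans_lt ht⟩
  choose! v hv hv0 using fun x (hx : x ∈ Icc s t) => xb_deriv H (hmem x hx) (hs x (hmem x hx))
  have := mono_of_deriv (f := fun x => -xb g x) (f' := fun x => -v x) (a := s) (b := t)
    (fun x hx => (hv x hx).neg) (fun x hx => by have := hv0 x hx; linarith)
    (⟨le_refl _, hst⟩ : s ∈ Icc s t) ⟨hst, le_refl _⟩ hst
  linarith

/-- the ends of the short edge are close to each other -/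
lemma xb_near (H : QF T R h g) {t : ℝ} (ht : t ∈ Ioo 0 T) (hs : SecAt g t) :
    xb g t ≤ xa g t + √3 / 3 * ya g t ∧ xa g t - √3 / 3 * ya g t ≤ xb g t :=
  H.xbound ht hs one_mem_I

end

section
variable {T t0 R h K : ℝ} {g : Fin 3 → ℝ → ℝ → ℂ}

/-- the width is bounded at all times -/
theorem width_bound (H : HypE T t0 R h K g) : ∃ M, 0 < M ∧ ∀ t ∈ Ico t0 T, 2 * t - T ∈ Ico t0 T →
    xa g t < M * rr T t := by
  obtain ⟨C, hC, hJC⟩ := H.J_le
  have s1 := sqrt3_bounds.1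
  have s2 := sqrt3_bounds.2
  have p1 := Real.pi_gt_three
  refine ⟨2 * C + 4 + 2 * C * 2 , by positivity, fun t ht ht' => ?_⟩
  set s := 2 * t - T with hs
  have hst : s ≤ t := by have := ht.2; linarith
  have hd : ∀ τ ∈ Ico t0 T, ∃ J', HasDerivAt (Jq g) J' τ ∧ J' ≤ -(π / 3 * xa g τ) + yM g τ :=
    fun τ hτ => H.qf.Jq_deriv (H.mem hτ) (H.secAt hτ)
  choose! J' hJ' hJ'le using hd
  have hr := rr_pos ht.2
  have hrs := rr_pos ht'.2
  have e2 : rr T s ^ 2 = 2 * rr T t ^ 2 := by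
    rw [rr_sq ht'.2.le, rr_sq ht.2.le, hs]; ring
  have hrs2 : rr T s ≤ 3 / 2 * rr T t := by
    by_contra hcon
    push Not at hcon
    have : (3 / 2 * rr T t) ^ 2 < rr T s ^ 2 := pow_lt_pow_left₀ hcon (by positivity) two_ne_zero
    nlinarith
  have hmem : ∀ x ∈ Icc s t, x ∈ Ico t0 T := fun x hx => ⟨ht'.1.trans hx.1, hx.2.trans_lt ht.2⟩
  -- lower bound of the abscissa
  have hx : ∀ x ∈ Icc s t, J' x ≤ -(π / 3 * (xb g t)) + 2 * rr T s := by
    intro x hx
    have hxI := hmem x hx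
    have h1 := hJ'le x hxI
    have h2 := H.yM_le hxI
    have h3 := (xb_near H.qf (H.mem hxI) (H.secAt hxI)).1
    have h4 := xb_anti H.qf (fun τ hτ => H.base.sec τ hτ) (H.mem hxI).1 hx.2 ht.2
    have h5 := H.base.ya_le (H.mem hxI)
    have h6 : rr T x ≤ rr T s := rr_anti hx.1
    have h7 := H.qf.ya_pos (H.mem hxI) (H.secAt hxI)
    have h8 : √3 / 3 * ya g x ≤ 0.58 * (0.7183 * rr T x) :=
      mul_le_mul (by linarith) h5 h7.le (by norm_num)
    have h9 : π / 3 * (xb g t) ≤ π / 3 * (xa g x + √3 / 3 * ya g x) :=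
      mul_le_mul_of_nonneg_left (h4.trans h3) (by positivity)
    have h10 : π / 3 * (√3 / 3 * ya g x) ≤ 1.05 * (0.58 * (0.7183 * rr T x)) :=
      mul_le_mul (by linarith [Real.pi_lt_d4]) h8 (by positivity) (by norm_num)
    have h11 : √3 / 2 * rr T x ≤ 0.8661 * rr T x :=
      mul_le_mul_of_nonneg_right (by linarith) (rr_pos hxI.2).le
    have h12 := (rr_pos hxI.2)
    nlinarith
  have hm := mono_of_deriv (f := fun x => -Jq g x + (-(π / 3 * (xb g t)) + 2 * rr T s) * x)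
    (f' := fun x => -J' x + (-(π / 3 * (xb g t)) + 2 * rr T s) * 1) (a := s) (b := t)
    (fun x hx => (hJ' x (hmem x hx)).neg.add ((hasDerivAt_id' x).const_mul _))
    (fun x hx' => by have := hx x hx'; linarith)
    (⟨le_refl _, hst⟩ : s ∈ Icc s t) ⟨hst, le_refl _⟩ hst
  have hJ0 := H.qf.Jq_nonneg (H.mem ht) (H.secAt ht)
  have hJs := hJC s ht'
  have ets : t - s = rr T t ^ 2 / 2 := by rw [rr_sq ht.2.le, hs]; ring
  have k1 : π / 3 * xb g t * (rr T t ^ 2 / 2) ≤ C * rr T s ^ 3 + 2 * rr T s * (rr T t ^ 2 / 2) := by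
    rw [← ets]; linarith
  have e3 : rr T s ^ 3 = 2 * rr T t ^ 2 * rr T s := by rw [← e2]; ring
  rw [e3] at k1
  have k2 : xb g t * (rr T t ^ 2 / 2) ≤ (4 * C + 2) * rr T s * (rr T t ^ 2 / 2) := by
    have hxb0 : 0 ≤ xb g t := by
      have := (H.concl_all ht).x0 1 one_mem_I
      have h2 : 0 ≤ 1019 / 1000 * rr T t := by positivity
      exact h2.trans this
    have : xb g t * (rr T t ^ 2 / 2) ≤ π / 3 * xb g t * (rr T t ^ 2 / 2) := by
      apply mul_le_mul_of_nonneg_right _ (by positivity)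
      nlinarith
    nlinarith
  have k3 : xb g t ≤ (4 * C + 2) * rr T s := le_of_mul_le_mul_right k2 (by positivity)
  have k4 := (xb_near H.qf (H.mem ht) (H.secAt ht)).2
  have k5 := H.base.ya_le (H.mem ht)
  have k6 := H.qf.ya_pos (H.mem ht) (H.secAt ht)
  have k7 : √3 / 3 * ya g t ≤ 0.58 * (0.7183 * rr T t) :=
    mul_le_mul (by linarith) k5 k6.le (by norm_num)
  have k8 : (4 * C + 2) * rr T s ≤ (4 * C + 2) * (3 / 2 * rr T t) :=
    mul_le_mul_of_nonneg_left hrs2 (by positivity)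
  nlinarith

end

end Run7.h661u
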